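import Pool.Agent.Work.MP_3d425c_gt.Ht.Prep
import Mathlib
import Pool.Agent.Work.MP_3d425c_gt.Cy.U2

-- merged part: Pool.Agent.Work.MP_3d425c_gt.Gn.Word
section
/-! The generic step: two loops through two free arcs, words in interval maps, Baire. -/

namespace Pool.Agent.Work.MP_3d425c_gt.Gn
open Set Filter Topology

section Tree
variable {G X A : Type*} (src tgt : A → X)

/-- joined by arcs of `Γ` -/
def Conn (Γ : Set A) : X → X → Prop :=
  Relation.EqvGen fun x y => ∃ a ∈ Γ, src a = x ∧ tgt a = y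

variable {src tgt} {Γ Δ : Set A}

theorem Conn.refl (x : X) : Conn src tgt Γ x x := Relation.EqvGen.refl x

theorem Conn.symm {x y : X} (h : Conn src tgt Γ x y) : Conn src tgt Γ y x :=
  Relation.EqvGen.symm _ _ h

theorem Conn.trans {x y z : X} (h : Conn src tgt Γ x y) (h' : Conn src tgt Γ y z) :
    Conn src tgt Γ x z := Relation.EqvGen.trans _ _ _ h h'

theorem Conn.arc {a : A} (h : a ∈ Γ) : Conn src tgt Γ (src a) (tgt a) :=
  Relation.EqvGen.rel _ _ ⟨a, h, rfl, rfl⟩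

/-- every arc of `Γ` can be replaced by a walk in `Δ` -/
theorem Conn.of_arcs (k : ∀ a ∈ Γ, Conn src tgt Δ (src a) (tgt a)) {x y : X}
    (h : Conn src tgt Γ x y) : Conn src tgt Δ x y := by
  induction h with
  | rel x y h => obtain ⟨a, ha, rfl, rfl⟩ := h; exact k a ha
  | refl x => exact .refl x
  | symm x y _ ih => exact ih.symm
  | trans x y z _ _ i j => exact i.trans j

theorem Conn.mono (k : Γ ⊆ Δ) {x y : X} (h : Conn src tgt Γ x y) : Conn src tgt Δ x y :=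
  h.of_arcs fun _ ha => .arc (k ha)

theorem Conn.iff {P : X → Prop} (k : ∀ a ∈ Γ, P (src a) ↔ P (tgt a)) {x y : X}
    (h : Conn src tgt Γ x y) : P x ↔ P y := by
  induction h with
  | rel x y h => obtain ⟨a, ha, rfl, rfl⟩ := h; exact k a ha
  | refl x => rfl
  | symm x y _ ih => exact ih.symm
  | trans x y z _ _ i j => exact i.trans j

theorem Conn.inside {S : Set X} (k : ∀ x ∈ S, ∀ y, Conn src tgt Γ x y → y ∈ S) {x y : X}
    (h : Conn src tgt Γ x y) (hx : x ∈ S) :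
    Conn src tgt {a | a ∈ Γ ∧ src a ∈ S ∧ tgt a ∈ S} x y := by
  induction h with
  | rel x y h =>
    obtain ⟨a, ha, rfl, rfl⟩ := h
    exact .arc ⟨ha, hx, k _ hx _ (.arc ha)⟩
  | refl x => exact .refl x
  | symm x y h ih => exact (ih (k _ hx _ (Conn.symm h))).symm
  | trans x y z h _ i j => exact (i hx).trans (j (k _ hx _ h))

theorem Conn.ins {S S' : Set X} (k : Δ ⊆ Γ) (k' : S ⊆ S') {x y : X}
    (h : Conn src tgt {a | a ∈ Δ ∧ src a ∈ S ∧ tgt a ∈ S} x y) :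
    Conn src tgt {a | a ∈ Γ ∧ src a ∈ S' ∧ tgt a ∈ S'} x y :=
  h.mono fun _ ha => And.intro (k ha.1) ⟨k' ha.2.1, k' ha.2.2⟩

variable [Group G] [MulAction G X] [MulAction G A]

theorem Conn.smul (hs : ∀ (g : G) a, src (g • a) = g • src a)
    (ht : ∀ (g : G) a, tgt (g • a) = g • tgt a) (hΓ : ∀ (g : G) a, a ∈ Γ → g • a ∈ Γ) (g : G)
    {x y : X} (h : Conn src tgt Γ x y) : Conn src tgt Γ (g • x) (g • y) := by
  induction h with
  | rel x y h =>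
    obtain ⟨a, ha, rfl, rfl⟩ := h
    rw [← hs, ← ht]
    exact .arc (hΓ g a ha)
  | refl x => exact .refl _
  | symm x y _ ih => exact ih.symm
  | trans x y z _ _ i j => exact i.trans j

/-- A connected transversal. -/
theorem exists_dom (hs : ∀ (g : G) a, src (g • a) = g • src a)
    (ht : ∀ (g : G) a, tgt (g • a) = g • tgt a) {J : Set A}
    (hJ : ∀ (g : G) a, a ∈ J → g • a ∈ J) (hJΓ : J ⊆ Γ)
    (hJ1 : ∀ (g : G) x, Conn src tgt J x (g • x) → g = 1) (x₀ : X) :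
    ∃ S : Set X, x₀ ∈ S ∧ (∀ x ∈ S, ∀ g : G, g • x ∈ S → g = 1) ∧
      (∀ x ∈ S, ∀ y, Conn src tgt J x y → y ∈ S) ∧
      (∀ x ∈ S, Conn src tgt {a | a ∈ Γ ∧ src a ∈ S ∧ tgt a ∈ S} x₀ x) ∧
      ∀ a ∈ Γ, (src a ∈ S → ∃ k : G, k • tgt a ∈ S) ∧ (tgt a ∈ S → ∃ k : G, k • src a ∈ S) := by
  obtain ⟨S, h0, ⟨h1, h2, h3⟩, hm⟩ := zorn_subset_nonempty
    {S : Set X | (∀ x ∈ S, ∀ g : G, g • x ∈ S → g = 1) ∧
      (∀ x ∈ S, ∀ y, Conn src tgt J x y → y ∈ S) ∧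
      ∀ x ∈ S, Conn src tgt {a | a ∈ Γ ∧ src a ∈ S ∧ tgt a ∈ S} x₀ x}
    (fun c hc hch _ => by
      refine ⟨⋃₀ c, ⟨?_, ?_, ?_⟩, fun s h => subset_sUnion_of_mem h⟩
      · rintro x ⟨s, hs, hx⟩ g ⟨t, ht, hy⟩
        rcases hch.total hs ht with k | k
        exacts [(hc ht).1 x (k hx) g hy, (hc hs).1 x hx g (k hy)]
      · rintro x ⟨s, hs, hx⟩ y h
        exact ⟨s, hs, (hc hs).2.1 x hx y h⟩
      · rintro x ⟨s, hs, hx⟩
        exact ((hc hs).2.2 x hx).ins subset_rfl (subset_sUnion_of_mem hs))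
    {y | Conn src tgt J x₀ y} ⟨fun x hx g h => hJ1 g x (Conn.trans (Conn.symm hx) h),
      fun x hx y h => Conn.trans hx h, fun x hx =>
        (Conn.inside (S := {y | Conn src tgt J x₀ y}) (fun x hx y h => Conn.trans hx h) hx
          (Conn.refl x₀)).ins hJΓ subset_rfl⟩
  · have key : ∀ y, (∀ S' : Set X, S ⊆ S' → y ∈ S' →
        Conn src tgt {a | a ∈ Γ ∧ src a ∈ S' ∧ tgt a ∈ S'} x₀ y) → ∃ k : G, k • y ∈ S := by
      intro y hy
      by_contra hn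
      have hn' : ∀ (k : G) x, Conn src tgt J y x → k • x ∉ S := fun k x h p =>
        hn ⟨k, h2 _ p _ (h.smul hs ht hJ k).symm⟩
      have cl : ∀ x ∈ S ∪ {z | Conn src tgt J y z}, ∀ z, Conn src tgt J x z →
          z ∈ S ∪ {z | Conn src tgt J y z} := by
        rintro x (hx | hx) z h
        exacts [.inl (h2 x hx z h), .inr (Conn.trans hx h)]
      refine hn ⟨1, (one_smul G y).symm ▸ hm (y := S ∪ {z | Conn src tgt J y z}) ⟨?_, cl, ?_⟩
        subset_union_left (.inr (Conn.refl y))⟩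
      · rintro x (hx | hx) g (h | h)
        · exact h1 x hx g h
        · exact (hn' g⁻¹ _ h (by rwa [inv_smul_smul])).elim
        · exact (hn' g _ hx h).elim
        · exact hJ1 g x (Conn.trans (Conn.symm hx) h)
      · rintro x (hx | hx)
        · exact (h3 x hx).ins subset_rfl subset_union_left
        · exact (hy _ subset_union_left (.inr (Conn.refl y))).trans
            ((Conn.inside cl hx (.inr (Conn.refl y))).ins hJΓ subset_rfl)
    refine ⟨S, h0 (Conn.refl x₀), h1, h2, h3, fun a ha => ⟨fun h => key _ fun S' k p => ?_,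
      fun h => key _ fun S' k p => ?_⟩⟩
    · exact ((h3 _ h).ins subset_rfl k).trans (.arc ⟨ha, k h, p⟩)
    · exact ((h3 _ h).ins subset_rfl k).trans (Conn.symm (.arc ⟨ha, p, k h⟩))

/-- Non commuting labels give two loops, each through its own arc exactly once. `J` is a set of
arcs that must not be chosen. -/
theorem two_loops (hs : ∀ (g : G) a, src (g • a) = g • src a)
    (ht : ∀ (g : G) a, tgt (g • a) = g • tgt a) (hΓ : ∀ (g : G) a, a ∈ Γ → g • a ∈ Γ) {J : Set A}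
    (hJ : ∀ (g : G) a, a ∈ J → g • a ∈ J) (hJΓ : J ⊆ Γ)
    (hJ1 : ∀ (g : G) x, Conn src tgt J x (g • x) → g = 1) {x₀ : X} {g h : G}
    (hg : Conn src tgt Γ x₀ (g • x₀)) (hh : Conn src tgt Γ x₀ (h • x₀)) (hne : g * h ≠ h * g) :
    ∃ a ∈ Γ, ∃ b ∈ Γ, a ∉ J ∧ b ∉ J ∧ (∀ k : G, k • a ≠ b) ∧ ∃ k l : G, k * l ≠ l * k ∧
      ∀ T, T = {e | e ∈ Γ ∧ (∀ k : G, k • a ≠ e) ∧ ∀ k : G, k • b ≠ e} →
        Conn src tgt T x₀ (src a) ∧ Conn src tgt T (tgt a) (k • x₀) ∧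
        Conn src tgt T x₀ (src b) ∧ Conn src tgt T (tgt b) (l • x₀) := by
  obtain ⟨S, h0, h1, h2, h3, h4⟩ := exists_dom hs ht hJ hJΓ hJ1 x₀
  obtain ⟨k, ⟨a, ha, a1, a2⟩, l, ⟨b, hb, b1, b2⟩, hkl⟩ :
      ∃ k ∈ {k : G | ∃ a ∈ Γ, src a ∈ S ∧ k⁻¹ • tgt a ∈ S},
        ∃ l ∈ {k : G | ∃ a ∈ Γ, src a ∈ S ∧ k⁻¹ • tgt a ∈ S}, k * l ≠ l * k := by
    by_contra hn
    push Not at hn
    set K := {k : G | ∃ a ∈ Γ, src a ∈ S ∧ k⁻¹ • tgt a ∈ S}
    have mem : ∀ γ : G, Conn src tgt Γ x₀ (γ • x₀) → γ ∈ Subgroup.closure K := fun γ hγ => by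
      have st : ∀ a ∈ Γ, (∃ k ∈ Subgroup.closure K, k • src a ∈ S) ↔
          ∃ k ∈ Subgroup.closure K, k • tgt a ∈ S := fun a ha => by
        constructor
        · rintro ⟨k, hk, e⟩
          rw [← hs] at e
          obtain ⟨l, hl⟩ := (h4 _ (hΓ k a ha)).1 e
          refine ⟨l * k, mul_mem (inv_mem_iff.1 (Subgroup.subset_closure
            ⟨_, hΓ k a ha, e, by rwa [inv_inv]⟩)) hk, ?_⟩
          rwa [mul_smul, ← ht]
        · rintro ⟨k, hk, e⟩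
          rw [← ht] at e
          obtain ⟨l, hl⟩ := (h4 _ (hΓ k a ha)).2 e
          refine ⟨l * k, mul_mem (Subgroup.subset_closure
            ⟨_, hΓ l _ (hΓ k a ha), by rwa [hs], by rwa [ht l, inv_smul_smul]⟩) hk, ?_⟩
          rwa [mul_smul, ← hs]
      obtain ⟨k, hk, e⟩ := (Conn.iff (P := fun x => ∃ k ∈ Subgroup.closure K, k • x ∈ S)
        st hγ).1 ⟨1, one_mem _, by rwa [one_smul]⟩
      rw [← mul_smul] at e
      rw [eq_inv_of_mul_eq_one_right (h1 _ h0 _ e)]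
      exact inv_mem hk
    have c1 : Subgroup.closure K ≤ Subgroup.centralizer K :=
      (Subgroup.closure_le _).2 fun k hk l hl => hn l hl k hk
    have c2 : Subgroup.closure K ≤ Subgroup.centralizer {g} :=
      (Subgroup.closure_le _).2 fun k hk l hl => by
        rw [mem_singleton_iff.1 hl]
        exact (c1 (mem g hg) k hk).symm
    exact hne (c2 (mem h hh) g rfl)
  have k1 : tgt a ∉ S := fun p => hkl (by rw [inv_eq_one.1 (h1 _ p _ a2), one_mul, mul_one])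
  have l1 : tgt b ∉ S := fun p => hkl (by rw [inv_eq_one.1 (h1 _ p _ b2), one_mul, mul_one])
  have out : ∀ c, src c ∈ S → ∀ e, src e ∈ S → ∀ γ : G, γ • c = e → c = e := fun c p e q γ r => by
    rw [← r, hs] at q
    rwa [h1 _ p _ q, one_smul] at r
  refine ⟨a, ha, b, hb, fun p => k1 (h2 _ a1 _ (.arc p)), fun p => l1 (h2 _ b1 _ (.arc p)),
    fun γ r => hkl ?_, k, l, hkl, fun T hT => ?_⟩
  · obtain rfl := out a a1 b b1 γ r
    have := h1 _ a2 (l⁻¹ * k) (by rwa [mul_smul, smul_inv_smul])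
    rw [inv_mul_eq_one.1 this]
  · have sub : ∀ x ∈ S, Conn src tgt T x₀ x := fun x hx => (h3 x hx).mono fun e he =>
      hT ▸ ⟨he.1, fun γ r => k1 (out a a1 e he.2.1 γ r ▸ he.2.2),
        fun γ r => l1 (out b b1 e he.2.1 γ r ▸ he.2.2)⟩
    have inv : ∀ (γ : G) e, e ∈ T → γ • e ∈ T := by
      subst hT
      exact fun γ e he => ⟨hΓ γ e he.1,
        fun δ r => he.2.1 (γ⁻¹ * δ) (by rw [mul_smul, r, inv_smul_smul]),
        fun δ r => he.2.2 (γ⁻¹ * δ) (by rw [mul_smul, r, inv_smul_smul])⟩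
    have p := ((sub _ a2).smul hs ht inv k).symm
    have q := ((sub _ b2).smul hs ht inv l).symm
    rw [smul_inv_smul] at p q
    exact ⟨sub _ a1, p, sub _ b1, q⟩

end Tree

section Word
variable {Ψ Λ : Type*} (M : Ψ → Λ → ℝ ≃o ℝ)

/-- the formal composite of the interval maps along a word -/
def hol (ψ : Ψ) : FreeGroup Λ →* (ℝ ≃o ℝ) := FreeGroup.lift (M ψ)

/-- no common fixed point in `[p, q]` -/
def NoFix (v w : FreeGroup Λ) (p q : ℝ) (ψ : Ψ) : Prop :=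
  ∀ s ∈ Icc p q, hol M ψ v s = s → hol M ψ w s ≠ s

/-- a generic structure -/
def Generic [TopologicalSpace Ψ] (ψ : Ψ) : Prop :=
  ∀ v w (p q : ℚ), ψ ∈ closure {φ | NoFix M v w p q φ} → NoFix M v w p q ψ

variable {M}

theorem hol_cont [TopologicalSpace Ψ] (c1 : ∀ l, Continuous fun p : Ψ × ℝ => M p.1 l p.2)
    (c2 : ∀ l, Continuous fun p : Ψ × ℝ => (M p.1 l).symm p.2) (w : FreeGroup Λ) :
    Continuous fun p : Ψ × ℝ => hol M p.1 w p.2 := by
  induction w using FreeGroup.induction_on with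
  | C1 => simpa using continuous_snd
  | of l => simpa [hol] using c1 l
  | inv_of l _ =>
    refine (c2 l).congr fun p => ?_
    rw [map_inv, hol, FreeGroup.lift_apply_of]
    rfl
  | mul v w i j =>
    refine (i.comp (continuous_fst.prodMk j)).congr fun p => ?_
    rw [map_mul]
    rfl

theorem generic_residual [TopologicalSpace Ψ] [BaireSpace Ψ] [Countable Λ]
    (c1 : ∀ l, Continuous fun p : Ψ × ℝ => M p.1 l p.2)
    (c2 : ∀ l, Continuous fun p : Ψ × ℝ => (M p.1 l).symm p.2) :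
    ∀ᶠ ψ in residual Ψ, Generic M ψ := by
  have : Countable (FreeGroup Λ) := inferInstanceAs (Countable (Quot _))
  refine (baire_bd (fun i : FreeGroup Λ × FreeGroup Λ × ℚ × ℚ =>
    {φ | NoFix M i.1 i.2.1 i.2.2.1 i.2.2.2 φ}) fun i => ?_).mono
    fun ψ h v w p q => h (v, w, p, q)
  refine isOpen_iff_mem_nhds.2 fun ψ hψ => ?_
  refine isCompact_Icc.eventually_forall_of_forall_eventually
    (P := fun φ s => hol M φ i.1 s = s → hol M φ i.2.1 s ≠ s) fun s hs => ?_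
  by_cases e : hol M ψ i.1 s = s
  · exact mem_of_superset ((isOpen_ne_fun (hol_cont c1 c2 i.2.1) continuous_snd).mem_nhds
      (x := (ψ, s)) (hψ s hs e)) fun p h _ => h
  · exact mem_of_superset ((isOpen_ne_fun (hol_cont c1 c2 i.1) continuous_snd).mem_nhds
      (x := (ψ, s)) e) fun p h k => (h k).elim

theorem exists_generic [TopologicalSpace Ψ] [BaireSpace Ψ] [Countable Λ]
    (c1 : ∀ l, Continuous fun p : Ψ × ℝ => M p.1 l p.2)
    (c2 : ∀ l, Continuous fun p : Ψ × ℝ => (M p.1 l).symm p.2) {U : Set Ψ} (hU : IsOpen U)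
    (hne : U.Nonempty) : ∃ ψ ∈ U, Generic M ψ :=
  let ⟨x, h1, h2⟩ := (dense_of_mem_residual (generic_residual c1 c2)).inter_open_nonempty U hU hne
  ⟨x, h1, h2⟩

variable {X A : Type*} {src tgt : A → X} {lev : X → ℝ} {lab : A → Λ} {ψ : Ψ} {T : Set A}
  {F : Ψ → Prop}

theorem Conn.word (hT : ∀ a ∈ T, M ψ (lab a) (lev (src a)) = lev (tgt a) ∧
      ∀ᶠ s in 𝓝 (lev (src a)), ∀ φ, F φ → M φ (lab a) s = M ψ (lab a) s) {x y : X}
    (h : Conn src tgt T x y) : ∃ w, hol M ψ w (lev x) = lev y ∧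
      ∀ᶠ s in 𝓝 (lev x), ∀ φ, F φ → hol M φ w s = hol M ψ w s := by
  induction h with
  | rel x y h =>
    obtain ⟨a, ha, rfl, rfl⟩ := h
    exact ⟨.of (lab a), by simpa [hol] using hT a ha⟩
  | refl x => exact ⟨1, by simp⟩
  | symm x y _ ih =>
    obtain ⟨w, e, h⟩ := ih
    have e' : (hol M ψ w)⁻¹ (lev y) = lev x := by rw [← e, RelIso.inv_apply_self]
    refine ⟨w⁻¹, by rwa [map_inv], ?_⟩
    rw [← e'] at h
    refine ((OrderIso.continuous (hol M ψ w)⁻¹).continuousAt.eventually h).mono fun s k φ p => ?_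
    have := k φ p
    rw [RelIso.apply_inv_self] at this
    rw [map_inv, map_inv]
    exact (hol M φ w).symm_apply_eq.2 this.symm
  | trans x y z _ _ i j =>
    obtain ⟨v, e, h⟩ := i
    obtain ⟨w, e', h'⟩ := j
    refine ⟨w * v, by rw [map_mul, RelIso.mul_apply, e, e'], ?_⟩
    rw [← e] at h'
    refine (h.and ((OrderIso.continuous (hol M ψ v)).continuousAt.eventually h')).mono
      fun s k φ p => ?_
    rw [map_mul, map_mul, RelIso.mul_apply, RelIso.mul_apply, k.1 φ p, k.2 φ p]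

theorem loop_word (hT : ∀ a ∈ T, M ψ (lab a) (lev (src a)) = lev (tgt a) ∧
      ∀ᶠ s in 𝓝 (lev (src a)), ∀ φ, F φ → M φ (lab a) s = M ψ (lab a) s) {x y : X} {e : A}
    (he : M ψ (lab e) (lev (src e)) = lev (tgt e)) (h1 : Conn src tgt T x (src e))
    (h2 : Conn src tgt T (tgt e) y) (hy : lev y = lev x) {η : ℝ} (hη : 0 < η) :
    ∃ (w : FreeGroup Λ) (u v : ℝ ≃o ℝ) (θ : ℝ), θ ≤ η ∧ hol M ψ w (lev x) = lev x ∧
      ∀ᶠ s in 𝓝 (lev x), u s ∈ Ioo (lev (src e) - θ) (lev (src e) + θ) ∧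
        ∀ φ g, F φ → SuppIn (lev (src e) - θ) (lev (src e) + θ) g →
          (∀ r ∈ Ioo (lev (src e) - η) (lev (src e) + η), M φ (lab e) r = M ψ (lab e) (g r)) →
          hol M φ w s = s → g (u s) = v s := by
  obtain ⟨w1, e1, k1⟩ := h1.word hT
  obtain ⟨w2, e2, k2⟩ := h2.word hT
  rw [← he] at k2
  obtain ⟨θ, θ0, k3⟩ := Metric.eventually_nhds_iff_ball.1
    ((OrderIso.continuous (M ψ (lab e))).continuousAt.eventually k2)
  have m0 : 0 < min θ η := lt_min θ0 hη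
  have m1 := min_le_left θ η
  have m2 := min_le_right θ η
  refine ⟨w2 * .of (lab e) * w1, hol M ψ w1, (hol M ψ w2 * M ψ (lab e))⁻¹, min θ η, m2, ?_, ?_⟩
  · simp only [map_mul, RelIso.mul_apply, e1]
    rw [hol, FreeGroup.lift_apply_of, he]
    exact e2.trans hy
  have k4 : ∀ᶠ r in 𝓝 (hol M ψ w1 (lev x)),
      r ∈ Ioo (lev (src e) - min θ η) (lev (src e) + min θ η) := by
    rw [e1]
    exact Ioo_mem_nhds (by linarith) (by linarith)
  refine (k1.and ((OrderIso.continuous (hol M ψ w1)).continuousAt.eventually k4)).mono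
    fun s k => ⟨k.2, fun φ g p q r t => ?_⟩
  have k5 := q.mem k.2
  simp only [map_mul, RelIso.mul_apply] at t
  rw [k.1 φ p, show hol M φ (.of (lab e)) = M φ (lab e) from FreeGroup.lift_apply_of,
    r _ ⟨by linarith [k.2.1], by linarith [k.2.2]⟩, k3 _ (by
      rw [Real.ball_eq_Ioo]
      exact ⟨by linarith [k5.1], by linarith [k5.2]⟩) φ p] at t
  exact (hol M ψ w2 * M ψ (lab e)).eq_symm_apply.2 t

/-- GENERIC STEP. If all arcs of `Γ` outside `J` can be sheared independently, then at a generic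
structure the labels of closed walks in `Γ` commute. -/
theorem Generic.comm [PseudoMetricSpace Ψ] (hψ : Generic M ψ) {G : Type*} [Group G]
    [MulAction G X] [MulAction G A] (hs : ∀ (g : G) a, src (g • a) = g • src a)
    (ht : ∀ (g : G) a, tgt (g • a) = g • tgt a) (hl : ∀ (g : G) x, lev (g • x) = lev x)
    {Γ J : Set A} (hΓ : ∀ (g : G) a, a ∈ Γ → g • a ∈ Γ) (hJ : ∀ (g : G) a, a ∈ J → g • a ∈ J)
    (hJΓ : J ⊆ Γ) (hJ1 : ∀ (g : G) x, Conn src tgt J x (g • x) → g = 1)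
    (hM : ∀ a ∈ Γ, M ψ (lab a) (lev (src a)) = lev (tgt a))
    (shear : ∃ η > 0, ∀ ε > 0, ∃ δ > 0, ∀ h : A → ℝ ≃o ℝ, (∀ (g : G) a, h (g • a) = h a) →
      (∀ a ∈ J, h a = OrderIso.refl ℝ) →
      (∀ a, SuppIn (lev (src a) - η) (lev (src a) + η) (h a)) → (∀ a z, |h a z - z| ≤ δ) →
      ∃ φ, dist φ ψ ≤ ε ∧ ∀ a ∈ Γ, ∀ s ∈ Ioo (lev (src a) - η) (lev (src a) + η),
        M φ (lab a) s = M ψ (lab a) (h a s))
    {x₀ : X} {g h : G} (hg : Conn src tgt Γ x₀ (g • x₀)) (hh : Conn src tgt Γ x₀ (h • x₀)) :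
    g * h = h * g := by
  classical
  by_contra hne
  obtain ⟨a, ha, b, hb, aJ, bJ, ab, k, l, -, hT⟩ := two_loops hs ht hΓ hJ hJΓ hJ1 hg hh hne
  obtain ⟨η, hη, shear⟩ := shear
  obtain ⟨T, eT⟩ : ∃ T, T = {e | e ∈ Γ ∧ (∀ k : G, k • a ≠ e) ∧ ∀ k : G, k • b ≠ e} := ⟨_, rfl⟩
  obtain ⟨a1, a2, b1, b2⟩ := hT T eT
  have hT' : ∀ e ∈ T, M ψ (lab e) (lev (src e)) = lev (tgt e) ∧ ∀ᶠ s in 𝓝 (lev (src e)),
      ∀ φ, (∀ e ∈ T, ∀ s ∈ Ioo (lev (src e) - η) (lev (src e) + η),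
        M φ (lab e) s = M ψ (lab e) s) → M φ (lab e) s = M ψ (lab e) s := fun e he =>
    ⟨hM e (eT ▸ he).1, mem_of_superset
      (Ioo_mem_nhds (sub_lt_self _ hη) (lt_add_of_pos_right _ hη)) fun s p φ q => q e he s p⟩
  obtain ⟨v, u₁, v₁, θ₁, t1, f1, n1⟩ := loop_word hT' (hM a ha) a1 a2 (hl k x₀) hη
  obtain ⟨w, u₂, v₂, θ₂, t2, f2, n2⟩ := loop_word hT' (hM b hb) b1 b2 (hl l x₀) hη
  obtain ⟨p', q', ⟨x1, x2⟩, n⟩ := mem_nhds_iff_exists_Ioo_subset.1 (n1.and n2)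
  obtain ⟨p, p1, p2⟩ := exists_rat_btwn x1
  obtain ⟨q, q1, q2⟩ := exists_rat_btwn x2
  have n' := fun s (hs : s ∈ Icc (p : ℝ) q) => n ⟨p1.trans_le hs.1, hs.2.trans_lt q2⟩
  refine hψ v w p q (Metric.mem_closure_iff.2 fun ε hε => ?_) _ ⟨p2.le, q1.le⟩ f1 f2
  obtain ⟨δ, hδ, sh⟩ := shear (ε / 2) (half_pos hε)
  obtain ⟨g₁, g₂, s1, s2, d1, d2, gen⟩ := gen_two u₁.continuous.continuousOn
    v₁.continuous.continuousOn u₂.continuous.continuousOn v₂.continuous.continuousOn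
    (u₂.strictMono.strictMonoOn _) (v₂.strictMono.strictMonoOn _) (fun s hs => (n' s hs).1.1)
    (fun s hs => (n' s hs).2.1) hδ
  have orb : ∀ (c : A) (γ : G) e, (∃ k : G, k • c = γ • e) ↔ ∃ k : G, k • c = e := fun c γ e =>
    ⟨fun ⟨k, r⟩ => ⟨γ⁻¹ * k, by rw [mul_smul, r, inv_smul_smul]⟩,
      fun ⟨k, r⟩ => ⟨γ * k, by rw [mul_smul, r]⟩⟩
  have nJ : ∀ c ∉ J, ∀ e ∈ J, ¬ ∃ k : G, k • c = e := fun c hc e he ⟨k, r⟩ =>
    hc (by simpa [← r] using hJ k⁻¹ e he)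
  obtain ⟨φ, d, hφ⟩ := sh (fun e => if ∃ k : G, k • a = e then g₁
      else if ∃ k : G, k • b = e then g₂ else OrderIso.refl ℝ)
    (fun γ e => by simp only [orb]) (fun e he => by rw [if_neg (nJ a aJ e he), if_neg (nJ b bJ e he)])
    (fun e => by
      split_ifs with c d
      · obtain ⟨k, rfl⟩ := c
        rw [hs, hl]
        exact s1.mono (by linarith) (by linarith)
      · obtain ⟨k, rfl⟩ := d
        rw [hs, hl]
        exact s2.mono (by linarith) (by linarith)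
      · exact fun _ _ => rfl)
    (fun e z => by
      split_ifs
      exacts [d1 z, d2 z, by simpa using hδ.le])
  have F : ∀ e ∈ T, ∀ s ∈ Ioo (lev (src e) - η) (lev (src e) + η),
      M φ (lab e) s = M ψ (lab e) s := fun e he s hs => by
    rw [eT] at he
    rw [hφ e he.1 s hs, if_neg (not_exists.2 he.2.1), if_neg (not_exists.2 he.2.2)]
    rfl
  refine ⟨φ, fun s hs e1 e2 => gen s hs ((n' s hs).1.2 φ g₁ F s1 (fun r hr => ?_) e1)
    ((n' s hs).2.2 φ g₂ F s2 (fun r hr => ?_) e2), ?_⟩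
  · rw [hφ a ha r hr, if_pos ⟨1, one_smul _ _⟩]
  · rw [hφ b hb r hr, if_neg (not_exists.2 ab), if_pos ⟨1, one_smul _ _⟩]
  · rw [dist_comm]
    linarith

end Word

end Pool.Agent.Work.MP_3d425c_gt.Gn
end

-- merged part: Pool.Agent.Work.MP_3d425c_gt.Md.Defs
section
/-! Ordered triangulations with a free cocompact group action, and the foliations they carry. -/

namespace Pool.Agent.Work.MP_3d425c_gt.Md
open Set Relation

/-- Vertices `X0`, edges `X1`, triangles `X2`, tetrahedra `X3`, each with ordered vertices;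
`d1 d2 d3` omit the vertex with the given index. -/
structure Tri (G X0 X1 X2 X3 : Type) [Group G] [MulAction G X0] [MulAction G X1] [MulAction G X2]
    [MulAction G X3] where
  d1 : X1 → Fin 2 → X0
  d2 : X2 → Fin 3 → X1
  d3 : X3 → Fin 4 → X2
  e1 : ∀ (g : G) e i, d1 (g • e) i = g • d1 e i
  e2 : ∀ (g : G) f i, d2 (g • f) i = g • d2 f i
  e3 : ∀ (g : G) x i, d3 (g • x) i = g • d3 x i
  s2 : ∀ f (i j : Fin 2), i ≤ j → d1 (d2 f j.succ) i = d1 (d2 f i.castSucc) j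
  s3 : ∀ x (i j : Fin 3), i ≤ j → d2 (d3 x j.succ) i = d2 (d3 x i.castSucc) j
  free : ∀ (g : G) (v : X0), g • v = v → g = 1
  fin : Finite (MulAction.orbitRel.Quotient G X3)
  ne : Nonempty X3
  two : ∀ f, ∃ p q : X3 × Fin 4, p ≠ q ∧ ∀ r : X3 × Fin 4, d3 r.1 r.2 = f ↔ r = p ∨ r = q
  conn : ∀ x y, EqvGen (fun x y => ∃ k l, d3 x k = d3 y l) x y
  link : ∀ p q : X2 × Fin 3, d2 p.1 p.2 = d2 q.1 q.2 → EqvGen (fun p q => ∃ x, ∃ i j : Fin 3,
    i ≤ j ∧ p = (d3 x j.succ, i) ∧ q = (d3 x i.castSucc, j)) p q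
  equ : ∀ f f', d1 (d2 f 2) 0 = d1 (d2 f' 2) 0 → EqvGen (fun f f' => ∃ x,
    (f = d3 x 2 ∧ f' = d3 x 3) ∨ (f = d3 x 0 ∧ f' = d3 x 1)) f f'
  h1 : ∀ z : X1 → ℝ, (∀ f, z (d2 f 1) = z (d2 f 2) + z (d2 f 0)) →
    ∃ s : X0 → ℝ, ∀ e, z e = s (d1 e 0) - s (d1 e 1)

variable {G X0 X1 X2 X3 : Type} [Group G] [MulAction G X0] [MulAction G X1] [MulAction G X2]
  [MulAction G X3] (T : Tri G X0 X1 X2 X3) (φ : X2 → ℝ ≃o ℝ)

/-- Every edge lies on an oriented cycle of the quotient. -/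
def Tri.Cyc : Prop := ∀ e, ∃ g : G,
  ReflTransGen (fun u v => ∃ e', T.d1 e' 1 = u ∧ T.d1 e' 0 = v) (T.d1 e 0) (g • T.d1 e 1)

/-- In a triangle `abc` the leaves match the point `t` of `ac = [0,1]` with the point `2 φ t` of
`ab + bc = [0,2]`; in a tetrahedron `abcd` the two ways from `ad` to `ab + bc + cd` agree. -/
structure Tri.Flat : Prop where
  supp : ∀ f t, t ∉ Ioo (0 : ℝ) 1 → φ f t = t
  flat : ∀ x, ∀ s ∈ Icc (0 : ℝ) 1,
    (if 2 * φ (T.d3 x 2) s ≤ 1 then 2 * φ (T.d3 x 2) s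
      else 1 + 2 * φ (T.d3 x 0) (2 * φ (T.d3 x 2) s - 1)) =
    if 2 * φ (T.d3 x 1) s ≤ 1 then 2 * φ (T.d3 x 3) (2 * φ (T.d3 x 1) s)
      else 2 * φ (T.d3 x 1) s + 1

/-- An invariant foliation carried by the triangulation. -/
def Tri.Fol : Prop := T.Flat φ ∧ ∀ (g : G) f, φ (g • f) = φ f

/-- The level in the tetrahedron `x` (a point of `ad`) of the level `t` of its face `k`. -/
noncomputable def Tri.pos (x : X3) (k : Fin 4) (t : ℝ) : ℝ :=
  ![(φ (T.d3 x 2)).symm ((t + 1) / 2), t, t, (φ (T.d3 x 1)).symm (t / 2)] k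

/-- Two plaques (tetrahedron, level) that meet along an arc of a common face. -/
def Tri.Step (p q : X3 × ℝ) : Prop := ∃ k l, ∃ t ∈ Ioo (0 : ℝ) 1,
  T.d3 p.1 k = T.d3 q.1 l ∧ p.2 = T.pos φ p.1 k t ∧ q.2 = T.pos φ q.1 l t

/-- A leaf meets a tetrahedron in at most one plaque. -/
def Tri.NC : Prop := ∀ x s s', EqvGen (T.Step φ) (x, s) (x, s') → s = s'

end Pool.Agent.Work.MP_3d425c_gt.Md
end

-- merged part: Pool.Agent.Work.MP_3d425c_gt.Md.Int
section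
/-! Internal notions and the statements of the blocks. -/

namespace Pool.Agent.Work.MP_3d425c_gt.Md
open Set Relation Pool.Agent.Work.MP_3d425c_gt.Gn Pool.Agent.Work.MP_3d425c_gt.Cy

/-- orbit space -/
abbrev Ob (G X : Type) [Group G] [MulAction G X] : Type := MulAction.orbitRel.Quotient G X

/-- the orbit of a point -/
def ob (G : Type) {X : Type} [Group G] [MulAction G X] (x : X) : Ob G X := Quotient.mk _ x

/-- an invariant strict total order -/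
def LO (G : Type) [Group G] : Prop :=
  ∃ r : G → G → Prop, IsStrictTotalOrder G r ∧ ∀ a b c, r a b ↔ r (c * a) (c * b)

/-- no real character -/
def NoHom (G : Type) [Group G] : Prop := ∀ χ : G →* Multiplicative ℝ, χ = 1

/-- nodes of the graph of arcs: points of edges, and vertices -/
inductive Nd (X0 X1 : Type) : Type
  | pt : X1 → ℝ → Nd X0 X1
  | vx : X0 → Nd X0 X1

/-- arcs -/
@[ext] structure Ar (X2 : Type) : Type where
  f : X2
  t : ℝ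
  ht : t ∈ Ioo (0 : ℝ) 1

variable {G X0 X1 X2 X3 : Type} [Group G] [MulAction G X0] [MulAction G X1] [MulAction G X2]
  [MulAction G X3]

instance : MulAction G (Nd X0 X1) where
  smul g p := match p with
    | .pt e r => .pt (g • e) r
    | .vx v => .vx (g • v)
  one_smul p := by
    cases p with
    | pt e r => exact congrArg (fun x => Nd.pt x r) (one_smul G e)
    | vx v => exact congrArg Nd.vx (one_smul G v)
  mul_smul g h p := by
    cases p with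
    | pt e r => exact congrArg (fun x => Nd.pt x r) (mul_smul g h e)
    | vx v => exact congrArg Nd.vx (mul_smul g h v)

instance : MulAction G (Ar X2) where
  smul g a := ⟨g • a.f, a.t, a.ht⟩
  one_smul a := Ar.ext (one_smul G a.f) rfl
  mul_smul g h a := Ar.ext (mul_smul g h a.f) rfl

theorem smul_pt (g : G) (e : X1) (r : ℝ) : g • (Nd.pt e r : Nd X0 X1) = .pt (g • e) r := rfl
theorem smul_vx (g : G) (v : X0) : g • (Nd.vx v : Nd X0 X1) = .vx (g • v) := rfl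
theorem smul_f (g : G) (a : Ar X2) : (g • a).f = g • a.f := rfl
theorem smul_t (g : G) (a : Ar X2) : (g • a).t = a.t := rfl

/-- the level of a node -/
def Nd.lev : Nd X0 X1 → ℝ
  | .pt _ r => r
  | .vx _ => 1

variable (T : Tri G X0 X1 X2 X3) (φ : X2 → ℝ ≃o ℝ)

/-- the end of an arc on the long edge -/
def Tri.src (a : Ar X2) : Nd X0 X1 := .pt (T.d2 a.f 1) a.t

/-- the other end of an arc -/
noncomputable def Tri.tgt (a : Ar X2) : Nd X0 X1 :=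
  if 2 * φ a.f a.t < 1 then .pt (T.d2 a.f 2) (2 * φ a.f a.t)
  else if 2 * φ a.f a.t = 1 then .vx (T.d1 (T.d2 a.f 2) 0)
  else .pt (T.d2 a.f 0) (2 * φ a.f a.t - 1)

/-- the arcs over a set of arcs downstairs -/
def ovr (G : Type) [Group G] [MulAction G X2] (Z : Set (Ob G X2 × ℝ)) : Set (Ar X2) :=
  {a | (ob G a.f, a.t) ∈ Z}

/-- same leaf -/
def Tri.Lf : X3 × ℝ → X3 × ℝ → Prop := EqvGen (T.Step φ)

/-- a step across an arc outside `Z` -/
def Tri.StepZ (Z : Set (Ob G X2 × ℝ)) (p q : X3 × ℝ) : Prop := ∃ k l, ∃ t ∈ Ioo (0 : ℝ) 1,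
  (ob G (T.d3 p.1 k), t) ∉ Z ∧
  T.d3 p.1 k = T.d3 q.1 l ∧ p.2 = T.pos φ p.1 k t ∧ q.2 = T.pos φ q.1 l t

/-- infinitely many plaques downstairs are reached from `p` outside `Z` -/
def Tri.InfZ (Z : Set (Ob G X2 × ℝ)) (p : X3 × ℝ) : Prop :=
  {q : Ob G X3 × ℝ | ∃ y, ob G y = q.1 ∧ EqvGen (T.StepZ φ Z) p (y, q.2)}.Infinite

/-- all leaves downstairs are infinite -/
def Tri.Inf : Prop := ∀ x, ∀ s ∈ Ioo (0 : ℝ) 1, T.InfZ φ ∅ (x, s)

/-- stabilisers of leaves are abelian -/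
def Tri.Ab : Prop := ∀ x, ∀ s ∈ Ioo (0 : ℝ) 1, ∀ g h : G,
  T.Lf φ (x, s) (g • x, s) → T.Lf φ (x, s) (h • x, s) → g * h = h * g

/-- `Z` is a finite set of arcs of the leaf of `p` that leaves no finite complementary piece -/
structure Tri.Clear (p : X3 × ℝ) (Z : Set (Ob G X2 × ℝ)) : Prop where
  lev : p.2 ∈ Ioo (0 : ℝ) 1
  fin : Z.Finite
  mem : ∀ z ∈ Z, z.2 ∈ Ioo (0 : ℝ) 1 ∧
    ∃ x k, ob G (T.d3 x k) = z.1 ∧ T.Lf φ p (x, T.pos φ x k z.2)
  inf : ∀ q, T.Lf φ p q → T.InfZ φ Z q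

/-- An invariant integer flow with surplus; `y x k false` (`true`) leaves `x` through the lower
(upper) half of its face `k`. -/
structure Tri.Flw (y : X3 → Fin 4 → Bool → ℤ) : Prop where
  inv : ∀ (g : G) x, y (g • x) = y x
  anti : ∀ x k x' k', (x, k) ≠ (x', k') → T.d3 x k = T.d3 x' k' → ∀ b, y x' k' b = - y x k b
  low : ∀ x, 1 ≤ y x 1 false + y x 2 false + y x 3 false
  mid : ∀ x, 1 ≤ y x 0 false + y x 1 false + y x 2 true + y x 3 true
  high : ∀ x, 1 ≤ y x 0 true + y x 1 true + y x 2 true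

/-- the arcs of `Z` can be sheared freely -/
def Tri.Shear (Z : Set (Ob G X2 × ℝ)) : Prop :=
  ∃ η > 0, ∀ ε > 0, ∃ δ > 0, ∀ h : Ob G X2 × ℝ → ℝ ≃o ℝ,
    (∀ z ∈ Z, SuppIn (z.2 - η) (z.2 + η) (h z) ∧ ∀ t, |h z t - t| ≤ δ) →
    ∃ φ' : X2 → ℝ ≃o ℝ, T.Fol φ' ∧ (∀ f t, |φ' f t - φ f t| ≤ ε) ∧
      ∀ f t₀, (ob G f, t₀) ∈ Z → ∀ t ∈ Ioo (t₀ - η) (t₀ + η), φ' f t = φ f (h (ob G f, t₀) t)

end Pool.Agent.Work.MP_3d425c_gt.Md
end

-- merged part: Pool.Agent.Work.MP_3d425c_gt.Md.Basic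
section
/-! Basic facts about levels. -/

namespace Pool.Agent.Work.MP_3d425c_gt.Md
open Set Relation Pool.Agent.Work.MP_3d425c_gt.Gn Pool.Agent.Work.MP_3d425c_gt.Cy

variable {G X0 X1 X2 X3 : Type} [Group G] [MulAction G X0] [MulAction G X1] [MulAction G X2]
  [MulAction G X3] {T : Tri G X0 X1 X2 X3} {φ : X2 → ℝ ≃o ℝ}

theorem ob_eq_iff {X : Type} [MulAction G X] {x y : X} : ob G x = ob G y ↔ ∃ g : G, g • y = x :=
  Quotient.eq.trans (MulAction.orbitRel_apply.trans MulAction.mem_orbit_iff)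

theorem ob_smul {X : Type} [MulAction G X] (g : G) (x : X) : ob G (g • x) = ob G x :=
  ob_eq_iff.2 ⟨g, rfl⟩

theorem ob_out {X : Type} [MulAction G X] (c : Ob G X) : ob G (Quotient.out c) = c :=
  Quotient.out_eq c

theorem ob_surj {X : Type} [MulAction G X] (c : Ob G X) : ∃ x, ob G x = c := ⟨_, ob_out c⟩

theorem Tri.free1 (T : Tri G X0 X1 X2 X3) (g : G) (e : X1) (h : g • e = e) : g = 1 :=
  T.free g (T.d1 e 0) (by rw [← T.e1, h])

theorem Tri.free2 (T : Tri G X0 X1 X2 X3) (g : G) (f : X2) (h : g • f = f) : g = 1 :=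
  T.free1 g (T.d2 f 0) (by rw [← T.e2, h])

theorem Tri.free3 (T : Tri G X0 X1 X2 X3) (g : G) (x : X3) (h : g • x = x) : g = 1 :=
  T.free2 g (T.d3 x 0) (by rw [← T.e3, h])

theorem Tri.freeNd (T : Tri G X0 X1 X2 X3) (g : G) (p : Nd X0 X1) (h : g • p = p) : g = 1 := by
  cases p with
  | pt e r => exact T.free1 g e (Nd.pt.inj h).1
  | vx v => exact T.free g v (Nd.vx.inj h)

theorem Tri.face_surj (T : Tri G X0 X1 X2 X3) (f : X2) : ∃ x k, T.d3 x k = f :=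
  let ⟨p, _, _, h⟩ := T.two f
  ⟨p.1, p.2, (h p).2 (Or.inl rfl)⟩

/-- the other incidence of a face -/
theorem Tri.other (T : Tri G X0 X1 X2 X3) (x : X3) (k : Fin 4) : ∃ y l, (y, l) ≠ (x, k) ∧
    T.d3 y l = T.d3 x k ∧ ∀ z m, T.d3 z m = T.d3 x k → (z, m) = (x, k) ∨ (z, m) = (y, l) := by
  obtain ⟨p, q, hpq, h⟩ := T.two (T.d3 x k)
  rcases (h (x, k)).1 rfl with e | e
  · exact ⟨q.1, q.2, fun e' => hpq (e.symm.trans e'.symm), (h q).2 (Or.inr rfl),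
      fun z m k' => by rw [e]; exact (h (z, m)).1 k'⟩
  · exact ⟨p.1, p.2, fun e' => hpq (e'.trans e), (h p).2 (Or.inl rfl),
      fun z m k' => by rw [e]; exact ((h (z, m)).1 k').symm⟩

theorem Tri.fin2 (T : Tri G X0 X1 X2 X3) : Finite (Ob G X2) := by
  have := T.fin
  refine Finite.of_surjective
    (fun p : Ob G X3 × Fin 4 => ob G (T.d3 (Quotient.out p.1) p.2)) fun w => ?_
  obtain ⟨f, rfl⟩ := ob_surj w
  obtain ⟨x, k, rfl⟩ := T.face_surj f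
  obtain ⟨g, hg⟩ := ob_eq_iff.1 (ob_out (ob G x))
  refine ⟨(ob G x, k), ?_⟩
  show ob G (T.d3 (Quotient.out (ob G x)) k) = _
  rw [← hg, T.e3, ob_smul]

theorem src_smul (g : G) (a : Ar X2) : T.src (g • a) = g • T.src a := by
  simp only [Tri.src, smul_f, smul_t, T.e2, smul_pt]

theorem Tri.Fol.tgt_smul (hf : T.Fol φ) (g : G) (a : Ar X2) :
    T.tgt φ (g • a) = g • T.tgt φ a := by
  simp only [Tri.tgt, smul_f, smul_t, T.e2, T.e1, hf.2]
  split_ifs <;> rfl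

theorem lev_smul (g : G) (p : Nd X0 X1) : (g • p).lev = p.lev := by cases p <;> rfl

theorem ovr_smul {Z : Set (Ob G X2 × ℝ)} (g : G) (a : Ar X2) (h : a ∈ ovr G Z) :
    g • a ∈ ovr G Z := by
  show (ob G (g • a.f), a.t) ∈ Z
  rwa [ob_smul]

/-- halving -/
noncomputable def hlf : ℝ ≃o ℝ :=
  StrictMono.orderIsoOfSurjective (fun t : ℝ => t / 2) (fun a b h => by dsimp only; linarith)
    fun t => ⟨2 * t, by ring⟩

/-- the shift by one -/
noncomputable def sh : ℝ ≃o ℝ := OrderIso.addRight 1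

theorem hlf_apply (t : ℝ) : hlf t = t / 2 := rfl
theorem sh_apply (t : ℝ) : sh t = t + 1 := rfl

theorem hlf_symm (t : ℝ) : hlf.symm t = 2 * t :=
  hlf.injective (by rw [hlf.apply_symm_apply, hlf_apply]; ring)

theorem sh_symm (t : ℝ) : sh.symm t = t - 1 :=
  sh.injective (by rw [sh.apply_symm_apply, sh_apply]; ring)

/-- the level in the face `f` of a point of its edge `i` -/
noncomputable def emb (φ : X2 → ℝ ≃o ℝ) (f : X2) (i : Fin 3) : ℝ ≃o ℝ :=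
  ![sh.trans (hlf.trans (φ f).symm), OrderIso.refl ℝ, hlf.trans (φ f).symm] i

theorem emb0 (f : X2) (r : ℝ) : emb φ f 0 r = (φ f).symm ((r + 1) / 2) := rfl
theorem emb1 (f : X2) (r : ℝ) : emb φ f 1 r = r := rfl
theorem emb2 (f : X2) (r : ℝ) : emb φ f 2 r = (φ f).symm (r / 2) := rfl

/-- `pos` as an order automorphism -/
noncomputable def Tri.jm (T : Tri G X0 X1 X2 X3) (φ : X2 → ℝ ≃o ℝ) (x : X3) (k : Fin 4) :
    ℝ ≃o ℝ :=
  ![emb φ (T.d3 x 2) 0, OrderIso.refl ℝ, OrderIso.refl ℝ, emb φ (T.d3 x 1) 2] k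

theorem pos0 (x : X3) (t : ℝ) : T.pos φ x 0 t = (φ (T.d3 x 2)).symm ((t + 1) / 2) := rfl
theorem pos1 (x : X3) (t : ℝ) : T.pos φ x 1 t = t := rfl
theorem pos2 (x : X3) (t : ℝ) : T.pos φ x 2 t = t := rfl
theorem pos3 (x : X3) (t : ℝ) : T.pos φ x 3 t = (φ (T.d3 x 1)).symm (t / 2) := rfl

theorem jm_apply (x : X3) (k : Fin 4) (t : ℝ) : T.jm φ x k t = T.pos φ x k t := by
  fin_cases k <;> rfl

theorem pos_mono (x : X3) (k : Fin 4) : StrictMono (T.pos φ x k) := fun a b h => by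
  rw [← jm_apply, ← jm_apply]
  exact (T.jm φ x k).strictMono h

theorem pos_cont (x : X3) (k : Fin 4) : Continuous (T.pos φ x k) :=
  (T.jm φ x k).continuous.congr (jm_apply x k)

theorem Tri.Fol.pos_smul (hf : T.Fol φ) (g : G) (x : X3) (k : Fin 4) (t : ℝ) :
    T.pos φ (g • x) k t = T.pos φ x k t := by
  simp only [Tri.pos, T.e3, hf.2]

theorem Tri.Fol.jm_smul (hf : T.Fol φ) (g : G) (x : X3) (k : Fin 4) :
    T.jm φ (g • x) k = T.jm φ x k :=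
  OrderIso.ext (funext fun t => by rw [jm_apply, jm_apply, hf.pos_smul])

theorem Tri.Fol.emb_smul (hf : T.Fol φ) (g : G) (f : X2) (i : Fin 3) :
    emb φ (g • f) i = emb φ f i := by
  simp only [emb, hf.2]

/-- the level of the middle vertex of a face -/
noncomputable def mark (φ : X2 → ℝ ≃o ℝ) (f : X2) : ℝ := (φ f).symm (1 / 2)

theorem phi_mk (f : X2) : 2 * φ f (mark φ f) = 1 := by
  rw [mark, OrderIso.apply_symm_apply]
  norm_num

theorem lt_mk (f : X2) (t : ℝ) : t < mark φ f ↔ 2 * φ f t < 1 := by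
  rw [mark, OrderIso.lt_symm_apply]
  constructor <;> intro h <;> linarith

theorem mk_lt (f : X2) (t : ℝ) : mark φ f < t ↔ 1 < 2 * φ f t := by
  rw [mark, OrderIso.symm_apply_lt]
  constructor <;> intro h <;> linarith

theorem eq_mk (f : X2) (t : ℝ) : t = mark φ f ↔ 2 * φ f t = 1 := by
  rw [mark, OrderIso.eq_symm_apply]
  constructor <;> intro h <;> linarith

namespace Tri.Flat

theorem sup (h : T.Flat φ) (f : X2) : SuppIn 0 1 (φ f) := h.supp f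

theorem zero (h : T.Flat φ) (f : X2) : φ f 0 = 0 := h.supp f 0 fun k => lt_irrefl _ k.1
theorem one (h : T.Flat φ) (f : X2) : φ f 1 = 1 := h.supp f 1 fun k => lt_irrefl _ k.2
theorem szero (h : T.Flat φ) (f : X2) : (φ f).symm 0 = 0 :=
  (φ f).symm_apply_eq.2 (h.zero f).symm
theorem sone (h : T.Flat φ) (f : X2) : (φ f).symm 1 = 1 := (φ f).symm_apply_eq.2 (h.one f).symm

theorem mem (h : T.Flat φ) (f : X2) {t : ℝ} (ht : t ∈ Ioo (0 : ℝ) 1) : φ f t ∈ Ioo (0 : ℝ) 1 :=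
  (h.sup f).mem ht

theorem smem (h : T.Flat φ) (f : X2) {t : ℝ} (ht : t ∈ Ioo (0 : ℝ) 1) :
    (φ f).symm t ∈ Ioo (0 : ℝ) 1 := (h.sup f).symm.mem ht

theorem smem' (h : T.Flat φ) (f : X2) {t : ℝ} (h0 : 0 ≤ t) (h1 : t ≤ 1) :
    (φ f).symm t ∈ Icc (0 : ℝ) 1 :=
  ⟨h.szero f ▸ (φ f).symm.monotone h0, h.sone f ▸ (φ f).symm.monotone h1⟩

theorem mk_mem (h : T.Flat φ) (f : X2) : mark φ f ∈ Ioo (0 : ℝ) 1 :=
  h.smem f ⟨by norm_num, by norm_num⟩

theorem emb_mem (h : T.Flat φ) (f : X2) (i : Fin 3) {r : ℝ} (hr : r ∈ Ioo (0 : ℝ) 1) :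
    emb φ f i r ∈ Ioo (0 : ℝ) 1 := by
  fin_cases i
  · exact h.smem f (t := (r + 1) / 2) ⟨by linarith [hr.1], by linarith [hr.2]⟩
  · exact hr
  · exact h.smem f (t := r / 2) ⟨by linarith [hr.1], by linarith [hr.2]⟩

theorem pos_mem (h : T.Flat φ) (x : X3) (k : Fin 4) {t : ℝ} (ht : t ∈ Ioo (0 : ℝ) 1) :
    T.pos φ x k t ∈ Ioo (0 : ℝ) 1 := by
  fin_cases k
  · exact h.emb_mem _ 0 ht
  · exact ht
  · exact ht
  · exact h.emb_mem _ 2 ht

theorem cd (h : T.Flat φ) (x : X3) {r : ℝ} (hr : r ∈ Icc (0 : ℝ) 1) :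
    T.pos φ x 1 (emb φ (T.d3 x 1) 0 r) = T.pos φ x 0 (emb φ (T.d3 x 0) 0 r) := by
  rw [pos1, pos0, emb0, emb0]
  have a1 := h.smem' (T.d3 x 0) (t := (r + 1) / 2) (by linarith [hr.1]) (by linarith [hr.2])
  have a2 : 0 < (φ (T.d3 x 0)).symm ((r + 1) / 2) :=
    h.szero (T.d3 x 0) ▸ (φ _).symm.strictMono (by linarith [hr.1])
  have k := h.flat x _ (h.smem' (T.d3 x 2) (t := ((φ (T.d3 x 0)).symm ((r + 1) / 2) + 1) / 2)
    (by linarith [a1.1]) (by linarith [a1.2]))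
  rw [OrderIso.apply_symm_apply, if_neg (by linarith), show 2 * (((φ (T.d3 x 0)).symm
    ((r + 1) / 2) + 1) / 2) - 1 = (φ (T.d3 x 0)).symm ((r + 1) / 2) by ring,
    OrderIso.apply_symm_apply] at k
  rw [OrderIso.symm_apply_eq]
  split_ifs at k with c
  · have a3 := (φ (T.d3 x 3)).monotone c
    rw [h.one] at a3
    have a4 : φ (T.d3 x 3) _ = φ (T.d3 x 3) 1 := le_antisymm ((φ (T.d3 x 3)).monotone c)
      (by rw [h.one]; linarith [hr.1])
    have a5 := (φ (T.d3 x 3)).injective a4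
    linarith [hr.1]
  · linarith

theorem bc (h : T.Flat φ) (x : X3) {r : ℝ} (hr : r ∈ Icc (0 : ℝ) 1) :
    T.pos φ x 3 (emb φ (T.d3 x 3) 0 r) = T.pos φ x 0 (emb φ (T.d3 x 0) 2 r) := by
  rw [pos3, pos0, emb0, emb2]
  have a1 := h.smem' (T.d3 x 3) (t := (r + 1) / 2) (by linarith [hr.1]) (by linarith [hr.2])
  have k := h.flat x _ (h.smem' (T.d3 x 1) (t := (φ (T.d3 x 3)).symm ((r + 1) / 2) / 2)
    (by linarith [a1.1]) (by linarith [a1.2]))
  rw [OrderIso.apply_symm_apply, show 2 * ((φ (T.d3 x 3)).symm ((r + 1) / 2) / 2) =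
    (φ (T.d3 x 3)).symm ((r + 1) / 2) by ring, if_pos a1.2, OrderIso.apply_symm_apply] at k
  rw [OrderIso.eq_symm_apply]
  split_ifs at k with c
  · have a2 : r / 2 = 0 := by linarith [hr.1]
    rw [a2, h.szero]
    linarith
  · have a2 := (φ (T.d3 x 0)).symm_apply_eq.2 (show r / 2 = φ (T.d3 x 0) (2 * φ (T.d3 x 2)
      ((φ (T.d3 x 1)).symm ((φ (T.d3 x 3)).symm ((r + 1) / 2) / 2)) - 1) by linarith)
    linarith

theorem ab (h : T.Flat φ) (x : X3) {r : ℝ} (hr : r ∈ Icc (0 : ℝ) 1) :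
    T.pos φ x 3 (emb φ (T.d3 x 3) 2 r) = T.pos φ x 2 (emb φ (T.d3 x 2) 2 r) := by
  rw [pos3, pos2, emb2, emb2]
  have a1 := h.smem' (T.d3 x 3) (t := r / 2) (by linarith [hr.1]) (by linarith [hr.2])
  have k := h.flat x _ (h.smem' (T.d3 x 1) (t := (φ (T.d3 x 3)).symm (r / 2) / 2)
    (by linarith [a1.1]) (by linarith [a1.2]))
  rw [OrderIso.apply_symm_apply, show 2 * ((φ (T.d3 x 3)).symm (r / 2) / 2) =
    (φ (T.d3 x 3)).symm (r / 2) by ring, if_pos a1.2, OrderIso.apply_symm_apply] at k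
  rw [OrderIso.eq_symm_apply]
  split_ifs at k with c
  · linarith
  · have a2 := (φ (T.d3 x 0)).strictMono (sub_pos.2 (not_le.1 c))
    rw [h.zero] at a2
    linarith [hr.2]

/-- a point of an edge has one level in a tetrahedron -/
theorem compat (h : T.Flat φ) (x : X3) (i j : Fin 3) (hij : i ≤ j) {r : ℝ}
    (hr : r ∈ Icc (0 : ℝ) 1) : T.pos φ x j.succ (emb φ (T.d3 x j.succ) i r) =
      T.pos φ x i.castSucc (emb φ (T.d3 x i.castSucc) j r) := by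
  fin_cases i <;> fin_cases j
  · exact h.cd x hr
  · rfl
  · exact h.bc x hr
  · exact absurd hij (by decide)
  · rfl
  · rfl
  · exact absurd hij (by decide)
  · exact absurd hij (by decide)
  · exact h.ab x hr

/-- the level of the second vertex is `mark φ (T.d3 x 2)` -/
theorem pos3_mk (h : T.Flat φ) (x : X3) : T.pos φ x 3 (mark φ (T.d3 x 3)) = mark φ (T.d3 x 2) :=
  h.ab x (r := 1) ⟨zero_le_one, le_rfl⟩

/-- the level of the third vertex is `mark φ (T.d3 x 1)` -/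
theorem pos0_mk (h : T.Flat φ) (x : X3) : T.pos φ x 0 (mark φ (T.d3 x 0)) = mark φ (T.d3 x 1) := by
  have := h.cd x (r := 0) ⟨le_rfl, zero_le_one⟩
  rw [emb0, emb0, zero_add] at this
  exact this.symm

theorem pos0_zero (x : X3) : T.pos φ x 0 0 = mark φ (T.d3 x 2) := by rw [pos0, zero_add, mark]
theorem pos3_one (x : X3) : T.pos φ x 3 1 = mark φ (T.d3 x 1) := rfl

theorem pos0_one (h : T.Flat φ) (x : X3) : T.pos φ x 0 1 = 1 := by
  rw [pos0, add_self_div_two, h.sone]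

theorem pos3_zero (h : T.Flat φ) (x : X3) : T.pos φ x 3 0 = 0 := by rw [pos3, zero_div, h.szero]

theorem mk_lt_mk (h : T.Flat φ) (x : X3) : mark φ (T.d3 x 2) < mark φ (T.d3 x 1) := by
  rw [← h.pos3_mk, ← pos3_one]
  exact pos_mono x 3 (h.mk_mem _).2

theorem range0 (h : T.Flat φ) (x : X3) (s : ℝ) :
    (∃ t ∈ Ioo (0 : ℝ) 1, T.pos φ x 0 t = s) ↔ s ∈ Ioo (mark φ (T.d3 x 2)) 1 := by
  constructor
  · rintro ⟨t, ht, rfl⟩
    exact ⟨pos0_zero (T := T) (φ := φ) x ▸ pos_mono x 0 ht.1, (h.pos_mem x 0 ht).2⟩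
  · intro hs
    refine ⟨(T.jm φ x 0).symm s, ⟨?_, ?_⟩, by rw [← jm_apply, OrderIso.apply_symm_apply]⟩
    · rw [OrderIso.lt_symm_apply, jm_apply, pos0_zero]
      exact hs.1
    · rw [OrderIso.symm_apply_lt, jm_apply, h.pos0_one]
      exact hs.2

theorem range3 (h : T.Flat φ) (x : X3) (s : ℝ) :
    (∃ t ∈ Ioo (0 : ℝ) 1, T.pos φ x 3 t = s) ↔ s ∈ Ioo 0 (mark φ (T.d3 x 1)) := by
  constructor
  · rintro ⟨t, ht, rfl⟩
    exact ⟨(h.pos_mem x 3 ht).1, pos3_one (T := T) (φ := φ) x ▸ pos_mono x 3 ht.2⟩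
  · intro hs
    refine ⟨(T.jm φ x 3).symm s, ⟨?_, ?_⟩, by rw [← jm_apply, OrderIso.apply_symm_apply]⟩
    · rw [OrderIso.lt_symm_apply, jm_apply, h.pos3_zero]
      exact hs.1
    · rw [OrderIso.symm_apply_lt, jm_apply, pos3_one]
      exact hs.2

end Tri.Flat

theorem Tri.Lf.refl (p : X3 × ℝ) : T.Lf φ p p := EqvGen.refl p
theorem Tri.Lf.symm {p q : X3 × ℝ} (h : T.Lf φ p q) : T.Lf φ q p := EqvGen.symm _ _ h
theorem Tri.Lf.trans {p q r : X3 × ℝ} (h : T.Lf φ p q) (k : T.Lf φ q r) : T.Lf φ p r :=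
  EqvGen.trans _ _ _ h k

theorem Tri.Lf.arc {x y : X3} {k l : Fin 4} (e : T.d3 x k = T.d3 y l) {t : ℝ}
    (ht : t ∈ Ioo (0 : ℝ) 1) : T.Lf φ (x, T.pos φ x k t) (y, T.pos φ y l t) :=
  EqvGen.rel _ _ ⟨k, l, t, ht, e, rfl, rfl⟩

theorem stepZ_empty : T.StepZ φ ∅ = T.Step φ := by
  ext p q
  simp only [Tri.StepZ, Tri.Step, mem_empty_iff_false, not_false_eq_true, true_and]

theorem Tri.StepZ.step {Z : Set (Ob G X2 × ℝ)} {p q : X3 × ℝ} (h : T.StepZ φ Z p q) :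
    T.Step φ p q :=
  let ⟨k, l, t, ht, _, r⟩ := h
  ⟨k, l, t, ht, r⟩

theorem Tri.Fol.stepZ_smul (hf : T.Fol φ) {Z : Set (Ob G X2 × ℝ)} (g : G) {p q : X3 × ℝ}
    (h : EqvGen (T.StepZ φ Z) p q) : EqvGen (T.StepZ φ Z) (g • p.1, p.2) (g • q.1, q.2) := by
  induction h with
  | rel p q h =>
    obtain ⟨k, l, t, ht, hz, e, a, b⟩ := h
    refine EqvGen.rel _ _ ⟨k, l, t, ht, ?_, ?_, ?_, ?_⟩
    · rwa [T.e3, ob_smul]
    · rw [T.e3, T.e3, e]
    · rw [hf.pos_smul]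
      exact a
    · rw [hf.pos_smul]
      exact b
  | refl p => exact EqvGen.refl _
  | symm p q _ ih => exact EqvGen.symm _ _ ih
  | trans p q r _ _ i j => exact EqvGen.trans _ _ _ i j

theorem Tri.Fol.lf_smul (hf : T.Fol φ) (g : G) {p q : X3 × ℝ} (h : T.Lf φ p q) :
    T.Lf φ (g • p.1, p.2) (g • q.1, q.2) := by
  rw [Tri.Lf, ← stepZ_empty] at h ⊢
  exact hf.stepZ_smul g h

theorem Tri.Flat.lf_mem (hf : T.Flat φ) {p q : X3 × ℝ} (h : T.Lf φ p q) :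
    p.2 ∈ Ioo (0 : ℝ) 1 ↔ q.2 ∈ Ioo (0 : ℝ) 1 := by
  induction h with
  | rel p q h =>
    obtain ⟨k, l, t, ht, _, a, b⟩ := h
    exact iff_of_true (a ▸ hf.pos_mem _ _ ht) (b ▸ hf.pos_mem _ _ ht)
  | refl p => rfl
  | symm p q _ ih => exact ih.symm
  | trans p q r _ _ i j => exact i.trans j

/-- all plaques through one point of an edge lie on one leaf -/
theorem Tri.Flat.lf_edge (hf : T.Flat φ) {x y : X3} {k l : Fin 4} {i j : Fin 3}
    (e : T.d2 (T.d3 x k) i = T.d2 (T.d3 y l) j) {r : ℝ} (hr : r ∈ Ioo (0 : ℝ) 1) :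
    T.Lf φ (x, T.pos φ x k (emb φ (T.d3 x k) i r)) (y, T.pos φ y l (emb φ (T.d3 y l) j r)) := by
  have key : ∀ p q : X2 × Fin 3, EqvGen (fun p q => ∃ x, ∃ i j : Fin 3,
      i ≤ j ∧ p = (T.d3 x j.succ, i) ∧ q = (T.d3 x i.castSucc, j)) p q →
      ∀ x k y l, T.d3 x k = p.1 → T.d3 y l = q.1 →
        T.Lf φ (x, T.pos φ x k (emb φ p.1 p.2 r)) (y, T.pos φ y l (emb φ q.1 q.2 r)) := by
    intro p q h
    induction h with
    | rel p q h =>
      obtain ⟨z, i, j, hij, rfl, rfl⟩ := h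
      intro x k y l e1 e2
      refine (Tri.Lf.arc e1 (hf.emb_mem _ _ hr)).trans ?_
      rw [hf.compat z i j hij (Ioo_subset_Icc_self hr)]
      exact (Tri.Lf.arc e2 (hf.emb_mem _ _ hr)).symm
    | refl p => exact fun x k y l e1 e2 => Tri.Lf.arc (e1.trans e2.symm) (hf.emb_mem _ _ hr)
    | symm p q _ ih => exact fun x k y l e1 e2 => (ih y l x k e2 e1).symm
    | trans p q s _ _ i j =>
      intro x k y l e1 e2
      obtain ⟨z, m, e3⟩ := T.face_surj q.1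
      exact (i x k z m e1 e3).trans (j z m y l e3 e2)
  exact key (_, i) (_, j) (T.link (_, i) (_, j) e) x k y l rfl rfl

/-- all plaques through one vertex lie on one leaf -/
theorem Tri.Flat.lf_vertex (hf : T.Flat φ) {x y : X3} {k l : Fin 4}
    (e : T.d1 (T.d2 (T.d3 x k) 2) 0 = T.d1 (T.d2 (T.d3 y l) 2) 0) :
    T.Lf φ (x, T.pos φ x k (mark φ (T.d3 x k))) (y, T.pos φ y l (mark φ (T.d3 y l))) := by
  have key : ∀ f f' : X2, EqvGen (fun f f' => ∃ x,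
      (f = T.d3 x 2 ∧ f' = T.d3 x 3) ∨ (f = T.d3 x 0 ∧ f' = T.d3 x 1)) f f' →
      ∀ x k y l, T.d3 x k = f → T.d3 y l = f' →
        T.Lf φ (x, T.pos φ x k (mark φ f)) (y, T.pos φ y l (mark φ f')) := by
    intro f f' h
    induction h with
    | rel f f' h =>
      intro x k y l e1 e2
      obtain ⟨z, ⟨rfl, rfl⟩ | ⟨rfl, rfl⟩⟩ := h
      · refine (Tri.Lf.arc e1 (hf.mk_mem _)).trans ?_
        rw [pos2, ← hf.pos3_mk]
        exact (Tri.Lf.arc e2 (hf.mk_mem _)).symm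
      · refine (Tri.Lf.arc e1 (hf.mk_mem _)).trans ?_
        rw [hf.pos0_mk]
        exact (Tri.Lf.arc e2 (hf.mk_mem _)).symm
    | refl f => exact fun x k y l e1 e2 => Tri.Lf.arc (e1.trans e2.symm) (hf.mk_mem _)
    | symm f f' _ ih => exact fun x k y l e1 e2 => (ih y l x k e2 e1).symm
    | trans f f' f'' _ _ i j =>
      intro x k y l e1 e2
      obtain ⟨z, m, e3⟩ := T.face_surj f'
      exact (i x k z m e1 e3).trans (j z m y l e3 e2)
  exact key _ _ (T.equ _ _ e) x k y l rfl rfl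

end Pool.Agent.Work.MP_3d425c_gt.Md
end

-- merged part: Pool.Agent.Work.MP_3d425c_gt.Md.ObjUp
section
/-! The side relation of a leaf. -/

namespace Pool.Agent.Work.MP_3d425c_gt.Md
open Set Relation Pool.Agent.Work.MP_3d425c_gt.Gn Pool.Agent.Work.MP_3d425c_gt.Cy

variable {G X0 X1 X2 X3 : Type} [Group G] [MulAction G X0] [MulAction G X1] [MulAction G X2]
  [MulAction G X3] {T : Tri G X0 X1 X2 X3} {φ : X2 → ℝ ≃o ℝ}

open Classical in
/-- indicator of a proposition -/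
noncomputable def upI (P : Prop) : ℝ := if P then 1 else 0

theorem upI_pos {P : Prop} (h : P) : upI P = 1 := if_pos h
theorem upI_neg {P : Prop} (h : ¬ P) : upI P = 0 := if_neg h

/-- indicator that `M` meets `(a, b)` -/
noncomputable def upC (M : Set ℝ) (a b : ℝ) : ℝ := upI (∃ t ∈ Ioo a b, t ∈ M)

theorem upC_split {M : Set ℝ} (hM : M.Subsingleton) {a m b : ℝ} (h1 : a < m) (h2 : m < b) :
    upC M a b = upC M a m + upI (m ∈ M) + upC M m b := by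
  unfold upC
  by_cases h : ∃ t ∈ Ioo a b, t ∈ M
  · obtain ⟨t, ht, htM⟩ := h
    rw [upI_pos ⟨t, ht, htM⟩]
    rcases lt_trichotomy t m with k | rfl | k
    · rw [upI_pos ⟨t, ⟨ht.1, k⟩, htM⟩, upI_neg fun e => k.ne (hM htM e),
        upI_neg fun ⟨u, hu, e⟩ => (k.trans hu.1).ne (hM htM e)]
      norm_num
    · rw [upI_neg fun ⟨u, hu, e⟩ => hu.2.ne (hM e htM), upI_pos htM,
        upI_neg fun ⟨u, hu, e⟩ => hu.1.ne (hM htM e)]
      norm_num
    · rw [upI_neg fun ⟨u, hu, e⟩ => (hu.2.trans k).ne (hM e htM),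
        upI_neg fun e => k.ne (hM e htM), upI_pos ⟨t, ⟨k, ht.2⟩, htM⟩]
      norm_num
  · rw [upI_neg h, upI_neg fun ⟨u, hu, e⟩ => h ⟨u, ⟨hu.1, hu.2.trans h2⟩, e⟩,
      upI_neg fun e => h ⟨m, ⟨h1, h2⟩, e⟩,
      upI_neg fun ⟨u, hu, e⟩ => h ⟨u, ⟨h1.trans hu.1, hu.2⟩, e⟩]
    norm_num

theorem upC_map (j : ℝ ≃o ℝ) (M : Set ℝ) (a b : ℝ) :
    upI (∃ r ∈ Ioo a b, j r ∈ M) = upC M (j a) (j b) := by
  unfold upC
  congr 1
  refine propext ⟨fun ⟨r, hr, e⟩ => ⟨j r, ⟨j.strictMono hr.1, j.strictMono hr.2⟩, e⟩,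
    fun ⟨t, ht, e⟩ => ⟨j.symm t, ⟨?_, ?_⟩, by rwa [j.apply_symm_apply]⟩⟩
  · exact j.lt_symm_apply.2 ht.1
  · exact j.symm_apply_lt.2 ht.2

variable (T φ) in
/-- the levels of the face `f` on the leaf of `p` -/
def upA (p : X3 × ℝ) (f : X2) : Set ℝ :=
  {t | t ∈ Ioo (0 : ℝ) 1 ∧ ∃ x k, T.d3 x k = f ∧ T.Lf φ p (x, T.pos φ x k t)}

variable (T φ) in
/-- the leaf of `p` meets the half open edge `e` -/
noncomputable def upZ (p : X3 × ℝ) (e : X1) : ℝ :=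
  upI (∃ f i, T.d2 f i = e ∧ ∃ r ∈ Ioo (0 : ℝ) 1, emb φ f i r ∈ upA T φ p f) +
    upI (∃ f, T.d1 (T.d2 f 2) 0 = T.d1 e 0 ∧ mark φ f ∈ upA T φ p f)

variable (T φ) in
/-- the height of an arc over the leaf of `p` -/
noncomputable def upH (p : X3 × ℝ) (s : X0 → ℝ) (f : X2) (t : ℝ) : ℝ :=
  s (T.d1 (T.d2 f 1) 1) + upC (upA T φ p f) 0 t

theorem upA_mem {p : X3 × ℝ} (x : X3) (k : Fin 4) {t : ℝ} (ht : t ∈ Ioo (0 : ℝ) 1) :
    t ∈ upA T φ p (T.d3 x k) ↔ T.Lf φ p (x, T.pos φ x k t) :=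
  ⟨fun ⟨_, _, _, e, h⟩ => h.trans (Tri.Lf.arc e ht), fun h => ⟨ht, x, k, rfl, h⟩⟩

theorem upA_sub (hn : T.NC φ) (p : X3 × ℝ) (f : X2) : (upA T φ p f).Subsingleton := by
  obtain ⟨x, k, rfl⟩ := T.face_surj f
  intro t ht t' ht'
  exact (pos_mono x k).injective
    (hn x _ _ (((upA_mem x k ht.1).1 ht).symm.trans ((upA_mem x k ht'.1).1 ht')))

theorem upA_edge (hf : T.Flat φ) (p : X3 × ℝ) (f : X2) (i : Fin 3) :
    upI (∃ f' i', T.d2 f' i' = T.d2 f i ∧ ∃ r ∈ Ioo (0 : ℝ) 1, emb φ f' i' r ∈ upA T φ p f') =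
      upC (upA T φ p f) (emb φ f i 0) (emb φ f i 1) := by
  rw [← upC_map]
  congr 1
  refine propext ⟨?_, fun h => ⟨f, i, rfl, h⟩⟩
  rintro ⟨f', i', e, r, hr, -, y, l, rfl, h⟩
  obtain ⟨x, k, rfl⟩ := T.face_surj f
  exact ⟨r, hr, hf.emb_mem _ _ hr, x, k, rfl, h.trans (hf.lf_edge e hr)⟩

theorem upA_vertex (hf : T.Flat φ) (p : X3 × ℝ) (f : X2) :
    upI (∃ f', T.d1 (T.d2 f' 2) 0 = T.d1 (T.d2 f 2) 0 ∧ mark φ f' ∈ upA T φ p f') =
      upI (mark φ f ∈ upA T φ p f) := by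
  congr 1
  refine propext ⟨?_, fun h => ⟨f, rfl, h⟩⟩
  rintro ⟨f', e, -, y, l, rfl, h⟩
  obtain ⟨x, k, rfl⟩ := T.face_surj f
  exact ⟨hf.mk_mem _, x, k, rfl, h.trans (hf.lf_vertex e)⟩

theorem upZ_low (hf : T.Flat φ) (p : X3 × ℝ) (f : X2) : upZ T φ p (T.d2 f 2) =
    upC (upA T φ p f) 0 (mark φ f) + upI (mark φ f ∈ upA T φ p f) := by
  rw [upZ, upA_edge hf, upA_vertex hf, emb2, emb2, zero_div, hf.szero, mark]

theorem upZ_cocycle (hf : T.Flat φ) (hn : T.NC φ) (p : X3 × ℝ) (f : X2) :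
    upZ T φ p (T.d2 f 1) = upZ T φ p (T.d2 f 2) + upZ T φ p (T.d2 f 0) := by
  have e : T.d1 (T.d2 f 1) 0 = T.d1 (T.d2 f 0) 0 := T.s2 f 0 0 le_rfl
  rw [upZ_low hf, upZ, upZ, upA_edge hf, upA_edge hf, e, emb0, emb0, emb1, emb1, zero_add,
    add_self_div_two, hf.sone, upC_split (upA_sub hn p f) (hf.mk_mem f).1 (hf.mk_mem f).2, mark]
  ring

theorem upH_pos (hf : T.Flat φ) (hn : T.NC φ) {p : X3 × ℝ} {s : X0 → ℝ}
    (hs : ∀ e, upZ T φ p e = s (T.d1 e 0) - s (T.d1 e 1)) (x : X3) (k : Fin 4) {t : ℝ}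
    (ht : t ∈ Ioo (0 : ℝ) 1) :
    upH T φ p s (T.d3 x 2) (T.pos φ x k t) = upH T φ p s (T.d3 x k) t := by
  have key : upC (upA T φ p (T.d3 x k)) 0 t =
      upC (upA T φ p (T.d3 x 2)) (T.pos φ x k 0) (T.pos φ x k t) := by
    rw [← jm_apply, ← jm_apply, ← upC_map, upC]
    congr 1
    refine propext (exists_congr fun r => and_congr_right fun hr => ?_)
    have hr' : r ∈ Ioo (0 : ℝ) 1 := ⟨hr.1, hr.2.trans ht.2⟩
    rw [jm_apply, upA_mem x k hr', upA_mem x 2 (hf.pos_mem x k hr'), pos2]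
  have e1 : T.d2 (T.d3 x 2) 1 = T.d2 (T.d3 x 1) 1 := T.s3 x 1 1 le_rfl
  unfold upH
  rw [key]
  fin_cases k
  · have e2 : T.d2 (T.d3 x 2) 0 = T.d2 (T.d3 x 0) 1 := T.s3 x 0 1 (by decide)
    have e3 : T.d1 (T.d2 (T.d3 x 2) 2) 0 = T.d1 (T.d2 (T.d3 x 2) 0) 1 := T.s2 _ 0 1 (by decide)
    have e4 : T.d1 (T.d2 (T.d3 x 2) 2) 1 = T.d1 (T.d2 (T.d3 x 2) 1) 1 := T.s2 _ 1 1 le_rfl
    have h1 := hs (T.d2 (T.d3 x 2) 2)
    rw [upZ_low hf, e3, e4, e2] at h1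
    have h2 : mark φ (T.d3 x 2) < T.pos φ x 0 t :=
      Tri.Flat.pos0_zero (T := T) (φ := φ) x ▸ pos_mono x 0 ht.1
    show _ + upC _ 0 (T.pos φ x 0 t) = s (T.d1 (T.d2 (T.d3 x 0) 1) 1) +
      upC _ (T.pos φ x 0 0) (T.pos φ x 0 t)
    rw [upC_split (upA_sub hn p _) (hf.mk_mem _).1 h2, Tri.Flat.pos0_zero]
    linarith
  · show _ = s (T.d1 (T.d2 (T.d3 x 1) 1) 1) + _
    rw [e1]
    rfl
  · rfl
  · have e2 : T.d2 (T.d3 x 3) 1 = T.d2 (T.d3 x 1) 2 := T.s3 x 1 2 (by decide)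
    have e3 : T.d1 (T.d2 (T.d3 x 1) 2) 1 = T.d1 (T.d2 (T.d3 x 1) 1) 1 := T.s2 _ 1 1 le_rfl
    show _ + upC _ 0 (T.pos φ x 3 t) = s (T.d1 (T.d2 (T.d3 x 3) 1) 1) +
      upC _ (T.pos φ x 3 0) (T.pos φ x 3 t)
    rw [e2, e3, e1, hf.pos3_zero]

theorem upH_lf (hf : T.Flat φ) (hn : T.NC φ) {p : X3 × ℝ} {s : X0 → ℝ}
    (hs : ∀ e, upZ T φ p e = s (T.d1 e 0) - s (T.d1 e 1)) {q q' : X3 × ℝ} (h : T.Lf φ q q') :
    upH T φ p s (T.d3 q.1 2) q.2 = upH T φ p s (T.d3 q'.1 2) q'.2 := by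
  induction h with
  | rel q q' h =>
    obtain ⟨k, l, t, ht, e, a, b⟩ := h
    rw [a, b, upH_pos hf hn hs _ k ht, upH_pos hf hn hs _ l ht, e]
  | refl q => rfl
  | symm q q' _ ih => exact ih.symm
  | trans q q' q'' _ _ i j => exact i.trans j

theorem upA_lf {p p' : X3 × ℝ} (h : T.Lf φ p p') : upA T φ p = upA T φ p' := by
  ext f t
  exact and_congr_right fun _ => exists_congr fun x => exists_congr fun k =>
    and_congr_right fun _ => ⟨h.symm.trans, h.trans⟩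

theorem upA_smul (hf : T.Fol φ) (g : G) (p : X3 × ℝ) (f : X2) :
    upA T φ (g • p.1, p.2) (g • f) = upA T φ p f := by
  obtain ⟨x, k, rfl⟩ := T.face_surj f
  ext t
  by_cases ht : t ∈ Ioo (0 : ℝ) 1
  · rw [← T.e3, upA_mem _ k ht, upA_mem _ k ht, hf.pos_smul]
    exact ⟨fun h => by simpa using hf.lf_smul g⁻¹ h, fun h => hf.lf_smul g h⟩
  · exact iff_of_false (fun h => ht h.1) fun h => ht h.1

theorem upZ_smul (hf : T.Fol φ) (g : G) (p : X3 × ℝ) (e : X1) :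
    upZ T φ (g • p.1, p.2) (g • e) = upZ T φ p e := by
  unfold upZ
  congr 2
  · refine propext ⟨fun ⟨f, i, a, b⟩ => ⟨g⁻¹ • f, i, by rw [T.e2, a, inv_smul_smul], ?_⟩,
      fun ⟨f, i, a, b⟩ => ⟨g • f, i, by rw [T.e2, a], ?_⟩⟩
    · rwa [← upA_smul hf g, smul_inv_smul, hf.emb_smul]
    · rwa [upA_smul hf g, hf.emb_smul]
  · refine propext ⟨fun ⟨f, a, b⟩ => ⟨g⁻¹ • f, by rw [T.e2, T.e1, a, T.e1, inv_smul_smul], ?_⟩,
      fun ⟨f, a, b⟩ => ⟨g • f, by rw [T.e2, T.e1, a, T.e1], ?_⟩⟩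
    · rwa [← upA_smul hf g, smul_inv_smul, mark, hf.2]
    · rwa [upA_smul hf g, mark, hf.2]

theorem Tri.exists_up (hf : T.Fol φ) (hn : T.NC φ) : ∃ up : X3 × ℝ → X3 × ℝ → Prop,
    (∀ p p' q, T.Lf φ p p' → up p q → up p' q) ∧ (∀ p q q', T.Lf φ q q' → up p q → up p q') ∧
    (∀ x, ∀ s ∈ Ioo (0 : ℝ) 1, ∀ t ∈ Ioo (0 : ℝ) 1, up (x, s) (x, t) ↔ s < t) ∧
    (∀ p x, (∀ t ∈ Ioo (0 : ℝ) 1, ¬ T.Lf φ p (x, t)) →
      ∀ s ∈ Ioo (0 : ℝ) 1, ∀ t ∈ Ioo (0 : ℝ) 1, up p (x, s) → up p (x, t)) ∧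
    ∀ (g : G) p q, up p q → up (g • p.1, p.2) (g • q.1, q.2) := by
  refine ⟨fun p q => ∀ s : X0 → ℝ, (∀ e, upZ T φ p e = s (T.d1 e 0) - s (T.d1 e 1)) →
    upH T φ p s (T.d3 p.1 2) p.2 < upH T φ p s (T.d3 q.1 2) q.2, ?_, ?_, ?_, ?_, ?_⟩
  · intro p p' q h k s hs
    have e : upZ T φ p = upZ T φ p' := by
      funext e
      rw [upZ, upZ, upA_lf h]
    have e' : upH T φ p s = upH T φ p' s := by
      funext f t
      rw [upH, upH, upA_lf h]
    rw [← upH_lf hf.1 hn hs h, ← e']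
    exact k s (e ▸ hs)
  · intro p q q' h k s hs
    rw [← upH_lf hf.1 hn hs h]
    exact k s hs
  · intro x s hs t ht
    have hm : s ∈ upA T φ (x, s) (T.d3 x 2) := (upA_mem x 2 hs).2 (Tri.Lf.refl _)
    have h0 : ∀ u, u ≤ s → upC (upA T φ (x, s) (T.d3 x 2)) 0 u = 0 := fun u hu =>
      upI_neg fun ⟨r, hr, e⟩ => (hr.2.trans_le hu).ne (upA_sub hn _ _ e hm)
    constructor
    · intro h
      obtain ⟨σ, hσ⟩ := T.h1 _ (upZ_cocycle hf.1 hn (x, s))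
      by_contra k
      have := h σ hσ
      simp only [upH, h0 s le_rfl, h0 t (not_lt.1 k), lt_irrefl] at this
    · intro h σ _
      have h1 : upC (upA T φ (x, s) (T.d3 x 2)) 0 t = 1 := upI_pos ⟨s, ⟨hs.1, h⟩, hm⟩
      simp only [upH, h0 s le_rfl, h1]
      linarith
  · intro p x h s _ t _ k σ hσ
    have h0 : ∀ u, upC (upA T φ p (T.d3 x 2)) 0 u = 0 := fun u =>
      upI_neg fun ⟨r, _, e⟩ => h r e.1 ((upA_mem x 2 e.1).1 e)
    have := k σ hσ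
    simp only [upH, h0] at this ⊢
    exact this
  · intro g p q k σ hσ
    have := k (fun v => σ (g • v)) fun e => by
      rw [← upZ_smul hf g, hσ, T.e1, T.e1]
    simpa only [upH, T.e3, upA_smul hf, T.e2, T.e1] using this

end Pool.Agent.Work.MP_3d425c_gt.Md
end

-- merged part: Pool.Agent.Work.MP_3d425c_gt.Ta.Defs
section
/-! Taut carried foliations. -/

namespace Pool.Agent.Work.MP_3d425c_gt.Md
open Set Relation

variable {G X0 X1 X2 X3 : Type} [Group G] [MulAction G X0] [MulAction G X1] [MulAction G X2]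
  [MulAction G X3] (T : Tri G X0 X1 X2 X3) (φ : X2 → ℝ ≃o ℝ)

/-- A positive transversal inside one tetrahedron leads from the leaf of `p` to the leaf of `q`. -/
def Tri.Rise (p q : X3 × ℝ) : Prop :=
  ∃ y t t', t < t' ∧ EqvGen (T.Step φ) p (y, t) ∧ EqvGen (T.Step φ) (y, t') q

/-- From every leaf a positive transversal leads to a translate of the leaf: downstairs every
leaf meets a closed transversal. -/
def Tri.Taut : Prop :=
  ∀ x, ∀ s ∈ Ioo (0 : ℝ) 1, ∃ g : G, TransGen (T.Rise φ) (x, s) (g • x, s)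

end Pool.Agent.Work.MP_3d425c_gt.Md
end
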