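import Pool.Agent.Work.MP_3d425c_gt.Ta.Defs
import Pool.Agent.Work.MP_3d425c_gt.Ht.Prep
import Pool.Agent.Work.MP_3d425c_gt.Bg.End1

-- merged part: Pool.Agent.Work.MP_3d425c_gt.Md.Inf
section
/-! Leaves are infinite. -/

namespace Pool.Agent.Work.MP_3d425c_gt.Md
open Set Relation Pool.Agent.Work.MP_3d425c_gt.Gn Pool.Agent.Work.MP_3d425c_gt.Cy

variable {G X0 X1 X2 X3 : Type} [Group G] [MulAction G X0] [MulAction G X1] [MulAction G X2]
  [MulAction G X3] {T : Tri G X0 X1 X2 X3} {φ : X2 → ℝ ≃o ℝ}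

/-- the level in the face `k` of the level `s` of the tetrahedron `x` -/
noncomputable def Tri.infLev (T : Tri G X0 X1 X2 X3) (φ : X2 → ℝ ≃o ℝ) (x : X3) (k : Fin 4)
    (s : ℝ) : ℝ := ![2 * φ (T.d3 x 2) s - 1, s, s, 2 * φ (T.d3 x 1) s] k

theorem inf_lev_pos (x : X3) (k : Fin 4) (t : ℝ) : T.infLev φ x k (T.pos φ x k t) = t := by
  fin_cases k <;> simp [Tri.infLev, Tri.pos] <;> ring

theorem inf_pos_lev (x : X3) (k : Fin 4) (s : ℝ) : T.pos φ x k (T.infLev φ x k s) = s := by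
  fin_cases k <;> simp [Tri.infLev, Tri.pos]

theorem inf_z (hf : T.Flat φ) (f : X2) : φ f 0 = 0 := hf.supp f 0 (by simp)
theorem inf_o (hf : T.Flat φ) (f : X2) : φ f 1 = 1 := hf.supp f 1 (by simp)

theorem inf_symm_mem (hf : T.Flat φ) (f : X2) {u : ℝ} (h0 : 0 < u) (h1 : u < 1) :
    (φ f).symm u ∈ Ioo (0 : ℝ) 1 :=
  ⟨(φ f).lt_symm_apply.2 (by rwa [inf_z hf]), (φ f).symm_apply_lt.2 (by rwa [inf_o hf])⟩

theorem inf_pos_mem (hf : T.Flat φ) (x : X3) (k : Fin 4) {t : ℝ} (ht : t ∈ Ioo (0 : ℝ) 1) :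
    T.pos φ x k t ∈ Ioo (0 : ℝ) 1 := by
  obtain ⟨h0, h1⟩ := ht
  fin_cases k
  · exact inf_symm_mem hf _ (by linarith) (by linarith)
  · exact ⟨h0, h1⟩
  · exact ⟨h0, h1⟩
  · exact inf_symm_mem hf _ (by linarith) (by linarith)

theorem inf_pos_smul (hf : T.Fol φ) (g : G) (x : X3) (k : Fin 4) (t : ℝ) :
    T.pos φ (g • x) k t = T.pos φ x k t := by
  simp only [Tri.pos, T.e3, hf.2]

theorem inf_lev_smul (hf : T.Fol φ) (g : G) (x : X3) (k : Fin 4) (t : ℝ) :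
    T.infLev φ (g • x) k t = T.infLev φ x k t := by
  simp only [Tri.infLev, T.e3, hf.2]

theorem inf_out (x : X3) : ∃ g : G, (ob G x).out = g • x := by
  obtain ⟨g, hg⟩ : (ob G x).out ∈ MulAction.orbit G x :=
    MulAction.orbitRel_apply.1 (Quotient.exact (Quotient.out_eq (ob G x)))
  exact ⟨g, hg.symm⟩

theorem inf_ob_smul (g : G) (x : X3) : ob G (g • x) = ob G x :=
  Quotient.sound (MulAction.orbitRel_apply.2 ⟨g, rfl⟩)

/-- the other side of a face -/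
theorem inf_oth (T : Tri G X0 X1 X2 X3) : ∃ o : X3 × Fin 4 → X3 × Fin 4, ∀ p, p ≠ o p ∧
    T.d3 p.1 p.2 = T.d3 (o p).1 (o p).2 ∧
    ∀ r : X3 × Fin 4, T.d3 r.1 r.2 = T.d3 p.1 p.2 → r = p ∨ r = o p := by
  have h : ∀ p : X3 × Fin 4, ∃ q : X3 × Fin 4, p ≠ q ∧ T.d3 p.1 p.2 = T.d3 q.1 q.2 ∧
      ∀ r : X3 × Fin 4, T.d3 r.1 r.2 = T.d3 p.1 p.2 → r = p ∨ r = q := by
    intro p
    obtain ⟨a, b, hab, h⟩ := T.two (T.d3 p.1 p.2)
    rcases (h p).1 rfl with rfl | rfl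
    · exact ⟨b, hab, ((h b).2 (Or.inr rfl)).symm, fun r hr => (h r).1 hr⟩
    · exact ⟨a, hab.symm, ((h a).2 (Or.inl rfl)).symm, fun r hr => ((h r).1 hr).symm⟩
  choose o ho using h
  exact ⟨o, ho⟩

open Classical in
/-- the flow out of the plaque `(x, s)`, pushed slightly up, through the face `k` -/
noncomputable def Tri.infC (T : Tri G X0 X1 X2 X3) (φ : X2 → ℝ ≃o ℝ)
    (y : X3 → Fin 4 → Bool → ℤ) (x : X3) (s : ℝ) (k : Fin 4) : ℤ :=
  if T.infLev φ x k s ∈ Ico (0 : ℝ) 1 then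
    y x k (decide (1 ≤ 2 * φ (T.d3 x k) (T.infLev φ x k s))) else 0

theorem inf_sur {y : X3 → Fin 4 → Bool → ℤ} (hy : T.Flw y) (hf : T.Flat φ) (x : X3) {s : ℝ}
    (hs : s ∈ Ico (0 : ℝ) 1) : 1 ≤ ∑ k, T.infC φ y x s k := by
  have hF := hf.flat x s ⟨hs.1, hs.2.le⟩
  have m0 : ∀ f {t : ℝ}, 0 ≤ t → 0 ≤ φ f t := fun f t h => by
    simpa only [inf_z hf] using (φ f).monotone h
  have m1 : ∀ f {t : ℝ}, t < 1 → φ f t < 1 := fun f t h => by
    simpa only [inf_o hf] using (φ f).strictMono h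
  have hu0 := m0 (T.d3 x 2) hs.1
  have hu1 := m1 (T.d3 x 2) hs.2
  have hv0 := m0 (T.d3 x 1) hs.1
  have hv1 := m1 (T.d3 x 1) hs.2
  have e0 : T.infLev φ x 0 s = 2 * φ (T.d3 x 2) s - 1 := rfl
  have e1 : T.infLev φ x 1 s = s := rfl
  have e2 : T.infLev φ x 2 s = s := rfl
  have e3 : T.infLev φ x 3 s = 2 * φ (T.d3 x 1) s := rfl
  rw [Fin.sum_univ_four]
  simp only [Tri.infC, e0, e1, e2, e3, if_pos hs]
  set u := 2 * φ (T.d3 x 2) s with hu
  set v := 2 * φ (T.d3 x 1) s with hv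
  by_cases h1 : u < 1
  · rw [if_pos h1.le] at hF
    have h2 : v ≤ 1 := by
      by_contra h
      rw [if_neg h] at hF
      linarith
    rw [if_pos h2] at hF
    have h3 : v < 1 := by
      refine lt_of_le_of_ne h2 fun h => ?_
      rw [h, inf_o hf] at hF
      linarith
    rw [if_neg (fun h => by linarith [h.1]), if_pos ⟨by linarith, h3⟩,
      decide_eq_false (not_le.2 h3), decide_eq_false (not_le.2 h1),
      decide_eq_false (not_le.2 (hF ▸ h1))]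
    linarith [hy.low x]
  · have h1' : 1 ≤ u := not_lt.1 h1
    have hL : (if u ≤ 1 then u else 1 + 2 * φ (T.d3 x 0) (u - 1)) =
        1 + 2 * φ (T.d3 x 0) (u - 1) := by
      split_ifs with h
      · rw [le_antisymm h h1', sub_self, inf_z hf]; ring
      · rfl
    rw [hL] at hF
    have h5 := m0 (T.d3 x 0) (sub_nonneg.2 h1')
    rw [if_pos (show u - 1 ∈ Ico (0 : ℝ) 1 from ⟨by linarith, by linarith⟩), decide_eq_true h1']
    by_cases h3 : v < 1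
    · rw [if_pos h3.le] at hF
      have h4 := m1 (T.d3 x 3) h3
      rw [if_pos ⟨by linarith, h3⟩, decide_eq_false (not_le.2 h3),
        decide_eq_false (show ¬ 1 ≤ 2 * φ (T.d3 x 0) (u - 1) from not_le.2 (by linarith)),
        decide_eq_true (show 1 ≤ 2 * φ (T.d3 x 3) v by linarith)]
      linarith [hy.mid x]
    · have h3' : 1 ≤ v := not_lt.1 h3
      have hR : (if v ≤ 1 then 2 * φ (T.d3 x 3) v else v + 1) = v + 1 := by
        split_ifs with h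
        · rw [le_antisymm h h3', inf_o hf]; ring
        · rfl
      rw [hR] at hF
      rw [if_neg (fun h => h3 h.2), decide_eq_true h3',
        decide_eq_true (show 1 ≤ 2 * φ (T.d3 x 0) (u - 1) by linarith)]
      linarith [hy.high x]

/-- counting: no finite invariant set of plaques is closed under crossing faces -/
theorem inf_count {y : X3 → Fin 4 → Bool → ℤ} (hy : T.Flw y) (hf : T.Fol φ) (P : X3 → ℝ → Prop)
    (hG : ∀ (g : G) x s, P x s → P (g • x) s) (hI : ∀ x s, P x s → s ∈ Ico (0 : ℝ) 1)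
    (hC : ∀ x k x' k', T.d3 x k = T.d3 x' k' → ∀ t ∈ Ico (0 : ℝ) 1,
      P x (T.pos φ x k t) → P x' (T.pos φ x' k' t))
    (hfin : {q : Ob G X3 × ℝ | P q.1.out q.2}.Finite) (x : X3) (s : ℝ) : ¬ P x s := by
  classical
  intro hx
  obtain ⟨o, ho⟩ := inf_oth T
  have oo : ∀ (g : G) p, o (g • (o p).1, (o p).2) = (g • p.1, p.2) := by
    intro g p
    rcases (ho (g • (o p).1, (o p).2)).2.2 (g • p.1, p.2) (by simp only [T.e3, (ho p).2.1]) with
      h | h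
    · obtain ⟨h1, h2⟩ := Prod.mk.inj h
      exact absurd (Prod.ext (smul_left_cancel g h1) h2) (ho p).1
    · exact h.symm
  set K := hfin.toFinset with hK
  have mK : ∀ q, q ∈ K ↔ P q.1.out q.2 := fun q => by simp [hK]
  let c : (Ob G X3 × ℝ) × Fin 4 → ℤ := fun a => T.infC φ y a.1.1.out a.1.2 a.2
  let J : (Ob G X3 × ℝ) × Fin 4 → (Ob G X3 × ℝ) × Fin 4 := fun a =>
    if T.infLev φ a.1.1.out a.2 a.1.2 ∈ Ico (0 : ℝ) 1 then
      ((ob G (o (a.1.1.out, a.2)).1, T.pos φ (o (a.1.1.out, a.2)).1 (o (a.1.1.out, a.2)).2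
        (T.infLev φ a.1.1.out a.2 a.1.2)), (o (a.1.1.out, a.2)).2) else a
  have h1 : ∀ a, c a + c (J a) = 0 := by
    rintro ⟨⟨q, r⟩, k⟩
    by_cases h : T.infLev φ q.out k r ∈ Ico (0 : ℝ) 1
    · obtain ⟨g, hg⟩ := inf_out (G := G) (o (q.out, k)).1
      have e := (ho (q.out, k)).2.1
      simp only [c, J, if_pos h, hg, Tri.infC, inf_lev_smul hf, inf_lev_pos, hy.inv, T.e3, hf.2,
        hy.anti _ _ _ _ (ho (q.out, k)).1 e, ← e, add_neg_cancel]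
    · simp only [c, J, if_neg h, Tri.infC, add_zero]
  have h0 : ∑ a ∈ K ×ˢ Finset.univ, c a = 0 := by
    refine Finset.sum_involution (fun a _ => J a) (fun a _ => h1 a) (fun a _ ha h => ha ?_)
      ?_ ?_
    · have := h1 a
      rw [h] at this
      omega
    · rintro ⟨⟨q, r⟩, k⟩ ha
      by_cases h : T.infLev φ q.out k r ∈ Ico (0 : ℝ) 1
      · obtain ⟨g, hg⟩ := inf_out (G := G) (o (q.out, k)).1
        simp only [J, if_pos h, Finset.mem_product, Finset.mem_univ, and_true, mK, hg] at ha ⊢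
        exact hG _ _ _ (hC _ _ _ _ (ho (q.out, k)).2.1 _ h (by rwa [inf_pos_lev]))
      · simpa only [J, if_neg h] using ha
    · rintro ⟨⟨q, r⟩, k⟩ -
      by_cases h : T.infLev φ q.out k r ∈ Ico (0 : ℝ) 1
      · obtain ⟨g, hg⟩ := inf_out (G := G) (o (q.out, k)).1
        simp only [J, if_pos h, hg, inf_lev_smul hf, inf_lev_pos, oo, inf_ob_smul,
          inf_pos_smul hf, inf_pos_lev]
        rw [show ob G q.out = q from Quotient.out_eq q]
      · simp only [J, if_neg h]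
  rw [Finset.sum_product] at h0
  obtain ⟨g, hg⟩ := inf_out (G := G) x
  refine (Finset.sum_pos (fun q hq => ?_) ⟨(ob G x, s), (mK _).2 (hg ▸ hG g x s hx)⟩).ne' h0
  exact lt_of_lt_of_le one_pos (inf_sur hy hf.1 q.1.out (hI _ _ ((mK q).1 hq)))

theorem inf_b (hf : T.Flat φ) (x : X3) : T.pos φ x 2 ((φ (T.d3 x 2)).symm (1 / 2)) =
    T.pos φ x 3 ((φ (T.d3 x 3)).symm (1 / 2)) := by
  have hm := inf_symm_mem hf (T.d3 x 2) (u := 1 / 2) (by norm_num) (by norm_num)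
  have hF := hf.flat x _ (Ioo_subset_Icc_self hm)
  rw [OrderIso.apply_symm_apply, if_pos (by norm_num)] at hF
  show (φ (T.d3 x 2)).symm (1 / 2) = (φ (T.d3 x 1)).symm ((φ (T.d3 x 3)).symm (1 / 2) / 2)
  rw [OrderIso.eq_symm_apply, eq_div_iff two_ne_zero, OrderIso.eq_symm_apply, mul_comm]
  split_ifs at hF with h <;> linarith

theorem inf_c (hf : T.Flat φ) (x : X3) : T.pos φ x 0 ((φ (T.d3 x 0)).symm (1 / 2)) =
    T.pos φ x 1 ((φ (T.d3 x 1)).symm (1 / 2)) := by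
  have hm := inf_symm_mem hf (T.d3 x 1) (u := 1 / 2) (by norm_num) (by norm_num)
  have hF := hf.flat x _ (Ioo_subset_Icc_self hm)
  rw [OrderIso.apply_symm_apply, if_pos (show 2 * (1 / 2 : ℝ) ≤ 1 by norm_num),
    show 2 * (1 / 2 : ℝ) = 1 by norm_num, inf_o hf] at hF
  show (φ (T.d3 x 2)).symm (((φ (T.d3 x 0)).symm (1 / 2) + 1) / 2) = (φ (T.d3 x 1)).symm (1 / 2)
  rw [OrderIso.symm_apply_eq, div_eq_iff two_ne_zero, ← eq_sub_iff_add_eq,
    OrderIso.symm_apply_eq, mul_comm]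
  split_ifs at hF with h <;> linarith

theorem Tri.inf {y : X3 → Fin 4 → Bool → ℤ} (hy : T.Flw y) (hf : T.Fol φ) : T.Inf φ := by
  intro x₀ s₀ hs₀ hfin
  -- the saturated leaf
  let L : X3 → ℝ → Prop := fun x s => ∃ g : G, EqvGen (T.StepZ φ ∅) (x₀, s₀) (g • x, s)
  have LG : ∀ (g : G) x s, L x s → L (g • x) s := fun g x s ⟨h, hh⟩ =>
    ⟨h * g⁻¹, by rwa [mul_smul, inv_smul_smul]⟩
  have LI : ∀ x s, L x s → s ∈ Ioo (0 : ℝ) 1 := by
    have : ∀ p q, EqvGen (T.StepZ φ ∅) p q → (p.2 ∈ Ioo (0 : ℝ) 1 ↔ q.2 ∈ Ioo (0 : ℝ) 1) := by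
      intro p q h
      induction h with
      | rel p q h =>
        obtain ⟨k, l, t, ht, -, -, e1, e2⟩ := h
        exact iff_of_true (e1 ▸ inf_pos_mem hf.1 _ _ ht) (e2 ▸ inf_pos_mem hf.1 _ _ ht)
      | refl => rfl
      | symm _ _ _ ih => exact ih.symm
      | trans _ _ _ _ _ i1 i2 => exact i1.trans i2
    exact fun x s ⟨g, h⟩ => (this _ _ h).1 hs₀
  have LC : ∀ x k x' k', T.d3 x k = T.d3 x' k' → ∀ t ∈ Ioo (0 : ℝ) 1,
      L x (T.pos φ x k t) → L x' (T.pos φ x' k' t) := fun x k x' k' e t ht ⟨g, h⟩ =>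
    ⟨g, .trans _ _ _ h (.rel _ _ ⟨k, k', t, ht, notMem_empty _, by simp only [T.e3, e],
      (inf_pos_smul hf g x k t).symm, (inf_pos_smul hf g x' k' t).symm⟩)⟩
  -- marked arcs and vertices on the leaf
  let M : X2 → Prop := fun f => ∃ x k, T.d3 x k = f ∧ L x (T.pos φ x k ((φ f).symm (1 / 2)))
  have hM : ∀ x k, M (T.d3 x k) ↔ L x (T.pos φ x k ((φ (T.d3 x k)).symm (1 / 2))) :=
    fun x k => ⟨fun ⟨x', k', e, h⟩ => LC _ _ _ _ e _
      (inf_symm_mem hf.1 _ (by norm_num) (by norm_num)) h, fun h => ⟨x, k, rfl, h⟩⟩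
  have hE : ∀ f f', T.d1 (T.d2 f 2) 0 = T.d1 (T.d2 f' 2) 0 → (M f ↔ M f') := by
    intro f f' e
    have h := T.equ f f' e
    clear e
    induction h with
    | rel f f' h =>
      obtain ⟨x, ⟨rfl, rfl⟩ | ⟨rfl, rfl⟩⟩ := h
      · rw [hM, hM, inf_b hf.1]
      · rw [hM, hM, inf_c hf.1]
    | refl => rfl
    | symm _ _ _ ih => exact ih.symm
    | trans _ _ _ _ _ i1 i2 => exact i1.trans i2
  let On : X0 → Prop := fun v => ∃ f, T.d1 (T.d2 f 2) 0 = v ∧ M f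
  let P : X3 → ℝ → Prop := fun x s => L x s ∨ (s = 0 ∧ On (T.d1 (T.d2 (T.d3 x 3) 2) 1))
  have h0 : ∀ x k, P x (T.pos φ x k 0) ↔ On (T.d1 (T.d2 (T.d3 x k) 2) 1) := by
    intro x k
    have hz : P x 0 ↔ On (T.d1 (T.d2 (T.d3 x 3) 2) 1) :=
      ⟨fun h => h.elim (fun h => absurd (LI _ _ h).1 (lt_irrefl _)) fun h => h.2,
        fun h => Or.inr ⟨rfl, h⟩⟩
    have a1 : T.d2 (T.d3 x 3) 2 = T.d2 (T.d3 x 2) 2 := T.s3 x 2 2 le_rfl
    have a2 : T.d2 (T.d3 x 3) 1 = T.d2 (T.d3 x 1) 2 := T.s3 x 1 2 (by decide)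
    have a3 : T.d2 (T.d3 x 3) 0 = T.d2 (T.d3 x 0) 2 := T.s3 x 0 2 (by decide)
    have a4 : T.d1 (T.d2 (T.d3 x 3) 2) 1 = T.d1 (T.d2 (T.d3 x 3) 1) 1 := T.s2 _ 1 1 le_rfl
    have a5 : T.d1 (T.d2 (T.d3 x 3) 2) 0 = T.d1 (T.d2 (T.d3 x 3) 0) 1 := T.s2 _ 0 1 (by decide)
    fin_cases k
    · have e : T.pos φ x 0 0 = T.pos φ x 2 ((φ (T.d3 x 2)).symm (1 / 2)) := by
        show (φ (T.d3 x 2)).symm ((0 + 1) / 2) = (φ (T.d3 x 2)).symm (1 / 2)
        rw [zero_add]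
      show P x (T.pos φ x 0 0) ↔ On (T.d1 (T.d2 (T.d3 x 0) 2) 1)
      rw [e, ← a3, ← a5, a1]
      refine ⟨fun h => h.elim (fun h => ⟨_, rfl, (hM x 2).2 h⟩) fun h => ?_,
        fun ⟨f, e, h⟩ => Or.inl ((hM x 2).1 ((hE _ _ e).1 h))⟩
      exact absurd h.1 (inf_symm_mem hf.1 (T.d3 x 2) (by norm_num) (by norm_num)).1.ne'
    · show P x 0 ↔ On (T.d1 (T.d2 (T.d3 x 1) 2) 1)
      rw [hz, a4, a2]
    · show P x 0 ↔ On (T.d1 (T.d2 (T.d3 x 2) 2) 1)
      rw [hz, a1]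
    · have e : T.pos φ x 3 0 = 0 := by
        show (φ (T.d3 x 1)).symm (0 / 2) = 0
        rw [zero_div, OrderIso.symm_apply_eq, inf_z hf.1]
      show P x (T.pos φ x 3 0) ↔ On (T.d1 (T.d2 (T.d3 x 3) 2) 1)
      rw [e, hz]
  refine inf_count hy hf P ?_ ?_ ?_ ?_ x₀ s₀ (Or.inl ⟨1, by rw [one_smul]; exact .refl _⟩)
  · rintro g x s (h | ⟨rfl, f, e, x', k, rfl, h⟩)
    · exact Or.inl (LG g x s h)
    · refine Or.inr ⟨rfl, T.d3 (g • x') k, by simp only [T.e3, T.e2, T.e1, e], g • x', k, rfl, ?_⟩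
      rw [inf_pos_smul hf, T.e3, hf.2]
      exact LG g _ _ h
  · rintro x s (h | ⟨rfl, -⟩)
    · exact Ioo_subset_Ico_self (LI x s h)
    · exact ⟨le_rfl, one_pos⟩
  · intro x k x' k' e t ht h
    rcases ht.1.eq_or_lt with rfl | h1
    · rw [h0] at h ⊢
      rwa [← e]
    · rcases h with h | h
      · exact Or.inl (LC _ _ _ _ e t ⟨h1, ht.2⟩ h)
      · exact absurd h.1 (inf_pos_mem hf.1 x k ⟨h1, ht.2⟩).1.ne'
  · have := T.fin
    refine (hfin.union (finite_univ.prod (finite_singleton (0 : ℝ)))).subset ?_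
    rintro ⟨q, s⟩ (⟨g, h⟩ | h)
    · exact Or.inl ⟨g • q.out, (inf_ob_smul g _).trans (Quotient.out_eq q), h⟩
    · exact Or.inr ⟨mem_univ _, h.1⟩

end Pool.Agent.Work.MP_3d425c_gt.Md
end

-- merged part: Pool.Agent.Work.MP_3d425c_gt.Br.Up
section
/-!
The shear lemma for a free action with finitely many orbits of cells with four sides.
-/

namespace Pool.Agent.Work.MP_3d425c_gt.Br

open Set MulAction Pool.Agent.Work.MP_3d425c_gt.Gn Pool.Agent.Work.MP_3d425c_gt.Ht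

/-- Cells `K` with four sides in `A`; `j k i` carries levels of the side to levels of the cell. -/
structure Up (G A K : Type) [Group G] [MulAction G A] [MulAction G K] where
  d : K → Fin 4 → A
  j : K → Fin 4 → Au
  d_smul : ∀ (g : G) k i, d (g • k) i = g • d k i
  j_smul : ∀ (g : G) k i, j (g • k) i = j k i
  free : ∀ (g : G) (a : A), g • a = a → g = 1
  fin : Finite (orbitRel.Quotient G K)
  two : ∀ a, ∃ p q : K × Fin 4, p ≠ q ∧ ∀ z : K × Fin 4, d z.1 z.2 = a ↔ z = p ∨ z = q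
  in01 : ∀ k i, ∀ t ∈ Ioo (0 : ℝ) 1, j k i t ∈ Ioo (0 : ℝ) 1

variable {G A K : Type} [Group G] [MulAction G A] [MulAction G K]

/-- the orbit of a node -/
def nd (G : Type) [Group G] [MulAction G K] (u : K × ℝ) : orbitRel.Quotient G K × ℝ :=
  (Quotient.mk _ u.1, u.2)

theorem mk_smul (g : G) (k : K) :
    (Quotient.mk (orbitRel G K) (g • k)) = Quotient.mk (orbitRel G K) k :=
  Quotient.sound ⟨g, rfl⟩

theorem mk_eq {k k' : K} (h : Quotient.mk (orbitRel G K) k = Quotient.mk (orbitRel G K) k') :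
    ∃ g : G, g • k' = k := Quotient.exact h

namespace Up
variable (X : Up G A K)

/-- Two nodes (cell, level) joined through a common side at a level outside `Z`. -/
def Adj (Z : Set (A × ℝ)) (u v : K × ℝ) : Prop :=
  ∃ i i' t, t ∈ Ioo (0 : ℝ) 1 ∧ (u.1, i) ≠ (v.1, i') ∧ X.d u.1 i = X.d v.1 i' ∧
    (X.d u.1 i, t) ∉ Z ∧ u.2 = X.j u.1 i t ∧ v.2 = X.j v.1 i' t

/-- the change `H` seen in the cell `k` -/
def fc (H : A → Au) (k : K) (i : Fin 4) : Au := X.j k i * H (X.d k i) * (X.j k i)⁻¹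

/-- lower and upper part of a side with mark `m` -/
def zn (m : ℝ) (b : Bool) : Set ℝ := if b = true then Ioo m 1 else Ioo 0 m

open Classical in
/-- An invariant integer flow through the lower and upper parts of the sides, with surplus. -/
structure IFlow (m : A → ℝ) (y : K → Fin 4 → Bool → ℤ) : Prop where
  m_smul : ∀ (g : G) a, m (g • a) = m a
  m_mem : ∀ a, m a ∈ Ioo (0 : ℝ) 1
  y_smul : ∀ (g : G) k i b, y (g • k) i b = y k i b
  anti : ∀ k i k' i' b, (k, i) ≠ (k', i') → X.d k i = X.d k' i' → y k' i' b = -y k i b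
  sur : ∀ k, ∀ s ∈ Ioo (0 : ℝ) 1, (∀ i, s ≠ X.j k i 0 ∧ s ≠ X.j k i (m (X.d k i)) ∧ s ≠ X.j k i 1) →
    0 < ∑ i, ∑ b, if (X.j k i).symm s ∈ zn (m (X.d k i)) b then y k i b else 0

noncomputable def inc (z : orbitRel.Quotient G A × Bool) : K × Fin 4 :=
  if z.2 = true then (X.two z.1.out).choose_spec.choose else (X.two z.1.out).choose

theorem inc_iff (w : orbitRel.Quotient G A) (z : K × Fin 4) :
    X.d z.1 z.2 = w.out ↔ ∃ b, X.inc (w, b) = z := by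
  rw [(X.two w.out).choose_spec.choose_spec.2]
  constructor
  · rintro (h | h)
    · exact ⟨false, h.symm⟩
    · exact ⟨true, h.symm⟩
  · rintro ⟨b, h⟩
    cases b
    · exact .inl h.symm
    · exact .inr h.symm

theorem inc_d (z : orbitRel.Quotient G A × Bool) : X.d (X.inc z).1 (X.inc z).2 = z.1.out :=
  (X.inc_iff z.1 _).2 ⟨z.2, rfl⟩

theorem inc_ne (w : orbitRel.Quotient G A) (b : Bool) : X.inc (w, b) ≠ X.inc (w, !b) := by
  have h := (X.two w.out).choose_spec.choose_spec.1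
  cases b
  · exact h
  · exact h.symm

theorem inc_inj {w : orbitRel.Quotient G A} {b b' : Bool} (h : X.inc (w, b) = X.inc (w, b')) :
    b = b' := by
  by_contra hn
  have : b' = !b := by
    cases b <;> cases b' <;> simp_all
  exact X.inc_ne w b (this ▸ h)

noncomputable def ph (z : orbitRel.Quotient G A × Bool) : orbitRel.Quotient G K × Fin 4 :=
  (Quotient.mk _ (X.inc z).1, (X.inc z).2)

theorem exists_inc (k : K) (i : Fin 4) :
    ∃ (b : Bool) (g : G), X.inc (Quotient.mk _ (X.d k i), b) = (g • k, i) := by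
  obtain ⟨g, hg⟩ := mk_eq (G := G) (Quotient.out_eq (Quotient.mk (orbitRel G A) (X.d k i)))
  obtain ⟨b, hb⟩ := (X.inc_iff (Quotient.mk _ (X.d k i)) (g • k, i)).1
    ((X.d_smul g k i).trans hg)
  exact ⟨b, g, hb⟩

theorem ph_bij : Function.Bijective X.ph := by
  constructor
  · rintro ⟨w, b⟩ ⟨w', b'⟩ h
    obtain ⟨g, hg⟩ := mk_eq (G := G) (congrArg Prod.fst h)
    have h2 : (X.inc (w, b)).2 = (X.inc (w', b')).2 := (Prod.ext_iff.1 h).2
    have h3 : w.out = g • w'.out := by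
      rw [← X.inc_d (w, b), ← X.inc_d (w', b'), ← X.d_smul, hg, h2]
    obtain rfl : w = w' := by
      rw [← Quotient.out_eq w, h3, mk_smul, Quotient.out_eq]
    rw [X.free g _ h3.symm, one_smul] at hg
    rw [X.inc_inj (Prod.ext hg.symm h2)]
  · rintro ⟨c, i⟩
    obtain ⟨b, g, h⟩ := X.exists_inc c.out i
    refine ⟨(Quotient.mk _ (X.d c.out i), b), ?_⟩
    unfold ph
    rw [h, mk_smul, Quotient.out_eq]

noncomputable def pe : orbitRel.Quotient G A × Bool ≃ orbitRel.Quotient G K × Fin 4 :=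
  Equiv.ofBijective _ X.ph_bij

include X in
theorem finA : Finite (orbitRel.Quotient G A) :=
  have := X.fin
  Finite.of_injective (fun w => X.pe (w, true)) fun _ _ h => congrArg Prod.fst (X.pe.injective h)

/-- the quotient system -/
noncomputable def cx : Cx (orbitRel.Quotient G A) (orbitRel.Quotient G K) where
  cell z := Quotient.mk _ (X.inc z).1
  j z := X.j (X.inc z).1 (X.inc z).2
  sg z := decide ((X.inc z).2 = 0 ∨ (X.inc z).2 = 2)
  L c := ([0, 2, 1, 3] : List (Fin 4)).map fun i => X.pe.symm (c, i)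
  nodup c := List.Nodup.map (fun _ _ h => congrArg Prod.snd (X.pe.symm.injective h)) (by decide)
  mem c z := by
    rw [List.mem_map]
    constructor
    · rintro ⟨i, -, rfl⟩
      exact congrArg Prod.fst (X.pe.apply_symm_apply (c, i))
    · rintro rfl
      exact ⟨(X.inc z).2, by generalize (X.inc z).2 = i; revert i; decide,
        X.pe.symm_apply_apply z⟩

theorem pe_symm (k : K) (i : Fin 4) : ∃ g : G, X.inc (X.pe.symm (Quotient.mk _ k, i)) = (g • k, i) ∧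
    (X.pe.symm (Quotient.mk _ k, i)).1 = Quotient.mk _ (X.d k i) := by
  obtain ⟨b, g, h⟩ := X.exists_inc k i
  have e : X.pe.symm (Quotient.mk _ k, i) = (Quotient.mk _ (X.d k i), b) := by
    rw [Equiv.symm_apply_eq]
    show _ = X.ph _
    unfold ph
    rw [h, mk_smul]
  exact ⟨g, e ▸ h, e ▸ rfl⟩

theorem flat_up {H : orbitRel.Quotient G A → Au} (h : X.cx.Flat H) (k : K) :
    X.fc (fun a => H (Quotient.mk _ a)) k 0 * X.fc (fun a => H (Quotient.mk _ a)) k 2 =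
      X.fc (fun a => H (Quotient.mk _ a)) k 3 * X.fc (fun a => H (Quotient.mk _ a)) k 1 := by
  have e : ∀ i, fac X.cx.j X.cx.sg H (X.pe.symm (Quotient.mk _ k, i)) =
      sp (decide (i = 0 ∨ i = 2)) (X.fc (fun a => H (Quotient.mk _ a)) k i) := by
    intro i
    obtain ⟨g, h1, h2⟩ := X.pe_symm k i
    simp only [fac, cx, fc, h1, h2, X.j_smul]
  have h1 := h (Quotient.mk _ k)
  simp only [cx, List.map_cons, List.map_nil, List.prod_cons, List.prod_nil] at h1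
  have e' := e
  simp only [cx] at e'
  rw [e', e', e', e'] at h1
  simp only [sp, Fin.reduceEq, or_false, false_or, or_self, decide_true, decide_false, if_true,
    Bool.false_eq_true, if_false, mul_one] at h1
  rw [← mul_assoc, ← mul_inv_rev, mul_inv_eq_one] at h1
  exact h1

/-- the orbits of a set of arcs -/
def zd (G : Type) [Group G] [MulAction G A] (Z : Set (A × ℝ)) :
    Set (orbitRel.Quotient G A × ℝ) := {z | (z.1.out, z.2) ∈ Z}

theorem mem_zd {Z : Set (A × ℝ)} (hZ : ∀ (g : G) a t, (a, t) ∈ Z → (g • a, t) ∈ Z) {a : A}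
    {t : ℝ} : (Quotient.mk (orbitRel G A) a, t) ∈ zd G Z ↔ (a, t) ∈ Z := by
  obtain ⟨g, hg⟩ := mk_eq (G := G) (Quotient.out_eq (Quotient.mk (orbitRel G A) a))
  show (_, t) ∈ Z ↔ _
  rw [← hg]
  exact ⟨fun h => by simpa using hZ g⁻¹ _ _ h, hZ g _ _⟩

theorem adj_down {Z : Set (A × ℝ)} (hZ : ∀ (g : G) a t, (a, t) ∈ Z → (g • a, t) ∈ Z)
    {u v : K × ℝ} (h : X.Adj Z u v) : X.cx.Adj (zd G Z) (nd G u) (nd G v) := by
  obtain ⟨i, i', t, ht, hne, hd, hz, h1, h2⟩ := h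
  obtain ⟨b, g, hb⟩ := X.exists_inc u.1 i
  have h3 : X.d (g • v.1, i').1 (g • v.1, i').2 = (Quotient.mk (orbitRel G A) (X.d u.1 i)).out := by
    rw [← X.inc_d (_, b), hb, X.d_smul, X.d_smul, hd]
  obtain ⟨b', hb'⟩ := (X.inc_iff _ _).1 h3
  obtain rfl : b' = !b := by
    by_contra hn
    obtain rfl : b' = b := by
      cases b <;> cases b' <;> simp_all
    rw [hb, Prod.mk.injEq, smul_left_cancel_iff] at hb'
    exact hne (Prod.ext hb'.1 hb'.2)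
  refine ⟨_, t, b, ht, fun hh => hz ((mem_zd hZ).1 hh), ?_, ?_⟩
  · simp only [cx, hb, X.j_smul, mk_smul, nd, h1]
  · simp only [cx, hb', X.j_smul, mk_smul, nd, h2]

theorem adj_up {u : K × ℝ} {v' : orbitRel.Quotient G K × ℝ} (h : X.cx.Adj ∅ (nd G u) v') :
    ∃ v, X.Adj ∅ u v ∧ nd G v = v' := by
  obtain ⟨w, t, b, ht, -, h1, rfl⟩ := h
  obtain ⟨g, hg⟩ := mk_eq (G := G) (congrArg Prod.fst h1)
  have h2 : u.2 = X.j (X.inc (w, b)).1 (X.inc (w, b)).2 t := congrArg Prod.snd h1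
  refine ⟨(g • (X.inc (w, !b)).1, X.cx.j (w, !b) t), ⟨(X.inc (w, b)).2, (X.inc (w, !b)).2, t, ht,
    fun e => X.inc_ne w b ?_, ?_, fun e => e, ?_, ?_⟩, ?_⟩
  · rw [← hg, Prod.mk.injEq, smul_left_cancel_iff] at e
    exact Prod.ext e.1 e.2
  · rw [← hg, X.d_smul, X.d_smul, X.inc_d, X.inc_d]
  · rw [← hg, X.j_smul]
    exact h2
  · rw [X.j_smul]
    rfl
  · simp only [nd, mk_smul, cx]

theorem rt_down {Z : Set (A × ℝ)} (hZ : ∀ (g : G) a t, (a, t) ∈ Z → (g • a, t) ∈ Z)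
    {u v : K × ℝ} (h : Relation.ReflTransGen (X.Adj Z) u v) :
    Relation.ReflTransGen (X.cx.Adj (zd G Z)) (nd G u) (nd G v) :=
  h.lift (nd G) fun _ _ => X.adj_down hZ

theorem rt_up {u : K × ℝ} {v' : orbitRel.Quotient G K × ℝ}
    (h : Relation.ReflTransGen (X.cx.Adj ∅) (nd G u) v') :
    ∃ v, Relation.ReflTransGen (X.Adj ∅) u v ∧ nd G v = v' := by
  induction h with
  | refl => exact ⟨u, .refl, rfl⟩
  | tail _ h ih =>
    obtain ⟨v, h1, rfl⟩ := ih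
    obtain ⟨v₂, h2, h3⟩ := X.adj_up h
    exact ⟨v₂, h1.tail h2, h3⟩

theorem card_sig {ι : Type} [Fintype ι] (n : ι → ℕ) (P : ι → Prop) [DecidablePred P] :
    {σ : Σ i, Fin (n i) | P σ.1}.ncard = ∑ i, if P i then n i else 0 := by
  have e : {σ : Σ i, Fin (n i) | P σ.1} =
      ((Finset.univ.filter P).sigma fun i => (Finset.univ : Finset (Fin (n i))) : Finset _) := by
    ext σ
    simp
  rw [e, ncard_coe_finset, Finset.card_sigma, Finset.sum_filter]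
  simp

theorem loc_ioo (f : Au) {a b s s' : ℝ} (h : s ≤ s') (ha : f a ∉ Icc s s') (hb : f b ∉ Icc s s') :
    f.symm s ∈ Ioo a b ↔ f.symm s' ∈ Ioo a b := by
  simp only [mem_Ioo, f.lt_symm_apply, f.symm_apply_lt, mem_Icc, not_and, not_le] at *
  constructor
  · rintro ⟨h1, h2⟩
    exact ⟨h1.trans_le h, hb h2.le⟩
  · rintro ⟨h1, h2⟩
    exact ⟨lt_of_not_ge fun k => absurd (ha k) h1.not_gt, h.trans_lt h2⟩

theorem sum_cell [Fintype (orbitRel.Quotient G A)] (k : K)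
    [DecidableEq (orbitRel.Quotient G K)] (f : orbitRel.Quotient G A × Bool → ℤ) :
    (∑ z, if X.cx.cell z = Quotient.mk _ k then f z else 0) =
      ∑ i, f (X.pe.symm (Quotient.mk _ k, i)) := by
  have := X.fin
  have := Fintype.ofFinite (orbitRel.Quotient G K)
  have e : ∀ c i, X.cx.cell (X.pe.symm (c, i)) = c := fun c i =>
    congrArg Prod.fst (X.pe.apply_symm_apply (c, i))
  rw [← X.pe.symm.sum_comp, Fintype.sum_prod_type, Finset.sum_eq_single (Quotient.mk _ k)]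
  · simp [e]
  · intro c _ hc
    simp [e, hc]
  · simp

theorem flow {m : A → ℝ} {y : K → Fin 4 → Bool → ℤ} (h : X.IFlow m y) :
    ∃ (S : Type) (_ : Finite S), Nonempty (Flow X.cx S) := by
  classical
  have := X.finA
  have := Fintype.ofFinite (orbitRel.Quotient G A)
  let Y : (orbitRel.Quotient G A × Bool) × Bool → ℤ := fun p => y (X.inc p.1).1 (X.inc p.1).2 p.2
  let D : Finset ℝ := Finset.univ.biUnion fun z : orbitRel.Quotient G A × Bool =>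
    {X.cx.j z 0, X.cx.j z (m z.1.out), X.cx.j z 1}
  have hD : ∀ z, X.cx.j z 0 ∈ D ∧ X.cx.j z (m z.1.out) ∈ D ∧ X.cx.j z 1 ∈ D := fun z =>
    ⟨Finset.mem_biUnion.2 ⟨z, Finset.mem_univ _, by simp⟩,
      Finset.mem_biUnion.2 ⟨z, Finset.mem_univ _, by simp⟩,
      Finset.mem_biUnion.2 ⟨z, Finset.mem_univ _, by simp⟩⟩
  refine ⟨Σ p, Fin (Y p).toNat, inferInstance, ⟨⟨fun σ => σ.1.1.1, fun σ => σ.1.1.2,
    fun σ => zn (m σ.1.1.1.out) σ.1.2, fun _ => D, ?_, ?_, ?_⟩⟩⟩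
  · rintro ⟨⟨⟨w, b⟩, b'⟩, n⟩ t ht
    have := h.m_mem w.out
    cases b'
    · exact ⟨ht.1, ht.2.trans this.2⟩
    · exact ⟨this.1.trans ht.1, ht.2⟩
  · rintro ⟨⟨⟨w, b⟩, b'⟩, n⟩ e s s' hs hd
    obtain ⟨d1, d2, d3⟩ := hD (w, e)
    cases b'
    · exact loc_ioo _ hs (hd _ d1) (hd _ d2)
    · exact loc_ioo _ hs (hd _ d2) (hd _ d3)
  · intro c s hs hsD
    obtain ⟨k, rfl⟩ := Quotient.exists_rep c
    have e1 := card_sig (fun p => (Y p).toNat) fun p => X.cx.cell (p.1.1, !p.1.2) =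
      Quotient.mk _ k ∧ (X.cx.j (p.1.1, !p.1.2)).symm s ∈ zn (m p.1.1.out) p.2
    have e2 := card_sig (fun p => (Y p).toNat) fun p => X.cx.cell (p.1.1, p.1.2) =
      Quotient.mk _ k ∧ (X.cx.j (p.1.1, p.1.2)).symm s ∈ zn (m p.1.1.out) p.2
    refine e1.trans_lt (lt_of_lt_of_eq ?_ e2.symm)
    let fl : (orbitRel.Quotient G A × Bool) × Bool ≃ (orbitRel.Quotient G A × Bool) × Bool :=
      Function.Involutive.toPerm (fun p => ((p.1.1, !p.1.2), p.2)) fun p => by simp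
    have hY : ∀ p, Y (fl p) = -Y p := fun p =>
      h.anti _ _ _ _ _ (X.inc_ne p.1.1 p.1.2) ((X.inc_d (p.1.1, p.1.2)).trans (X.inc_d (p.1.1, !p.1.2)).symm)
    rw [← fl.sum_comp, ← Int.ofNat_lt, ← sub_pos]
    push_cast
    rw [← Finset.sum_sub_distrib]
    have e3 : ∀ p : (orbitRel.Quotient G A × Bool) × Bool,
        ((if X.cx.cell (p.1.1, p.1.2) = Quotient.mk _ k ∧
          (X.cx.j (p.1.1, p.1.2)).symm s ∈ zn (m p.1.1.out) p.2 then ((Y p).toNat : ℤ) else 0) -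
        if X.cx.cell ((fl p).1.1, !(fl p).1.2) = Quotient.mk _ k ∧
          (X.cx.j ((fl p).1.1, !(fl p).1.2)).symm s ∈ zn (m (fl p).1.1.out) (fl p).2 then
          ((Y (fl p)).toNat : ℤ) else 0) = if X.cx.cell p.1 = Quotient.mk _ k then
          (if (X.cx.j p.1).symm s ∈ zn (m p.1.1.out) p.2 then Y p else 0) else 0 := by
      intro p
      have e4 : ((fl p).1.1, !(fl p).1.2) = p.1 := Prod.ext rfl (Bool.not_not _)
      have e5 : (fl p).1.1 = p.1.1 := rfl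
      have e6 : (fl p).2 = p.2 := rfl
      rw [e4, hY, e5, e6]
      by_cases h1 : X.cx.cell p.1 = Quotient.mk _ k <;>
        by_cases h2 : (X.cx.j p.1).symm s ∈ zn (m p.1.1.out) p.2 <;> simp [h1, h2]
    rw [Finset.sum_congr rfl fun p _ => e3 p, Fintype.sum_prod_type]
    simp only [Finset.sum_ite_irrel, Finset.sum_const_zero]
    rw [X.sum_cell k]
    have e7 : ∀ i, X.cx.j (X.pe.symm (Quotient.mk _ k, i)) = X.j k i ∧
        m (X.pe.symm (Quotient.mk _ k, i)).1.out = m (X.d k i) ∧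
        ∀ b, Y (X.pe.symm (Quotient.mk _ k, i), b) = y k i b := by
      intro i
      obtain ⟨g, h1, -⟩ := X.pe_symm k i
      refine ⟨by simp only [cx, h1, X.j_smul], ?_, fun b => by simp only [Y, h1, h.y_smul]⟩
      rw [← X.inc_d, h1, X.d_smul, h.m_smul]
    refine (h.sur k s hs fun i => ?_).trans_eq (Finset.sum_congr rfl fun i _ => ?_)
    · obtain ⟨d1, d2, d3⟩ := hD (X.pe.symm (Quotient.mk _ k, i))
      rw [(e7 i).1] at d1 d2 d3
      rw [(e7 i).2.1] at d2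
      exact ⟨fun e => hsD (e ▸ d1), fun e => hsD (e ▸ d2), fun e => hsD (e ▸ d3)⟩
    · simp only [(e7 i).1, (e7 i).2.1, (e7 i).2.2]

/-- The shear lemma for invariant data, from a flow on the quotient system. -/
theorem shear_fl (hS : S_shear) (hy : ∃ (S : Type) (_ : Finite S), Nonempty (Flow X.cx S))
    (Z : Set (A × ℝ)) (hZ : ∀ (g : G) a t, (a, t) ∈ Z → (g • a, t) ∈ Z)
    (hf : ∃ Z₀ : Set (A × ℝ), Z₀.Finite ∧ ∀ z ∈ Z, ∃ g : G, (g • z.1, z.2) ∈ Z₀)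
    (h01 : ∀ z ∈ Z, z.2 ∈ Ioo (0 : ℝ) 1) (u₀ : K × ℝ) (hu : u₀.2 ∈ Ioo (0 : ℝ) 1)
    (hl : ∀ z ∈ Z, ∃ (g : G) (k : K) (i : Fin 4), X.d k i = g • z.1 ∧
      Relation.ReflTransGen (X.Adj ∅) u₀ (k, X.j k i z.2))
    (hi : ∀ u, Relation.ReflTransGen (X.Adj ∅) u₀ u →
      (nd G '' {v | Relation.ReflTransGen (X.Adj Z) u v}).Infinite) :
    ∃ η > 0, ∀ ε > 0, ∃ δ > 0, ∀ h : A × ℝ → Au, (∀ (g : G) a t, h (g • a, t) = h (a, t)) →
      (∀ z ∈ Z, SuppIn (z.2 - η) (z.2 + η) (h z) ∧ ∀ t, |h z t - t| ≤ δ) →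
      ∃ H : A → Au, (∀ (g : G) a, H (g • a) = H a) ∧ (∀ a, SuppIn 0 1 (H a)) ∧
        (∀ a t, |H a t - t| ≤ ε) ∧ (∀ k, X.fc H k 0 * X.fc H k 2 = X.fc H k 3 * X.fc H k 1) ∧
        ∀ z ∈ Z, ∀ t ∈ Ioo (z.2 - η) (z.2 + η), H z.1 t = h z t := by
  have := X.finA
  have := X.fin
  obtain ⟨S, _, hF⟩ := hy
  obtain ⟨Z₀, hZ₀, hc⟩ := hf
  have e0 : zd G (∅ : Set (A × ℝ)) = ∅ := rfl
  obtain ⟨η, hη, H1⟩ := hS _ _ S X.cx (fun z => X.in01 _ _) hF (zd G Z)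
    ((hZ₀.image (nd G)).subset fun z hz => by
      obtain ⟨g, hg⟩ := hc _ hz
      exact ⟨_, hg, by simp only [nd, mk_smul, Quotient.out_eq]⟩)
    (fun z hz => h01 _ hz) (nd G u₀) hu
    (fun z hz => by
      obtain ⟨g, k, i, h1, h2⟩ := hl _ hz
      obtain ⟨b, g', hb⟩ := X.exists_inc k i
      have h3 : Quotient.mk (orbitRel G A) (X.d k i) = z.1 := by
        rw [h1, mk_smul, Quotient.out_eq]
      rw [h3] at hb
      have h4 := X.rt_down (Z := ∅) (fun _ _ _ e => e) h2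
      have h5 : nd G (k, X.j k i z.2) = (X.cx.cell (z.1, b), X.cx.j (z.1, b) z.2) := by
        simp only [cx, hb, X.j_smul, mk_smul, nd]
      rw [e0, h5] at h4
      cases b
      · exact h4
      · exact h4.tail ⟨z.1, z.2, true, h01 _ hz, fun e => e, rfl, rfl⟩)
    (fun u' hu' => by
      obtain ⟨u, h1, rfl⟩ := X.rt_up hu'
      refine (hi u h1).mono ?_
      rintro _ ⟨v, hv, rfl⟩
      exact X.rt_down hZ hv)
  refine ⟨η, hη, fun ε hε => ?_⟩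
  obtain ⟨δ, hδ, H2⟩ := H1 ε hε
  refine ⟨δ, hδ, fun h hh hs => ?_⟩
  obtain ⟨H, a1, a2, a3, a4⟩ := H2 (fun z => h (z.1.out, z.2)) fun z hz => hs _ hz
  refine ⟨fun a => H (Quotient.mk _ a), fun g a => congrArg H (mk_smul g a), fun a => a1 _,
    fun a t => a2 _ t, X.flat_up a3, fun z hz t ht => ?_⟩
  obtain ⟨g, hg⟩ := mk_eq (G := G) (Quotient.out_eq (Quotient.mk (orbitRel G A) z.1))
  have := a4 (Quotient.mk _ z.1, z.2) ((mem_zd hZ).2 hz) t ht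
  simp only [← hg, hh] at this
  exact this

/-- The shear lemma for invariant data. -/
theorem shear_up (hS : S_shear) {m : A → ℝ} {y : K → Fin 4 → Bool → ℤ} (hy : X.IFlow m y)
    (Z : Set (A × ℝ)) (hZ : ∀ (g : G) a t, (a, t) ∈ Z → (g • a, t) ∈ Z)
    (hf : ∃ Z₀ : Set (A × ℝ), Z₀.Finite ∧ ∀ z ∈ Z, ∃ g : G, (g • z.1, z.2) ∈ Z₀)
    (h01 : ∀ z ∈ Z, z.2 ∈ Ioo (0 : ℝ) 1) (u₀ : K × ℝ) (hu : u₀.2 ∈ Ioo (0 : ℝ) 1)
    (hl : ∀ z ∈ Z, ∃ (g : G) (k : K) (i : Fin 4), X.d k i = g • z.1 ∧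
      Relation.ReflTransGen (X.Adj ∅) u₀ (k, X.j k i z.2))
    (hi : ∀ u, Relation.ReflTransGen (X.Adj ∅) u₀ u →
      (nd G '' {v | Relation.ReflTransGen (X.Adj Z) u v}).Infinite) :
    ∃ η > 0, ∀ ε > 0, ∃ δ > 0, ∀ h : A × ℝ → Au, (∀ (g : G) a t, h (g • a, t) = h (a, t)) →
      (∀ z ∈ Z, SuppIn (z.2 - η) (z.2 + η) (h z) ∧ ∀ t, |h z t - t| ≤ δ) →
      ∃ H : A → Au, (∀ (g : G) a, H (g • a) = H a) ∧ (∀ a, SuppIn 0 1 (H a)) ∧
        (∀ a t, |H a t - t| ≤ ε) ∧ (∀ k, X.fc H k 0 * X.fc H k 2 = X.fc H k 3 * X.fc H k 1) ∧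
        ∀ z ∈ Z, ∀ t ∈ Ioo (z.2 - η) (z.2 + η), H z.1 t = h z t :=
  X.shear_fl hS (X.flow hy) Z hZ hf h01 u₀ hu hl hi

end Up

end Pool.Agent.Work.MP_3d425c_gt.Br
end

-- merged part: Pool.Agent.Work.MP_3d425c_gt.Md.Shear
section
/-! The shear lemma upstairs. -/

namespace Pool.Agent.Work.MP_3d425c_gt.Md
open Set Relation Pool.Agent.Work.MP_3d425c_gt.Gn Pool.Agent.Work.MP_3d425c_gt.Cy

variable {G X0 X1 X2 X3 : Type} [Group G] [MulAction G X0] [MulAction G X1] [MulAction G X2]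
  [MulAction G X3] {T : Tri G X0 X1 X2 X3} {φ : X2 → ℝ ≃o ℝ}

/-- the map `t ↦ (t + c) / 2` -/
noncomputable def shAff (c : ℝ) : ℝ ≃o ℝ where
  toFun t := (t + c) / 2
  invFun s := 2 * s - c
  left_inv t := by ring
  right_inv s := by ring
  map_rel_iff' {a b} := by
    change (a + c) / 2 ≤ (b + c) / 2 ↔ a ≤ b
    constructor <;> intro h <;> linarith

/-- the level maps of the four faces -/
noncomputable def shJ (T : Tri G X0 X1 X2 X3) (φ : X2 → ℝ ≃o ℝ) (x : X3) : Fin 4 → ℝ ≃o ℝ :=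
  ![(shAff 1).trans (φ (T.d3 x 2)).symm, 1, 1, (shAff 0).trans (φ (T.d3 x 1)).symm]

theorem shJ_pos (x : X3) (k : Fin 4) (t : ℝ) : shJ T φ x k t = T.pos φ x k t := by
  fin_cases k
  · rfl
  · rfl
  · rfl
  · exact congrArg (fun r => (φ (T.d3 x 1)).symm (r / 2)) (add_zero t)

theorem sh_icc {h : ℝ ≃o ℝ} (k : SuppIn 0 1 h) {a b z : ℝ} (ha : a ≤ 0) (hb : 1 ≤ b)
    (hz : z ∈ Icc a b) : h z ∈ Icc a b :=
  ⟨(k a fun p => p.1.not_ge ha).ge.trans (h.monotone hz.1),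
    (h.monotone hz.2).trans (k b fun p => p.2.not_ge hb).le⟩

/-- the cell system of a foliation -/
noncomputable def shUp (hf : T.Fol φ) : Br.Up G X2 X3 where
  d := T.d3
  j := shJ T φ
  d_smul := T.e3
  j_smul g x i := by simp only [shJ, T.e3, hf.2]
  free g f h := T.free g (T.d1 (T.d2 f 0) 0) (by rw [← T.e1, ← T.e2, h])
  fin := T.fin
  two := T.two
  in01 x i t ht := by
    fin_cases i
    · exact SuppIn.mem (SuppIn.symm (hf.1.supp _)) (z := (t + 1) / 2)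
        ⟨by linarith [ht.1], by linarith [ht.2]⟩
    · exact ht
    · exact ht
    · exact SuppIn.mem (SuppIn.symm (hf.1.supp _)) (z := (t + 0) / 2)
        ⟨by linarith [ht.1], by linarith [ht.2]⟩

theorem sh_mark (hf : T.Flat φ) (f : X2) : (φ f).symm (1 / 2) ∈ Ioo (0 : ℝ) 1 :=
  SuppIn.mem (SuppIn.symm (hf.supp f)) ⟨by norm_num, by norm_num⟩

theorem sh_b (hf : T.Flat φ) (x : X3) : 2 * φ (T.d3 x 1) ((φ (T.d3 x 2)).symm (1 / 2)) =
    (φ (T.d3 x 3)).symm (1 / 2) := by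
  have h := hf.flat x _ (Ioo_subset_Icc_self (sh_mark hf (T.d3 x 2)))
  rw [OrderIso.apply_symm_apply, if_pos (by norm_num)] at h
  rw [OrderIso.eq_symm_apply]
  split_ifs at h <;> linarith

theorem sh_c (hf : T.Flat φ) (x : X3) : 2 * φ (T.d3 x 2) ((φ (T.d3 x 1)).symm (1 / 2)) - 1 =
    (φ (T.d3 x 0)).symm (1 / 2) := by
  have h := hf.flat x _ (Ioo_subset_Icc_self (sh_mark hf (T.d3 x 1)))
  have e : 2 * (1 / 2 : ℝ) = 1 := by norm_num
  rw [OrderIso.apply_symm_apply, e, if_pos le_rfl, hf.supp _ 1 fun p => p.2.false] at h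
  rw [OrderIso.eq_symm_apply]
  split_ifs at h <;> linarith

theorem sh_flow {y : X3 → Fin 4 → Bool → ℤ} (hy : T.Flw y) (hf : T.Fol φ) :
    (shUp hf).IFlow (fun f => (φ f).symm (1 / 2)) y where
  m_smul g f := by rw [hf.2]
  m_mem := sh_mark hf.1
  y_smul g x i b := by rw [hy.inv]
  anti x i x' i' b h1 h2 := hy.anti x i x' i' h1 h2 b
  sur x s hs hn := by
    have hb := sh_b hf.1 x
    have hc := sh_c hf.1 x
    have m0 := sh_mark hf.1 (T.d3 x 0)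
    have m3 := sh_mark hf.1 (T.d3 x 3)
    have nb : s ≠ (φ (T.d3 x 2)).symm (1 / 2) := (hn 2).2.1
    have nc : s ≠ (φ (T.d3 x 1)).symm (1 / 2) := (hn 1).2.1
    have u1 := SuppIn.mem (hf.1.supp (T.d3 x 1)) hs
    have u2 := SuppIn.mem (hf.1.supp (T.d3 x 2)) hs
    have e0 : ((shUp hf).j x 0).symm s = 2 * φ (T.d3 x 2) s - 1 := rfl
    have e1 : ((shUp hf).j x 1).symm s = s := rfl
    have e2 : ((shUp hf).j x 2).symm s = s := rfl
    have e3 : ((shUp hf).j x 3).symm s = 2 * φ (T.d3 x 1) s - 0 := rfl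
    have ed : (shUp hf).d = T.d3 := rfl
    have b1 := (φ (T.d3 x 1)).apply_symm_apply (1 / 2)
    have b2 := (φ (T.d3 x 2)).apply_symm_apply (1 / 2)
    simp only [Fin.sum_univ_four, Fintype.sum_bool, e0, e1, e2, e3, ed, Br.Up.zn, if_true,
      Bool.false_eq_true, if_false, mem_Ioo, sub_zero]
    generalize (φ (T.d3 x 2)).symm (1 / 2) = b at *
    generalize (φ (T.d3 x 1)).symm (1 / 2) = c at *
    generalize (φ (T.d3 x 0)).symm (1 / 2) = r0 at *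
    generalize (φ (T.d3 x 3)).symm (1 / 2) = r3 at *
    have bc : b < c := (φ (T.d3 x 1)).lt_iff_lt.1 (by linarith [m3.2])
    rcases nb.lt_or_gt with h1 | h1
    · have k1 := (φ (T.d3 x 1)).strictMono h1
      have k2 := (φ (T.d3 x 2)).strictMono h1
      rw [if_neg fun p => by linarith [p.1, m0.1], if_neg fun p => by linarith [p.1],
        if_neg fun p => by linarith [p.1], if_pos ⟨hs.1, by linarith⟩,
        if_neg fun p => by linarith [p.1], if_pos ⟨hs.1, h1⟩,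
        if_neg fun p => by linarith [p.1], if_pos ⟨by linarith [u1.1], by linarith⟩]
      linarith [hy.low x]
    have k1 := (φ (T.d3 x 1)).strictMono h1
    have k2 := (φ (T.d3 x 2)).strictMono h1
    rcases nc.lt_or_gt with h2 | h2
    · have k3 := (φ (T.d3 x 1)).strictMono h2
      have k4 := (φ (T.d3 x 2)).strictMono h2
      rw [if_neg fun p => by linarith [p.1], if_pos ⟨by linarith, by linarith⟩,
        if_neg fun p => by linarith [p.1], if_pos ⟨hs.1, h2⟩,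
        if_pos ⟨h1, hs.2⟩, if_neg fun p => by linarith [p.2],
        if_pos ⟨by linarith, by linarith⟩, if_neg fun p => by linarith [p.2]]
      linarith [hy.mid x]
    · have k3 := (φ (T.d3 x 1)).strictMono h2
      have k4 := (φ (T.d3 x 2)).strictMono h2
      rw [if_pos ⟨by linarith, by linarith [u2.2]⟩, if_neg fun p => by linarith [p.2],
        if_pos ⟨h2, hs.2⟩, if_neg fun p => by linarith [p.2],
        if_pos ⟨h1, hs.2⟩, if_neg fun p => by linarith [p.2],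
        if_neg fun p => by linarith [p.2], if_neg fun p => by linarith [p.2, m3.2]]
      linarith [hy.high x]

theorem sh_rt (hf : T.Fol φ) {Z : Set (Ob G X2 × ℝ)} {p q : X3 × ℝ}
    (h : EqvGen (T.StepZ φ Z) p q) :
    ReflTransGen ((shUp hf).Adj {z | (ob G z.1, z.2) ∈ Z}) p q := by
  induction h with
  | rel p q h =>
    obtain ⟨k, l, t, ht, hz, h1, h2, h3⟩ := h
    by_cases e : (p.1, k) = (q.1, l)
    · obtain ⟨e1, rfl⟩ := Prod.mk.inj e
      rw [show p = q from Prod.ext e1 (by rw [h2, h3, e1])]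
    · exact .single ⟨k, l, t, ht, e, h1, hz, h2.trans (shJ_pos _ _ _).symm,
        h3.trans (shJ_pos _ _ _).symm⟩
  | refl => exact .refl
  | symm _ _ _ ih =>
    refine ReflTransGen.mono ?_ _ _ ih.swap
    rintro u v ⟨i, i', t, ht, e, h1, hz, h2, h3⟩
    exact ⟨i', i, t, ht, e.symm, h1.symm, h1 ▸ hz, h3, h2⟩
  | trans _ _ _ _ _ a b => exact a.trans b

theorem sh_lf (hf : T.Fol φ) {p q : X3 × ℝ} :
    T.Lf φ p q ↔ ReflTransGen ((shUp hf).Adj ∅) p q := by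
  constructor
  · intro h
    refine sh_rt hf (Z := ∅) (EqvGen.mono ?_ _ _ h)
    rintro _ _ ⟨k, l, t, ht, a⟩
    exact ⟨k, l, t, ht, fun e => e, a⟩
  · intro h
    induction h with
    | refl => exact EqvGen.refl _
    | tail _ h ih =>
      obtain ⟨i, i', t, ht, -, h1, -, h2, h3⟩ := h
      exact EqvGen.trans _ _ _ ih (EqvGen.rel _ _ ⟨i, i', t, ht, h1, h2.trans (shJ_pos _ _ _),
        h3.trans (shJ_pos _ _ _)⟩)

theorem sh_flat (hf : T.Fol φ) {H : X2 → ℝ ≃o ℝ} (h1 : ∀ f, SuppIn 0 1 (H f))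
    (h2 : ∀ x, (shUp hf).fc H x 0 * (shUp hf).fc H x 2 = (shUp hf).fc H x 3 * (shUp hf).fc H x 1) :
    T.Flat fun f => (H f).trans (φ f) where
  supp f t ht := by rw [OrderIso.trans_apply, h1 f t ht, hf.1.supp f t ht]
  flat x s hs := by
    have e : (φ (T.d3 x 2)).symm ((H (T.d3 x 0) (2 * φ (T.d3 x 2) (H (T.d3 x 2) s) - 1) + 1) / 2) =
        (φ (T.d3 x 1)).symm ((H (T.d3 x 3) (2 * φ (T.d3 x 1) (H (T.d3 x 1) s) - 0) + 0) / 2) :=
      congrArg (fun f : ℝ ≃o ℝ => f s) (h2 x)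
    have u := sh_icc (hf.1.supp (T.d3 x 2)) le_rfl le_rfl (sh_icc (h1 (T.d3 x 2)) le_rfl le_rfl hs)
    simp only [OrderIso.trans_apply]
    rw [sub_zero, add_zero] at e
    obtain ⟨a, ha⟩ : ∃ a, φ (T.d3 x 2) (H (T.d3 x 2) s) = a := ⟨_, rfl⟩
    obtain ⟨b, hb⟩ : ∃ b, φ (T.d3 x 1) (H (T.d3 x 1) s) = b := ⟨_, rfl⟩
    simp only [ha, hb] at e u ⊢
    have w := sh_icc (h1 (T.d3 x 0)) (a := -1) (b := 1) (z := 2 * a - 1) (by norm_num) le_rfl
      ⟨by linarith [u.1], by linarith [u.2]⟩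
    have k := hf.1.flat x ((φ (T.d3 x 2)).symm ((H (T.d3 x 0) (2 * a - 1) + 1) / 2))
      (sh_icc (SuppIn.symm (hf.1.supp _)) le_rfl le_rfl ⟨by linarith [w.1], by linarith [w.2]⟩)
    rw [OrderIso.apply_symm_apply, e, OrderIso.apply_symm_apply,
      show ∀ r : ℝ, 2 * ((r + 1) / 2) = r + 1 from fun r => by ring,
      show ∀ r : ℝ, 2 * (r / 2) = r from fun r => by ring, add_sub_cancel_right] at k
    have z0 := h1 (T.d3 x 0) 0 fun p => p.1.false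
    have z1 := h1 (T.d3 x 3) 1 fun p => p.2.false
    refine Eq.trans ?_ (k.trans ?_)
    · by_cases c : 2 * a ≤ 1
      · rw [if_pos c, h1 _ _ fun p => by linarith [p.1], if_pos (by linarith)]
        ring
      · have := (H (T.d3 x 0)).strictMono (show 0 < 2 * a - 1 by linarith)
        rw [if_neg c, if_neg (by linarith)]
    · by_cases c : 2 * b ≤ 1
      · have := (H (T.d3 x 3)).monotone c
        rw [if_pos c, if_pos (by linarith)]
      · rw [if_neg c, h1 _ _ fun p => c p.2.le, if_neg c]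

theorem sh_unif (hf : T.Fol φ) {ε : ℝ} (hε : 0 < ε) :
    ∃ δ > 0, ∀ f s t, |s - t| ≤ δ → |φ f s - φ f t| ≤ ε := by
  have := (shUp hf).finA
  choose d d0 hd using fun w : Ob G X2 => Sup.unif (φ w.out) (hf.1.supp _) hε
  obtain ⟨x⟩ := T.ne
  have : Nonempty (Ob G X2) := ⟨ob G (T.d3 x 0)⟩
  obtain ⟨w, hw⟩ := Finite.exists_min d
  refine ⟨d w, d0 w, fun f s t h => ?_⟩
  obtain ⟨g, hg⟩ := Br.mk_eq (G := G) (Quotient.out_eq (ob G f))
  rw [← hf.2 g f, hg]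
  exact hd _ s t (h.trans (hw _))

theorem Tri.shear (hs : Ht.S_shear) {y : X3 → Fin 4 → Bool → ℤ} (hy : T.Flw y) (hf : T.Fol φ)
    {p : X3 × ℝ} {Z : Set (Ob G X2 × ℝ)} (hZ : T.Clear φ p Z) : T.Shear φ Z := by
  have eo : ∀ (g : G) (a : X2), ob G (g • a) = ob G a := Br.mk_smul
  obtain ⟨η, hη, H1⟩ := (shUp hf).shear_up hs (sh_flow hy hf) {z | (ob G z.1, z.2) ∈ Z}
    (fun g a t h => by rwa [mem_ofPred_eq, eo])
    ⟨(fun z => (z.1.out, z.2)) '' Z, hZ.fin.image _, fun z hz => by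
      obtain ⟨g, hg⟩ := Br.mk_eq (G := G) (Quotient.out_eq (ob G z.1))
      exact ⟨g, _, hz, Prod.ext hg.symm rfl⟩⟩
    (fun z hz => (hZ.mem _ hz).1) p hZ.lev
    (fun z hz => by
      obtain ⟨x, k, h1, h2⟩ := (hZ.mem _ hz).2
      obtain ⟨g, hg⟩ := Br.mk_eq (G := G) h1
      exact ⟨g, x, k, hg.symm, (sh_lf hf).1 ((shJ_pos (T := T) (φ := φ) x k z.2).symm ▸ h2)⟩)
    (fun u hu => Set.Infinite.mono (fun q hq => by
      obtain ⟨v, h1, h2⟩ := hq
      exact ⟨(v, q.2), sh_rt hf h2, Prod.ext h1 rfl⟩) (hZ.inf u ((sh_lf hf).2 hu)))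
  refine ⟨η, hη, fun ε hε => ?_⟩
  obtain ⟨ε', hε', hu⟩ := sh_unif hf hε
  obtain ⟨δ, hδ, H2⟩ := H1 ε' hε'
  refine ⟨δ, hδ, fun h hh => ?_⟩
  obtain ⟨H, a1, a2, a3, a4, a5⟩ := H2 (fun z => h (ob G z.1, z.2))
    (fun g a t => by rw [eo]) fun z hz => hh _ hz
  exact ⟨fun f => (H f).trans (φ f), ⟨sh_flat hf a2 a4, fun g f => by simp only [a1, hf.2]⟩,
    fun f t => hu f _ _ (a3 f t), fun f t₀ hz t ht => congrArg (φ f) (a5 (f, t₀) hz t ht)⟩

end Pool.Agent.Work.MP_3d425c_gt.Md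
end

-- merged part: Pool.Agent.Work.MP_3d425c_gt.Md.Gen
section
/-! A generic foliation has abelian stabilisers. -/

namespace Pool.Agent.Work.MP_3d425c_gt.Md
open Set Relation Pool.Agent.Work.MP_3d425c_gt.Gn Pool.Agent.Work.MP_3d425c_gt.Cy

variable {G X0 X1 X2 X3 : Type} [Group G] [MulAction G X0] [MulAction G X1] [MulAction G X2]
  [MulAction G X3] {T : Tri G X0 X1 X2 X3} {φ : X2 → ℝ ≃o ℝ}

theorem gen_out {X : Type} [MulAction G X] (x : X) : ∃ g : G, (ob G x).out = g • x := by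
  obtain ⟨g, h⟩ := MulAction.orbitRel_apply.1 (Quotient.mk_out (s := MulAction.orbitRel G X) x)
  exact ⟨g, h.symm⟩

theorem gen_ob {X : Type} [MulAction G X] (g : G) (x : X) : ob G (g • x) = ob G x :=
  Quotient.sound (MulAction.orbitRel_apply.2 (MulAction.mem_orbit x g))

theorem Tri.gen_fin (T : Tri G X0 X1 X2 X3) : Finite (Ob G X2) := by
  have := T.fin
  refine Finite.of_surjective (fun p : Ob G X3 × Fin 4 => ob G (T.d3 p.1.out p.2)) fun o => ?_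
  obtain ⟨f, rfl⟩ := Quotient.exists_rep o
  obtain ⟨p, q, -, h⟩ := T.two f
  obtain ⟨g, e⟩ := gen_out (G := G) p.1
  refine ⟨(ob G p.1, p.2), ?_⟩
  change ob G (T.d3 (ob G p.1).out p.2) = ob G f
  rw [e, T.e3, gen_ob, (h p).2 (.inl rfl)]

theorem Tri.gen_free (T : Tri G X0 X1 X2 X3) (g : G) (p : Nd X0 X1) (h : g • p = p) : g = 1 := by
  cases p with
  | pt e r => exact T.free g (T.d1 e 0) (by rw [← T.e1, (Nd.pt.inj h).1])
  | vx v => exact T.free g v (Nd.vx.inj h)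

/-- the affine part of a letter -/
noncomputable def genA (b : Bool) : ℝ ≃o ℝ :=
  (OrderIso.mulLeft₀ 2 two_pos).trans (OrderIso.addRight (if b then 0 else -1))

theorem genA_apply (b : Bool) (t : ℝ) : genA b t = 2 * t + if b then 0 else -1 := rfl

/-- the space of invariant flat structures -/
def Tri.genSp (T : Tri G X0 X1 X2 X3) : Set (Ob G X2 → Sup 0 1) :=
  {ψ | T.Flat fun f => (ψ (ob G f)).1}

theorem Tri.gen_closed (T : Tri G X0 X1 X2 X3) : IsClosed T.genSp := by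
  have ev : ∀ (o : Ob G X2) (u : (Ob G X2 → Sup 0 1) → ℝ), Continuous u →
      Continuous fun ψ : Ob G X2 → Sup 0 1 => 2 * (ψ o).1 (u ψ) := fun o u hu =>
    continuous_const.mul (Sup.cont_eval.comp ((continuous_apply o).prodMk hu))
  have e : T.genSp = ⋂ x, ⋂ s ∈ Icc (0 : ℝ) 1, {ψ |
      (if 2 * (ψ (ob G (T.d3 x 2))).1 s ≤ 1 then 2 * (ψ (ob G (T.d3 x 2))).1 s
        else 1 + 2 * (ψ (ob G (T.d3 x 0))).1 (2 * (ψ (ob G (T.d3 x 2))).1 s - 1)) =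
      if 2 * (ψ (ob G (T.d3 x 1))).1 s ≤ 1 then
        2 * (ψ (ob G (T.d3 x 3))).1 (2 * (ψ (ob G (T.d3 x 1))).1 s)
        else 2 * (ψ (ob G (T.d3 x 1))).1 s + 1} := by
    ext ψ
    simp only [mem_iInter]
    exact ⟨fun h => h.flat, fun h => ⟨fun f => (ψ _).2, h⟩⟩
  rw [e]
  refine isClosed_iInter fun x => isClosed_iInter fun s => isClosed_iInter fun _ =>
    isClosed_eq ?_ ?_
  · have c := ev (ob G (T.d3 x 2)) _ (continuous_const (y := s))
    refine Continuous.if_le c (continuous_const.add (ev _ _ (c.sub continuous_const))) c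
      continuous_const fun ψ h => ?_
    rw [h, sub_self, (ψ _).2 0 fun p => p.1.false]
    norm_num
  · have c := ev (ob G (T.d3 x 1)) _ (continuous_const (y := s))
    refine Continuous.if_le (ev _ _ c) (c.add continuous_const) c continuous_const fun ψ h => ?_
    rw [h, (ψ _).2 1 fun p => p.2.false]
    norm_num

theorem Tri.gen_mk (hf : T.Fol φ) : ∃ ψ : T.genSp, ∀ f, (ψ.1 (ob G f)).1 = φ f := by
  have e : ∀ f, φ (ob G f).out = φ f := fun f => by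
    obtain ⟨g, e⟩ := gen_out (G := G) f
    rw [e, hf.2]
  refine ⟨⟨fun o => ⟨φ o.out, hf.1.supp _⟩, ?_⟩, e⟩
  change T.Flat fun f => φ (ob G f).out
  rw [funext e]
  exact hf.1

theorem Tri.generic (ex : ∃ φ, T.Fol φ)
    (col : ∀ φ, T.Fol φ → ∀ x, ∀ s ∈ Ioo (0 : ℝ) 1, ∀ g h : G, T.Lf φ (x, s) (g • x, s) →
      T.Lf φ (x, s) (h • x, s) → g * h ≠ h * g →
      ∃ Z, T.Shear φ Z ∧ ∃ (p : Nd X0 X1) (a b : G), a * b ≠ b * a ∧
        Conn T.src (T.tgt φ) (ovr G Z) p (a • p) ∧ Conn T.src (T.tgt φ) (ovr G Z) p (b • p)) :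
    ∃ φ, T.Fol φ ∧ T.Ab φ := by
  classical
  have := T.gen_fin
  have := Fintype.ofFinite (Ob G X2)
  have := T.gen_closed.completeSpace_coe
  obtain ⟨φ₀, h₀⟩ := ex
  obtain ⟨ψ₀, -⟩ := Tri.gen_mk h₀
  let M : T.genSp → Ob G X2 × Bool → ℝ ≃o ℝ := fun ψ l => (ψ.1 l.1).1.trans (genA l.2)
  have ca : ∀ o, Continuous fun p : T.genSp × ℝ => p.1.1 o := fun o =>
    (continuous_apply o).comp (continuous_subtype_val.comp continuous_fst)
  obtain ⟨ψ, -, hψ⟩ := exists_generic (M := M)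
    (fun l => (genA l.2).continuous.comp (Sup.cont_eval.comp ((ca l.1).prodMk continuous_snd)))
    (fun l => Sup.cont_symm.comp ((ca l.1).prodMk
      ((genA l.2).symm.continuous.comp continuous_snd))) isOpen_univ ⟨ψ₀, trivial⟩
  obtain ⟨φ, eφ⟩ : ∃ φ : X2 → ℝ ≃o ℝ, φ = fun f => (ψ.1 (ob G f)).1 := ⟨_, rfl⟩
  have hf : T.Fol φ := eφ ▸ ⟨ψ.2, fun g f => by simp only [gen_ob]⟩
  have eφ' : ∀ f, (ψ.1 (ob G f)).1 = φ f := fun f => by rw [eφ]
  refine ⟨φ, hf, fun x s hs g h hg hh => by_contra fun hne => ?_⟩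
  obtain ⟨Z, ⟨η, hη, sh⟩, p, a, b, hab, ha, hb⟩ := col φ hf x s hs g h hg hh hne
  refine hab (hψ.comm (lev := Nd.lev) (lab := fun e => (ob G e.f, decide (2 * φ e.f e.t ≤ 1)))
    (J := ∅) (fun g e => ?_) (fun g e => ?_) (fun g p => by cases p <;> rfl) (fun g e he => ?_)
    (fun _ _ h => h) (empty_subset _) (fun g p k => T.gen_free g p
      ((k.iff (P := fun y => y = p) fun _ h => h.elim).1 rfl)) (fun e _ => ?_)
    ⟨η, hη, fun ε hε => ?_⟩ ha hb)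
  · rw [Tri.src, Tri.src, smul_pt, smul_f, T.e2, smul_t]
  · simp only [Tri.tgt, smul_f, smul_t, hf.2, T.e2, T.e1]
    split_ifs <;> rfl
  · change (ob G (g • e.f), e.t) ∈ Z
    rwa [gen_ob]
  · change genA _ ((ψ.1 (ob G e.f)).1 e.t) = _
    rw [genA_apply, eφ', Tri.tgt]
    rcases lt_trichotomy (2 * φ e.f e.t) 1 with c | c | c
    · simp [c, c.le, Nd.lev]
    · simp [c, Nd.lev]
    · simp [c.not_ge, c.not_gt, c.ne', Nd.lev, sub_eq_add_neg]
  · choose d d0 hd using fun o => Sup.near (ψ.1 o) hε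
    obtain ⟨x⟩ := T.ne
    have : Nonempty (Ob G X2) := ⟨ob G (T.d3 x 0)⟩
    obtain ⟨o₀, ho⟩ := Finite.exists_min d
    obtain ⟨δ, hδ, sh⟩ := sh _ (d0 o₀)
    refine ⟨δ, hδ, fun k k1 _ k2 k3 => ?_⟩
    obtain ⟨φ', f1, f2, f3⟩ := sh (fun z => if hz : z.2 ∈ Ioo (0 : ℝ) 1 then k ⟨z.1.out, z.2, hz⟩
      else OrderIso.refl ℝ) fun z _ => by
        split_ifs with c
        · exact ⟨k2 ⟨_, _, c⟩, k3 _⟩
        · exact ⟨fun _ _ => rfl, fun t => by simpa using hδ.le⟩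
    obtain ⟨ψ', e'⟩ := Tri.gen_mk f1
    refine ⟨ψ', (dist_pi_le_iff hε.le).2 fun o => hd o _ fun t => ?_, fun e he t ht => ?_⟩
    · obtain ⟨f, rfl⟩ := Quotient.exists_rep o
      change |(ψ'.1 (ob G f)).1 t - (ψ.1 (ob G f)).1 t| ≤ _
      rw [e', eφ']
      exact (f2 f t).trans (ho _)
    · change genA _ ((ψ'.1 (ob G e.f)).1 t) = genA _ ((ψ.1 (ob G e.f)).1 (k e t))
      obtain ⟨g, eg⟩ := gen_out (G := G) e.f
      rw [e', eφ', f3 e.f e.t he t ht, dif_pos e.ht, ← k1 g e]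
      exact congrArg (fun c => genA _ (φ e.f (k c t))) (Ar.ext eg rfl)

end Pool.Agent.Work.MP_3d425c_gt.Md
end

-- merged part: Pool.Agent.Work.MP_3d425c_gt.Ta.Fw
section
/-! Flows that depend on the level, and what follows from them. -/

namespace Pool.Agent.Work.MP_3d425c_gt.Md
open Set Relation Pool.Agent.Work.MP_3d425c_gt.Gn Pool.Agent.Work.MP_3d425c_gt.Cy

variable {G X0 X1 X2 X3 : Type} [Group G] [MulAction G X0] [MulAction G X1] [MulAction G X2]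
  [MulAction G X3] {T : Tri G X0 X1 X2 X3} {φ : X2 → ℝ ≃o ℝ}

open Classical in
/-- the flow out of the plaque `(x, s)`, pushed slightly up, through the face `k` -/
noncomputable def Tri.fwC (T : Tri G X0 X1 X2 X3) (φ : X2 → ℝ ≃o ℝ)
    (y : X3 → Fin 4 → ℝ → ℤ) (x : X3) (s : ℝ) (k : Fin 4) : ℤ :=
  if T.infLev φ x k s ∈ Ico (0 : ℝ) 1 then y x k (T.infLev φ x k s) else 0

/-- An invariant bounded step function on arcs with surplus at every plaque. -/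
structure Tri.Fw (T : Tri G X0 X1 X2 X3) (φ : X2 → ℝ ≃o ℝ) (y : X3 → Fin 4 → ℝ → ℤ) : Prop where
  inv : ∀ (g : G) x, y (g • x) = y x
  anti : ∀ x k x' k', (x, k) ≠ (x', k') → T.d3 x k = T.d3 x' k' → ∀ t, y x' k' t = - y x k t
  sur : ∀ x, ∀ s ∈ Ico (0 : ℝ) 1, 1 ≤ ∑ k, T.fwC φ y x s k
  loc : ∃ D : Finset ℝ, ∀ x k t t', t ≤ t' → (∀ d ∈ D, d ∉ Icc t t') → y x k t = y x k t'
  bdd : ∃ Y : ℕ, ∀ x k t, y x k t ≤ Y

variable {y : X3 → Fin 4 → ℝ → ℤ}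

theorem fw_count (hy : T.Fw φ y) (hf : T.Fol φ) (P : X3 → ℝ → Prop)
    (hG : ∀ (g : G) x s, P x s → P (g • x) s) (hI : ∀ x s, P x s → s ∈ Ico (0 : ℝ) 1)
    (hC : ∀ x k x' k', T.d3 x k = T.d3 x' k' → ∀ t ∈ Ico (0 : ℝ) 1,
      P x (T.pos φ x k t) → P x' (T.pos φ x' k' t))
    (hfin : {q : Ob G X3 × ℝ | P q.1.out q.2}.Finite) (x : X3) (s : ℝ) : ¬ P x s := by
  classical
  intro hx
  obtain ⟨o, ho⟩ := inf_oth T
  have oo : ∀ (g : G) p, o (g • (o p).1, (o p).2) = (g • p.1, p.2) := by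
    intro g p
    rcases (ho (g • (o p).1, (o p).2)).2.2 (g • p.1, p.2) (by simp only [T.e3, (ho p).2.1]) with
      h | h
    · obtain ⟨h1, h2⟩ := Prod.mk.inj h
      exact absurd (Prod.ext (smul_left_cancel g h1) h2) (ho p).1
    · exact h.symm
  set K := hfin.toFinset with hK
  have mK : ∀ q, q ∈ K ↔ P q.1.out q.2 := fun q => by simp [hK]
  let c : (Ob G X3 × ℝ) × Fin 4 → ℤ := fun a => T.fwC φ y a.1.1.out a.1.2 a.2
  let J : (Ob G X3 × ℝ) × Fin 4 → (Ob G X3 × ℝ) × Fin 4 := fun a =>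
    if T.infLev φ a.1.1.out a.2 a.1.2 ∈ Ico (0 : ℝ) 1 then
      ((ob G (o (a.1.1.out, a.2)).1, T.pos φ (o (a.1.1.out, a.2)).1 (o (a.1.1.out, a.2)).2
        (T.infLev φ a.1.1.out a.2 a.1.2)), (o (a.1.1.out, a.2)).2) else a
  have h1 : ∀ a, c a + c (J a) = 0 := by
    rintro ⟨⟨q, r⟩, k⟩
    by_cases h : T.infLev φ q.out k r ∈ Ico (0 : ℝ) 1
    · obtain ⟨g, hg⟩ := inf_out (G := G) (o (q.out, k)).1
      have e := (ho (q.out, k)).2.1
      simp only [c, J, if_pos h, hg, Tri.fwC, inf_lev_smul hf, inf_lev_pos, hy.inv, T.e3, hf.2,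
        hy.anti _ _ _ _ (ho (q.out, k)).1 e, ← e, add_neg_cancel]
    · simp only [c, J, if_neg h, Tri.fwC, add_zero]
  have h0 : ∑ a ∈ K ×ˢ Finset.univ, c a = 0 := by
    refine Finset.sum_involution (fun a _ => J a) (fun a _ => h1 a) (fun a _ ha h => ha ?_)
      ?_ ?_
    · have := h1 a
      rw [h] at this
      omega
    · rintro ⟨⟨q, r⟩, k⟩ ha
      by_cases h : T.infLev φ q.out k r ∈ Ico (0 : ℝ) 1
      · obtain ⟨g, hg⟩ := inf_out (G := G) (o (q.out, k)).1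
        simp only [J, if_pos h, Finset.mem_product, Finset.mem_univ, and_true, mK, hg] at ha ⊢
        exact hG _ _ _ (hC _ _ _ _ (ho (q.out, k)).2.1 _ h (by rwa [inf_pos_lev]))
      · simpa only [J, if_neg h] using ha
    · rintro ⟨⟨q, r⟩, k⟩ -
      by_cases h : T.infLev φ q.out k r ∈ Ico (0 : ℝ) 1
      · obtain ⟨g, hg⟩ := inf_out (G := G) (o (q.out, k)).1
        simp only [J, if_pos h, hg, inf_lev_smul hf, inf_lev_pos, oo, inf_ob_smul,
          inf_pos_smul hf, inf_pos_lev]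
        rw [show ob G q.out = q from Quotient.out_eq q]
      · simp only [J, if_neg h]
  rw [Finset.sum_product] at h0
  obtain ⟨g, hg⟩ := inf_out (G := G) x
  refine (Finset.sum_pos (fun q hq => ?_) ⟨(ob G x, s), (mK _).2 (hg ▸ hG g x s hx)⟩).ne' h0
  exact lt_of_lt_of_le one_pos (hy.sur q.1.out _ (hI _ _ ((mK q).1 hq)))

theorem Tri.Fw.inf (hy : T.Fw φ y) (hf : T.Fol φ) : T.Inf φ := by
  intro x₀ s₀ hs₀ hfin
  -- the saturated leaf
  let L : X3 → ℝ → Prop := fun x s => ∃ g : G, EqvGen (T.StepZ φ ∅) (x₀, s₀) (g • x, s)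
  have LG : ∀ (g : G) x s, L x s → L (g • x) s := fun g x s ⟨h, hh⟩ =>
    ⟨h * g⁻¹, by rwa [mul_smul, inv_smul_smul]⟩
  have LI : ∀ x s, L x s → s ∈ Ioo (0 : ℝ) 1 := by
    have : ∀ p q, EqvGen (T.StepZ φ ∅) p q → (p.2 ∈ Ioo (0 : ℝ) 1 ↔ q.2 ∈ Ioo (0 : ℝ) 1) := by
      intro p q h
      induction h with
      | rel p q h =>
        obtain ⟨k, l, t, ht, -, -, e1, e2⟩ := h
        exact iff_of_true (e1 ▸ inf_pos_mem hf.1 _ _ ht) (e2 ▸ inf_pos_mem hf.1 _ _ ht)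
      | refl => rfl
      | symm _ _ _ ih => exact ih.symm
      | trans _ _ _ _ _ i1 i2 => exact i1.trans i2
    exact fun x s ⟨g, h⟩ => (this _ _ h).1 hs₀
  have LC : ∀ x k x' k', T.d3 x k = T.d3 x' k' → ∀ t ∈ Ioo (0 : ℝ) 1,
      L x (T.pos φ x k t) → L x' (T.pos φ x' k' t) := fun x k x' k' e t ht ⟨g, h⟩ =>
    ⟨g, .trans _ _ _ h (.rel _ _ ⟨k, k', t, ht, notMem_empty _, by simp only [T.e3, e],
      (inf_pos_smul hf g x k t).symm, (inf_pos_smul hf g x' k' t).symm⟩)⟩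
  -- marked arcs and vertices on the leaf
  let M : X2 → Prop := fun f => ∃ x k, T.d3 x k = f ∧ L x (T.pos φ x k ((φ f).symm (1 / 2)))
  have hM : ∀ x k, M (T.d3 x k) ↔ L x (T.pos φ x k ((φ (T.d3 x k)).symm (1 / 2))) :=
    fun x k => ⟨fun ⟨x', k', e, h⟩ => LC _ _ _ _ e _
      (inf_symm_mem hf.1 _ (by norm_num) (by norm_num)) h, fun h => ⟨x, k, rfl, h⟩⟩
  have hE : ∀ f f', T.d1 (T.d2 f 2) 0 = T.d1 (T.d2 f' 2) 0 → (M f ↔ M f') := by
    intro f f' e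
    have h := T.equ f f' e
    clear e
    induction h with
    | rel f f' h =>
      obtain ⟨x, ⟨rfl, rfl⟩ | ⟨rfl, rfl⟩⟩ := h
      · rw [hM, hM, inf_b hf.1]
      · rw [hM, hM, inf_c hf.1]
    | refl => rfl
    | symm _ _ _ ih => exact ih.symm
    | trans _ _ _ _ _ i1 i2 => exact i1.trans i2
  let On : X0 → Prop := fun v => ∃ f, T.d1 (T.d2 f 2) 0 = v ∧ M f
  let P : X3 → ℝ → Prop := fun x s => L x s ∨ (s = 0 ∧ On (T.d1 (T.d2 (T.d3 x 3) 2) 1))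
  have h0 : ∀ x k, P x (T.pos φ x k 0) ↔ On (T.d1 (T.d2 (T.d3 x k) 2) 1) := by
    intro x k
    have hz : P x 0 ↔ On (T.d1 (T.d2 (T.d3 x 3) 2) 1) :=
      ⟨fun h => h.elim (fun h => absurd (LI _ _ h).1 (lt_irrefl _)) fun h => h.2,
        fun h => Or.inr ⟨rfl, h⟩⟩
    have a1 : T.d2 (T.d3 x 3) 2 = T.d2 (T.d3 x 2) 2 := T.s3 x 2 2 le_rfl
    have a2 : T.d2 (T.d3 x 3) 1 = T.d2 (T.d3 x 1) 2 := T.s3 x 1 2 (by decide)
    have a3 : T.d2 (T.d3 x 3) 0 = T.d2 (T.d3 x 0) 2 := T.s3 x 0 2 (by decide)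
    have a4 : T.d1 (T.d2 (T.d3 x 3) 2) 1 = T.d1 (T.d2 (T.d3 x 3) 1) 1 := T.s2 _ 1 1 le_rfl
    have a5 : T.d1 (T.d2 (T.d3 x 3) 2) 0 = T.d1 (T.d2 (T.d3 x 3) 0) 1 := T.s2 _ 0 1 (by decide)
    fin_cases k
    · have e : T.pos φ x 0 0 = T.pos φ x 2 ((φ (T.d3 x 2)).symm (1 / 2)) := by
        show (φ (T.d3 x 2)).symm ((0 + 1) / 2) = (φ (T.d3 x 2)).symm (1 / 2)
        rw [zero_add]
      show P x (T.pos φ x 0 0) ↔ On (T.d1 (T.d2 (T.d3 x 0) 2) 1)
      rw [e, ← a3, ← a5, a1]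
      refine ⟨fun h => h.elim (fun h => ⟨_, rfl, (hM x 2).2 h⟩) fun h => ?_,
        fun ⟨f, e, h⟩ => Or.inl ((hM x 2).1 ((hE _ _ e).1 h))⟩
      exact absurd h.1 (inf_symm_mem hf.1 (T.d3 x 2) (by norm_num) (by norm_num)).1.ne'
    · show P x 0 ↔ On (T.d1 (T.d2 (T.d3 x 1) 2) 1)
      rw [hz, a4, a2]
    · show P x 0 ↔ On (T.d1 (T.d2 (T.d3 x 2) 2) 1)
      rw [hz, a1]
    · have e : T.pos φ x 3 0 = 0 := by
        show (φ (T.d3 x 1)).symm (0 / 2) = 0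
        rw [zero_div, OrderIso.symm_apply_eq, inf_z hf.1]
      show P x (T.pos φ x 3 0) ↔ On (T.d1 (T.d2 (T.d3 x 3) 2) 1)
      rw [e, hz]
  refine fw_count hy hf P ?_ ?_ ?_ ?_ x₀ s₀ (Or.inl ⟨1, by rw [one_smul]; exact .refl _⟩)
  · rintro g x s (h | ⟨rfl, f, e, x', k, rfl, h⟩)
    · exact Or.inl (LG g x s h)
    · refine Or.inr ⟨rfl, T.d3 (g • x') k, by simp only [T.e3, T.e2, T.e1, e], g • x', k, rfl, ?_⟩
      rw [inf_pos_smul hf, T.e3, hf.2]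
      exact LG g _ _ h
  · rintro x s (h | ⟨rfl, -⟩)
    · exact Ioo_subset_Ico_self (LI x s h)
    · exact ⟨le_rfl, one_pos⟩
  · intro x k x' k' e t ht h
    rcases ht.1.eq_or_lt with rfl | h1
    · rw [h0] at h ⊢
      rwa [← e]
    · rcases h with h | h
      · exact Or.inl (LC _ _ _ _ e t ⟨h1, ht.2⟩ h)
      · exact absurd h.1 (inf_pos_mem hf.1 x k ⟨h1, ht.2⟩).1.ne'
  · have := T.fin
    refine (hfin.union (finite_univ.prod (finite_singleton (0 : ℝ)))).subset ?_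
    rintro ⟨q, s⟩ (⟨g, h⟩ | h)
    · exact Or.inl ⟨g • q.out, (inf_ob_smul g _).trans (Quotient.out_eq q), h⟩
    · exact Or.inr ⟨mem_univ _, h.1⟩

theorem fw_jm (x : X3) (k : Fin 4) (s : ℝ) : (T.jm φ x k).symm s = T.infLev φ x k s := by
  rw [OrderIso.symm_apply_eq, jm_apply, inf_pos_lev]

theorem fw_shJ (x : X3) (k : Fin 4) (s : ℝ) : (shJ T φ x k).symm s = T.infLev φ x k s := by
  rw [OrderIso.symm_apply_eq, shJ_pos, inf_pos_lev]

theorem fw_card (Y : ℕ) {a : ℤ} (h : a ≤ Y) :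
    ∑ n : Fin Y, (if ((n : ℕ) : ℤ) < a then (1 : ℤ) else 0) = max a 0 := by
  rw [Fin.sum_univ_eq_sum_range (fun n : ℕ => if (n : ℤ) < a then (1 : ℤ) else 0), Finset.sum_boole,
    show (Finset.range Y).filter (fun n : ℕ => (n : ℤ) < a) = Finset.range a.toNat by
      ext n; simp only [Finset.mem_filter, Finset.mem_range]; omega, Finset.card_range]
  omega

theorem Tri.Fw.flow (hy : T.Fw φ y) (hf : T.Fol φ) :
    ∃ (S : Type) (_ : Finite S), Nonempty (Ht.Flow (shUp hf).cx S) := by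
  classical
  obtain ⟨D, hD⟩ := hy.loc
  obtain ⟨Y, hY⟩ := hy.bdd
  set X := shUp hf
  have := X.finA
  have := Fintype.ofFinite (MulAction.orbitRel.Quotient G X2)
  let u : MulAction.orbitRel.Quotient G X2 × Bool → ℝ → ℤ := fun z => y (X.inc z).1 (X.inc z).2
  let D' : Finset ℝ := Finset.univ.biUnion fun z : MulAction.orbitRel.Quotient G X2 × Bool =>
    (insert 0 (insert 1 D)).image (X.cx.j z)
  have hD' : ∀ z d, d = 0 ∨ d = 1 ∨ d ∈ D → X.cx.j z d ∈ D' := fun z d h =>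
    Finset.mem_biUnion.2 ⟨z, Finset.mem_univ _, Finset.mem_image_of_mem _ (by simpa using h)⟩
  refine ⟨(MulAction.orbitRel.Quotient G X2 × Bool) × Fin Y, inferInstance,
    ⟨⟨fun σ => σ.1.1, fun σ => σ.1.2, fun σ => {t | t ∈ Ioo (0 : ℝ) 1 ∧ ((σ.2 : ℕ) : ℤ) < u σ.1 t},
      fun _ => D', fun σ t h => h.1, fun σ b s s' hs hd => ?_, fun c s hs hsD => ?_⟩⟩⟩
  · refine and_congr (Br.Up.loc_ioo _ hs (hd _ (hD' _ _ (.inl rfl)))
      (hd _ (hD' _ _ (.inr (.inl rfl))))) ?_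
    rw [show u σ.1 _ = u σ.1 _ from hD _ _ _ _ ((X.cx.j (σ.1.1, b)).symm.monotone hs) fun d h k =>
      hd _ (hD' (σ.1.1, b) d (.inr (.inr h)))
        ⟨(OrderIso.symm_apply_le _).1 k.1, (OrderIso.le_symm_apply _).1 k.2⟩]
  · obtain ⟨x, rfl⟩ := Quotient.exists_rep c
    have cnt : ∀ (e : MulAction.orbitRel.Quotient G X2 × Bool →
        MulAction.orbitRel.Quotient G X2 × Bool),
        (({σ : (MulAction.orbitRel.Quotient G X2 × Bool) × Fin Y | X.cx.cell (e σ.1) =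
          Quotient.mk _ x ∧ (X.cx.j (e σ.1)).symm s ∈ Ioo (0 : ℝ) 1 ∧
          ((σ.2 : ℕ) : ℤ) < u σ.1 ((X.cx.j (e σ.1)).symm s)}.ncard : ℕ) : ℤ) =
        ∑ z, if X.cx.cell (e z) = Quotient.mk _ x then
          (if (X.cx.j (e z)).symm s ∈ Ioo (0 : ℝ) 1 then max (u z ((X.cx.j (e z)).symm s)) 0
            else 0) else 0 := fun e => by
      rw [ncard_eq_toFinset_card', toFinset_ofPred, Finset.card_filter, Fintype.sum_prod_type]
      push_cast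
      refine Finset.sum_congr rfl fun z _ => ?_
      by_cases a : X.cx.cell (e z) = Quotient.mk _ x
      · by_cases b : (X.cx.j (e z)).symm s ∈ Ioo (0 : ℝ) 1
        · simp only [a, b, true_and, if_true]
          exact fw_card Y (hY _ _ _)
        · simp only [b, false_and, and_false, if_false, Finset.sum_const_zero, ite_self]
      · simp only [a, false_and, if_false, Finset.sum_const_zero]
    let fl : MulAction.orbitRel.Quotient G X2 × Bool ≃ MulAction.orbitRel.Quotient G X2 × Bool :=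
      Function.Involutive.toPerm (fun z => (z.1, !z.2)) fun z => by simp
    have ff : ∀ z, fl (fl z) = z := fun z => Prod.ext rfl (Bool.not_not _)
    have hu : ∀ z t, u (fl z) t = -u z t := fun z t =>
      hy.anti _ _ _ _ (X.inc_ne z.1 z.2) ((X.inc_d (z.1, z.2)).trans (X.inc_d (z.1, !z.2)).symm) t
    refine Int.ofNat_lt.1 ((cnt fl).trans_lt (lt_of_lt_of_eq ?_ (cnt id).symm))
    rw [← fl.sum_comp, ← sub_pos, ← Finset.sum_sub_distrib]
    simp only [ff, hu, id]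
    have e3 : ∀ (a b : Prop) [Decidable a] [Decidable b] (r : ℤ),
        ((if a then (if b then max r 0 else 0) else 0) - if a then (if b then max (-r) 0 else 0)
          else 0) = if a then (if b then r else 0) else 0 := fun a b _ _ r => by
      split_ifs <;> omega
    simp only [e3]
    rw [X.sum_cell x]
    refine (lt_of_lt_of_le one_pos (hy.sur x s (Ioo_subset_Ico_self hs))).trans_eq
      (Finset.sum_congr rfl fun i _ => ?_)
    obtain ⟨g, h1, -⟩ := X.pe_symm x i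
    have e7 : X.cx.j (X.pe.symm (Quotient.mk _ x, i)) = shJ T φ x i := by
      simp only [Br.Up.cx, h1, X.j_smul]
      rfl
    have n0 : T.infLev φ x i s ≠ 0 := fun e => hsD (by
      have := hD' (X.pe.symm (Quotient.mk _ x, i)) 0 (.inl rfl)
      rwa [e7, ← e, shJ_pos, inf_pos_lev] at this)
    simp only [e7, fw_shJ, u, h1, hy.inv, Tri.fwC]
    exact if_congr ⟨fun h => ⟨lt_of_le_of_ne h.1 n0.symm, h.2⟩, fun h => ⟨h.1.le, h.2⟩⟩ rfl rfl

theorem Tri.Fw.shear (hs : Ht.S_shear) (hy : T.Fw φ y) (hf : T.Fol φ)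
    {p : X3 × ℝ} {Z : Set (Ob G X2 × ℝ)} (hZ : T.Clear φ p Z) : T.Shear φ Z := by
  have eo : ∀ (g : G) (a : X2), ob G (g • a) = ob G a := Br.mk_smul
  obtain ⟨η, hη, H1⟩ := (shUp hf).shear_fl hs (hy.flow hf) {z | (ob G z.1, z.2) ∈ Z}
    (fun g a t h => by rwa [mem_ofPred_eq, eo])
    ⟨(fun z => (z.1.out, z.2)) '' Z, hZ.fin.image _, fun z hz => by
      obtain ⟨g, hg⟩ := Br.mk_eq (G := G) (Quotient.out_eq (ob G z.1))
      exact ⟨g, _, hz, Prod.ext hg.symm rfl⟩⟩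
    (fun z hz => (hZ.mem _ hz).1) p hZ.lev
    (fun z hz => by
      obtain ⟨x, k, h1, h2⟩ := (hZ.mem _ hz).2
      obtain ⟨g, hg⟩ := Br.mk_eq (G := G) h1
      exact ⟨g, x, k, hg.symm, (sh_lf hf).1 ((shJ_pos (T := T) (φ := φ) x k z.2).symm ▸ h2)⟩)
    (fun u hu => Set.Infinite.mono (fun q hq => by
      obtain ⟨v, h1, h2⟩ := hq
      exact ⟨(v, q.2), sh_rt hf h2, Prod.ext h1 rfl⟩) (hZ.inf u ((sh_lf hf).2 hu)))
  refine ⟨η, hη, fun ε hε => ?_⟩
  obtain ⟨ε', hε', hu⟩ := sh_unif hf hε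
  obtain ⟨δ, hδ, H2⟩ := H1 ε' hε'
  refine ⟨δ, hδ, fun h hh => ?_⟩
  obtain ⟨H, a1, a2, a3, a4, a5⟩ := H2 (fun z => h (ob G z.1, z.2))
    (fun g a t => by rw [eo]) fun z hz => hh _ hz
  exact ⟨fun f => (H f).trans (φ f), ⟨sh_flat hf a2 a4, fun g f => by simp only [a1, hf.2]⟩,
    fun f t => hu f _ _ (a3 f t), fun f t₀ hz t ht => congrArg (φ f) (a5 (f, t₀) hz t ht)⟩

theorem Tri.generic_near {φ₀ : X2 → ℝ ≃o ℝ} (h₀ : T.Fol φ₀) {ρ : ℝ} (hρ : 0 < ρ)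
    (col : ∀ φ, T.Fol φ → (∀ f t, |φ f t - φ₀ f t| ≤ ρ) → ∀ x, ∀ s ∈ Ioo (0 : ℝ) 1, ∀ g h : G,
      T.Lf φ (x, s) (g • x, s) →
      T.Lf φ (x, s) (h • x, s) → g * h ≠ h * g →
      ∃ Z, T.Shear φ Z ∧ ∃ (p : Nd X0 X1) (a b : G), a * b ≠ b * a ∧
        Conn T.src (T.tgt φ) (ovr G Z) p (a • p) ∧ Conn T.src (T.tgt φ) (ovr G Z) p (b • p)) :
    ∃ φ, T.Fol φ ∧ (∀ f t, |φ f t - φ₀ f t| ≤ ρ) ∧ T.Ab φ := by
  classical
  have := T.gen_fin
  have := Fintype.ofFinite (Ob G X2)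
  have := T.gen_closed.completeSpace_coe
  obtain ⟨ψ₀, e₀⟩ := Tri.gen_mk h₀
  let M : T.genSp → Ob G X2 × Bool → ℝ ≃o ℝ := fun ψ l => (ψ.1 l.1).1.trans (genA l.2)
  have ca : ∀ o, Continuous fun p : T.genSp × ℝ => p.1.1 o := fun o =>
    (continuous_apply o).comp (continuous_subtype_val.comp continuous_fst)
  obtain ⟨ψ, hb, hψ⟩ := exists_generic (M := M)
    (fun l => (genA l.2).continuous.comp (Sup.cont_eval.comp ((ca l.1).prodMk continuous_snd)))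
    (fun l => Sup.cont_symm.comp ((ca l.1).prodMk
      ((genA l.2).symm.continuous.comp continuous_snd))) Metric.isOpen_ball
    ⟨ψ₀, Metric.mem_ball_self hρ⟩
  obtain ⟨φ, eφ⟩ : ∃ φ : X2 → ℝ ≃o ℝ, φ = fun f => (ψ.1 (ob G f)).1 := ⟨_, rfl⟩
  have hf : T.Fol φ := eφ ▸ ⟨ψ.2, fun g f => by simp only [gen_ob]⟩
  have eφ' : ∀ f, (ψ.1 (ob G f)).1 = φ f := fun f => by rw [eφ]
  have hc : ∀ f t, |φ f t - φ₀ f t| ≤ ρ := fun f t => by
    rw [← eφ', ← e₀]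
    exact ((Sup.dist_le_iff hρ.le).1 ((dist_le_pi_dist ψ.1 ψ₀.1 (ob G f)).trans
      (le_of_lt hb))).1 t
  refine ⟨φ, hf, hc, fun x s hs g h hg hh => by_contra fun hne => ?_⟩
  obtain ⟨Z, ⟨η, hη, sh⟩, p, a, b, hab, ha, hb⟩ := col φ hf hc x s hs g h hg hh hne
  refine hab (hψ.comm (lev := Nd.lev) (lab := fun e => (ob G e.f, decide (2 * φ e.f e.t ≤ 1)))
    (J := ∅) (fun g e => ?_) (fun g e => ?_) (fun g p => by cases p <;> rfl) (fun g e he => ?_)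
    (fun _ _ h => h) (empty_subset _) (fun g p k => T.gen_free g p
      ((k.iff (P := fun y => y = p) fun _ h => h.elim).1 rfl)) (fun e _ => ?_)
    ⟨η, hη, fun ε hε => ?_⟩ ha hb)
  · rw [Tri.src, Tri.src, smul_pt, smul_f, T.e2, smul_t]
  · simp only [Tri.tgt, smul_f, smul_t, hf.2, T.e2, T.e1]
    split_ifs <;> rfl
  · change (ob G (g • e.f), e.t) ∈ Z
    rwa [gen_ob]
  · change genA _ ((ψ.1 (ob G e.f)).1 e.t) = _
    rw [genA_apply, eφ', Tri.tgt]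
    rcases lt_trichotomy (2 * φ e.f e.t) 1 with c | c | c
    · simp [c, c.le, Nd.lev]
    · simp [c, Nd.lev]
    · simp [c.not_ge, c.not_gt, c.ne', Nd.lev, sub_eq_add_neg]
  · choose d d0 hd using fun o => Sup.near (ψ.1 o) hε
    obtain ⟨x⟩ := T.ne
    have : Nonempty (Ob G X2) := ⟨ob G (T.d3 x 0)⟩
    obtain ⟨o₀, ho⟩ := Finite.exists_min d
    obtain ⟨δ, hδ, sh⟩ := sh _ (d0 o₀)
    refine ⟨δ, hδ, fun k k1 _ k2 k3 => ?_⟩
    obtain ⟨φ', f1, f2, f3⟩ := sh (fun z => if hz : z.2 ∈ Ioo (0 : ℝ) 1 then k ⟨z.1.out, z.2, hz⟩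
      else OrderIso.refl ℝ) fun z _ => by
        split_ifs with c
        · exact ⟨k2 ⟨_, _, c⟩, k3 _⟩
        · exact ⟨fun _ _ => rfl, fun t => by simpa using hδ.le⟩
    obtain ⟨ψ', e'⟩ := Tri.gen_mk f1
    refine ⟨ψ', (dist_pi_le_iff hε.le).2 fun o => hd o _ fun t => ?_, fun e he t ht => ?_⟩
    · obtain ⟨f, rfl⟩ := Quotient.exists_rep o
      change |(ψ'.1 (ob G f)).1 t - (ψ.1 (ob G f)).1 t| ≤ _
      rw [e', eφ']
      exact (f2 f t).trans (ho _)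
    · change genA _ ((ψ'.1 (ob G e.f)).1 t) = genA _ ((ψ.1 (ob G e.f)).1 (k e t))
      obtain ⟨g, eg⟩ := gen_out (G := G) e.f
      rw [e', eφ', f3 e.f e.t he t ht, dif_pos e.ht, ← k1 g e]
      exact congrArg (fun c => genA _ (φ e.f (k c t))) (Ar.ext eg rfl)

end Pool.Agent.Work.MP_3d425c_gt.Md

namespace Pool.Agent.Work.MP_3d425c_gt.Nv
open Set Relation Sys Pool.Agent.Work.MP_3d425c_gt.Md

variable {G X0 X1 X2 X3 : Type} [Group G] [MulAction G X0] [MulAction G X1] [MulAction G X2]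
  [MulAction G X3] {T : Tri G X0 X1 X2 X3} {φ : X2 → ℝ ≃o ℝ} {y : X3 → Fin 4 → ℝ → ℤ}

theorem fw_tb (h : T.Flat φ) {x : X3} {j : Fin 3} {s : ℝ} (hs : s ∈ Em T φ true (x, j))
    (k : Fin 4) (b : Bool) :
    T.infLev φ x k s ∈ Dm φ true (T.d3 x k, b) ↔ (k, b) ∈ surfTb j := by
  rw [surf_dm h, ← fw_jm, OrderIso.apply_symm_apply]
  exact ⟨fun ⟨i, a, c⟩ => surf_em h a hs ▸ c, fun a => ⟨j, hs, a⟩⟩

theorem fw_dm (h : T.Flat φ) (f : X2) (b : Bool) (t : ℝ) : t ∈ Dm φ true (f, b) ↔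
    t ∈ Ico (0 : ℝ) 1 ∧ b = decide (1 ≤ 2 * φ f t) := by
  have m := h.mk_mem f
  have e : t < Md.mark φ f ↔ 2 * φ f t < 1 := lt_mk f t
  cases b
  · change 0 ≤ t ∧ ¬ Md.mark φ f ≤ t ↔ _
    simp only [mem_Ico, not_le, false_eq_decide_iff, ← e]
    exact ⟨fun a => ⟨⟨a.1, a.2.trans m.2⟩, a.2⟩, fun a => ⟨a.1.1, a.2⟩⟩
  · change Md.mark φ f ≤ t ∧ ¬ 1 ≤ t ↔ _
    simp only [mem_Ico, not_le, true_eq_decide_iff, ← not_lt (a := 2 * φ f t), ← e, not_lt]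
    exact ⟨fun a => ⟨⟨m.1.le.trans a.1, a.2⟩, a.1⟩, fun a => ⟨a.2, a.1.2⟩⟩

theorem fw_em (h : T.Flat φ) {x : X3} {s : ℝ} :
    s ∈ Ico (0 : ℝ) 1 ↔ ∃ j, s ∈ Em T φ true (x, j) := by
  constructor
  · intro hs
    obtain ⟨j, a, -⟩ := (surf_dm h true x 1 _ s).1 ((fw_dm h _ _ s).2 ⟨hs, rfl⟩)
    exact ⟨j, a⟩
  · rintro ⟨j, a⟩
    obtain ⟨b, c⟩ : ∃ b, ((1 : Fin 4), b) ∈ surfTb j := by
      revert j
      simp only [Fin.forall_fin_succ]
      exact ⟨fun _ => by decide, fun _ => by decide, fun _ => by decide, fun i => i.elim0⟩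
    exact ((fw_dm h _ _ _).1 ((fw_tb h a 1 b).2 c)).1

theorem fw_sum (h : T.Flat φ) {x : X3} {j : Fin 3} {s : ℝ} (hs : s ∈ Em T φ true (x, j)) :
    ∑ k, T.fwC φ y x s k = ((surfTb j).map fun p => y x p.1 (T.infLev φ x p.1 s)).sum := by
  have e : ∀ k, T.infLev φ x k s ∈ Ico (0 : ℝ) 1 ↔ ∃ b, (k, b) ∈ surfTb j := fun k =>
    ⟨fun a => ⟨_, (fw_tb h hs k _).1 ((fw_dm h _ _ _).2 ⟨a, rfl⟩)⟩,
      fun ⟨b, a⟩ => ((fw_dm h _ _ _).1 ((fw_tb h hs k b).2 a)).1⟩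
  simp only [Tri.fwC, e, Fin.sum_univ_four]
  fin_cases j <;> simp [surfTb] <;> ring

theorem fw_surf (hy : T.Fw φ y) (h : T.Flat φ) :
    Nonempty ((sys T φ).Surf (Dm φ true) (cells T) (Em T φ true)) := by
  obtain ⟨pr, sd, p1, p2, p3⟩ := surf_pair T
  have ex : ∀ z : {α : (X2 × Bool) × ℝ // α.2 ∈ Dm φ true α.1} × Bool,
      ∃ j, T.jm φ (pr z.1.1.1.1 z.2).1 (pr z.1.1.1.1 z.2).2 z.1.1.2 ∈
        Em T φ true ((pr z.1.1.1.1 z.2).1, j) ∧ ((pr z.1.1.1.1 z.2).2, z.1.1.1.2) ∈ surfTb j :=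
    fun z => (surf_dm h true _ _ _ _).1 (by rw [p1]; exact z.1.2)
  choose ty t1 t2 using ex
  have : Finite (Ob G X3) := T.fin
  have := T.fin2
  obtain ⟨Y, hY⟩ := hy.bdd
  let L : {κ : (X3 × Fin 3) × ℝ // κ.2 ∈ Em T φ true κ.1} →
      List ({α : (X2 × Bool) × ℝ // α.2 ∈ Dm φ true α.1} × Bool) := fun κ =>
    (surfTb κ.1.1.2).attach.map fun p =>
      (⟨((T.d3 κ.1.1.1 p.1.1, p.1.2), (T.jm φ κ.1.1.1 p.1.1).symm κ.1.2), surf_arc h κ.2 p.2⟩,
        sd (κ.1.1.1, p.1.1))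
  have q3 : ∀ x k, pr (T.d3 x k) (sd (x, k)) = (x, k) := fun x k => p3 (x, k)
  refine ⟨⟨⟨fun z => ⟨(((pr z.1.1.1.1 z.2).1, ty z),
      T.jm φ (pr z.1.1.1.1 z.2).1 (pr z.1.1.1.1 z.2).2 z.1.1.2), t1 z⟩,
      fun z => surfDir (pr z.1.1.1.1 z.2).2, L, fun κ => ?_, fun κ z => ⟨fun k => ?_, ?_⟩⟩,
    fun κ => ?_, fun z => y (pr z.1.1.1.1 z.2).1 (pr z.1.1.1.1 z.2).2 z.1.1.2, Y,
    ⟨fun a => ?_, fun z => ?_, fun κ _ => ?_⟩, ⟨4, fun c => ?_⟩, fun e => ?_, fun e => ?_⟩⟩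
  · refine (List.nodup_attach.2 (surf_nodup _)).map fun p q e => ?_
    have e1 := congrArg (fun z : {α : (X2 × Bool) × ℝ // α.2 ∈ Dm φ true α.1} × Bool =>
      ((pr z.1.1.1.1 z.2).2, z.1.1.1.2)) e
    simp only [q3] at e1
    exact Subtype.ext e1
  · obtain ⟨p, -, rfl⟩ := List.mem_map.1 k
    have k1 := t1 (⟨((T.d3 κ.1.1.1 p.1.1, p.1.2), (T.jm φ κ.1.1.1 p.1.1).symm κ.1.2),
      surf_arc h κ.2 p.2⟩, sd (κ.1.1.1, p.1.1))
    simp only [q3, OrderIso.apply_symm_apply] at k1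
    refine Subtype.ext ?_
    simp only [q3, OrderIso.apply_symm_apply, surf_em h k1 κ.2]
  · rintro rfl
    refine List.mem_map.2 ⟨⟨_, t2 z⟩, List.mem_attach _ _, Prod.ext (Subtype.ext ?_) (p2 _ _)⟩
    simp only [p1, OrderIso.symm_apply_apply]
  · rw [show κ.1 = ((κ.1.1.1, κ.1.1.2), κ.1.2) from rfl, surf_bd h κ.2]
    simp only [Sq.bd, L, List.map_map, Function.comp_def, q3]
    exact List.attach_map_val (f := fun p : Fin 4 × Bool =>
      (((T.d3 κ.1.1.1 p.1, p.2), (T.jm φ κ.1.1.1 p.1).symm κ.1.2), surfDir p.1))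
  · have k := hy.anti (pr a.1.1.1 true).1 (pr a.1.1.1 true).2 (pr a.1.1.1 false).1
      (pr a.1.1.1 false).2 (fun e => by simpa [p2] using congrArg sd e) (by rw [p1, p1]) a.1.2
    simp only [k, Int.cast_neg, add_neg_cancel, le_refl]
  · exact_mod_cast hY _ _ _
  · simp only [L, List.map_map, Function.comp_def, q3, fw_jm]
    rw [List.attach_map_val (f := fun p : Fin 4 × Bool =>
      (y κ.1.1.1 p.1 (T.infLev φ κ.1.1.1 p.1 κ.1.2) : ℝ))]
    have k := hy.sur κ.1.1.1 κ.1.2 ((fw_em h).2 ⟨_, κ.2⟩)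
    rw [fw_sum h κ.2] at k
    have k' := (Int.cast_le (R := ℝ)).2 k
    rwa [Int.cast_one, Int.cast_list_sum, List.map_map] at k'
  · obtain ⟨x, j⟩ := c
    fin_cases j <;> simp [cells]
  · have k : ∀ i, {f | T.d2 f i = e}.Finite := fun i =>
      surf_fin T (fun f => T.d2 f i) (fun g f => T.e2 g f i) e
    refine ((((k 0).union (k 1)).union (k 2)).prod (finite_univ (α := Bool))).subset ?_
    rintro ⟨f, b⟩ (hw | hw)
    · exact ⟨Or.inl (Or.inr hw), trivial⟩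
    · cases b
      · exact ⟨Or.inr hw, trivial⟩
      · exact ⟨Or.inl (Or.inl hw), trivial⟩
  · exact ((surf_fin T (fun x => T.d2 (T.d3 x 2) 1) (fun g x => by rw [T.e3, T.e2]) e).prod
      (finite_univ (α := Fin 3))).subset fun c hc => ⟨hc, trivial⟩

theorem fw_nov (hD : Disc T) (hy : T.Fw φ y) (hf : T.Flat φ) : T.NC φ := by
  obtain ⟨S⟩ := fw_surf hy hf
  have cv := cv T φ
  have cr : S_cross T φ := cross
  have hA : (sys T φ).AON (Do φ) ((sys T φ).Ho (Do φ) (Dm φ true) (cells T) (Em T φ true)) := by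
    refine aon_ho ?_ (cv hf true) (cv hf false) S ?_ ?_ ?_ ?_ fun x p q hp hq =>
      ⟨aon_cross (do_sub false) (cv hf true) (cv hf false) (cr hD hf false) hp hq,
        aon_cross (do_sub true) (cv hf false) (cv hf true) (cr hD hf true) hp hq⟩
    · rintro ⟨f, _ | _⟩ <;> exact ordConnected_Ioo
    · rintro ⟨f, _ | _⟩ <;> exact fc2_gt _ _
    · rintro ⟨x, i⟩
      fin_cases i <;> exact fc2_gt _ _
    · rintro ⟨f, _ | _⟩ <;> exact fc2_lt _ _
    · rintro ⟨x, i⟩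
      fin_cases i <;> exact fc2_lt _ _
  refine dual_nc hf fun b a a' p d e => ?_
  have := (cong_ho (do_sub true) (cv hf true)).go_eq (nov_of_aon hD hf hA d (congrArg Prod.fst e))
  rw [e] at this
  exact (congrArg Prod.snd this).symm

end Pool.Agent.Work.MP_3d425c_gt.Nv
end
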