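import Pool.Agent.Work.MP_3d425c_gt.Ta.Defs
import Pool.Agent.Work.MP_3d425c_gt.Ta.Fw
import Pool.Agent.Work.MP_3d425c_gt.Md.Flow

-- merged part: Pool.Agent.Work.MP_3d425c_gt.Ta.Link
section
/-! Every component of an upper or lower vertex link meets the equator. -/

namespace Pool.Agent.Work.MP_3d425c_gt.Md
open Set Relation

variable {G X0 X1 X2 X3 : Type} [Group G] [MulAction G X0] [MulAction G X1] [MulAction G X2]
  [MulAction G X3]

/-- a property of (face, edge index) that passes round edges gives a potential -/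
theorem Tri.link_pot (T : Tri G X0 X1 X2 X3) (R : X2 × Fin 3 → Prop)
    (hR : ∀ x (i j : Fin 3), i ≤ j → (R (T.d3 x j.succ, i) ↔ R (T.d3 x i.castSucc, j)))
    (hc : ∀ f, (R (f, 1) ↔ R (f, 2) ∨ R (f, 0)) ∧ ¬ (R (f, 2) ∧ R (f, 0))) :
    ∃ s : X0 → ℝ, ∀ f i, (R (f, i) → s (T.d1 (T.d2 f i) 0) = s (T.d1 (T.d2 f i) 1) + 1) ∧
      (¬ R (f, i) → s (T.d1 (T.d2 f i) 0) = s (T.d1 (T.d2 f i) 1)) := by
  classical
  have wd : ∀ p q : X2 × Fin 3, T.d2 p.1 p.2 = T.d2 q.1 q.2 → (R p ↔ R q) := fun p q h => by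
    have h' := T.link p q h
    clear h
    induction h' with
    | rel p q h =>
      obtain ⟨x, i, j, hij, rfl, rfl⟩ := h
      exact hR x i j hij
    | refl => rfl
    | symm _ _ _ ih => exact ih.symm
    | trans _ _ _ _ _ i1 i2 => exact i1.trans i2
  have e : ∀ f i, (∃ p : X2 × Fin 3, T.d2 p.1 p.2 = T.d2 f i ∧ R p) ↔ R (f, i) := fun f i =>
    ⟨fun ⟨p, a, b⟩ => (wd p (f, i) a).1 b, fun h => ⟨(f, i), rfl, h⟩⟩
  obtain ⟨s, hs⟩ := T.h1 (fun e => if ∃ p : X2 × Fin 3, T.d2 p.1 p.2 = e ∧ R p then 1 else 0)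
    fun f => by
      simp only [e]
      have := hc f
      by_cases a : R (f, 2) <;> by_cases b : R (f, 0) <;> simp_all
  refine ⟨s, fun f i => ?_⟩
  have := hs (T.d2 f i)
  simp only [e] at this
  constructor <;> intro h
  · rw [if_pos h] at this
    linarith
  · rw [if_neg h] at this
    linarith

theorem Tri.const_face (T : Tri G X0 X1 X2 X3) {α : Type*} (u : X2 → α)
    (h : ∀ x k, u (T.d3 x k) = u (T.d3 x 0)) (f f' : X2) : u f = u f' := by
  obtain ⟨x, k, rfl⟩ := T.face_surj f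
  obtain ⟨y, l, rfl⟩ := T.face_surj f'
  rw [h x, h y]
  induction T.conn x y with
  | rel x y k =>
    obtain ⟨k, l, e⟩ := k
    rw [← h x k, e, h]
  | refl => rfl
  | symm _ _ _ ih => exact ih.symm
  | trans _ _ _ _ _ i1 i2 => exact i1.trans i2

/-- Induction over upper links, starting at the equator. -/
theorem Tri.up_link (T : Tri G X0 X1 X2 X3)
    (mid : ∀ x, ∃ f, T.d1 (T.d2 f 2) 0 = T.d1 (T.d2 (T.d3 x 1) 1) 1) (P : X2 → Prop)
    (h0 : ∀ y, P (T.d3 y 0))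
    (hs : ∀ x, (P (T.d3 x 1) ↔ P (T.d3 x 2)) ∧ (P (T.d3 x 2) ↔ P (T.d3 x 3))) (x : X3) :
    P (T.d3 x 1) := by
  by_contra hn
  obtain ⟨f, hf⟩ := mid x
  generalize hv : T.d1 (T.d2 (T.d3 x 1) 1) 1 = v at hf
  have b : ∀ y, T.d1 (T.d2 (T.d3 y 2) 1) 1 = T.d1 (T.d2 (T.d3 y 1) 1) 1 ∧
      T.d1 (T.d2 (T.d3 y 3) 1) 1 = T.d1 (T.d2 (T.d3 y 1) 1) 1 := fun y =>
    ⟨congrArg (T.d1 · 1) (T.s3 y 1 1 le_rfl),
      (congrArg (T.d1 · 1) (T.s3 y 1 2 (by decide))).trans (T.s2 _ 1 1 le_rfl)⟩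
  obtain ⟨s, hs'⟩ := T.link_pot (fun p => p.2 ≠ 0 ∧ ¬ P p.1 ∧ T.d1 (T.d2 p.1 1) 1 = v)
    (fun y i j hij => by
      have := h0 y
      have := hs y
      have := b y
      fin_cases i <;> fin_cases j <;> simp_all) fun f => by simp
  have z : ∀ f, s (T.d1 (T.d2 f 0) 0) = s (T.d1 (T.d2 f 0) 1) := fun f =>
    (hs' f 0).2 fun h => h.1 rfl
  have c := T.const_face (fun f => s (T.d1 (T.d2 f 0) 0)) (fun y k => by
    fin_cases k
    · rfl
    · exact congrArg (fun e => s (T.d1 e 0)) (T.s3 y 0 0 le_rfl)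
    · exact congrArg s ((congrArg (T.d1 · 0) (T.s3 y 0 1 (by decide))).trans (T.s2 _ 0 0 le_rfl))
    · exact (congrArg s ((congrArg (T.d1 · 0) (T.s3 y 0 2 (by decide))).trans
        (T.s2 _ 0 1 (by decide)))).trans (z _).symm) f (T.d3 x 1)
  have e := (hs' (T.d3 x 1) 1).1 ⟨one_ne_zero, hn, hv⟩
  have e1 : T.d1 (T.d2 f 2) 0 = T.d1 (T.d2 f 0) 1 := T.s2 f 0 1 (by decide)
  have e2 : T.d1 (T.d2 (T.d3 x 1) 1) 0 = T.d1 (T.d2 (T.d3 x 1) 0) 0 := T.s2 _ 0 0 le_rfl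
  rw [hv, e2, ← c, z, ← e1, hf] at e
  linarith

/-- Induction over lower links, starting at the equator. -/
theorem Tri.low_link (T : Tri G X0 X1 X2 X3)
    (mid : ∀ x, ∃ f, T.d1 (T.d2 f 2) 0 = T.d1 (T.d2 (T.d3 x 1) 1) 0) (P : X2 → Prop)
    (h3 : ∀ y, P (T.d3 y 3))
    (hs : ∀ x, (P (T.d3 x 0) ↔ P (T.d3 x 1)) ∧ (P (T.d3 x 1) ↔ P (T.d3 x 2))) (x : X3) :
    P (T.d3 x 1) := by
  by_contra hn
  obtain ⟨f, hf⟩ := mid x
  generalize hv : T.d1 (T.d2 (T.d3 x 1) 1) 0 = v at hf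
  have b : ∀ y, T.d1 (T.d2 (T.d3 y 2) 1) 0 = T.d1 (T.d2 (T.d3 y 1) 1) 0 ∧
      T.d1 (T.d2 (T.d3 y 0) 1) 0 = T.d1 (T.d2 (T.d3 y 1) 1) 0 := fun y =>
    ⟨congrArg (T.d1 · 0) (T.s3 y 1 1 le_rfl), (T.s2 _ 0 0 le_rfl).trans
      ((congrArg (T.d1 · 0) (T.s3 y 0 0 le_rfl).symm).trans (T.s2 _ 0 0 le_rfl).symm)⟩
  obtain ⟨s, hs'⟩ := T.link_pot (fun p => p.2 ≠ 2 ∧ ¬ P p.1 ∧ T.d1 (T.d2 p.1 1) 0 = v)
    (fun y i j hij => by
      have := h3 y
      have := hs y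
      have := b y
      fin_cases i <;> fin_cases j <;> simp_all) fun f => by simp
  have z : ∀ f, s (T.d1 (T.d2 f 2) 0) = s (T.d1 (T.d2 f 2) 1) := fun f =>
    (hs' f 2).2 fun h => h.1 rfl
  have c := T.const_face (fun f => s (T.d1 (T.d2 f 2) 1)) (fun y k => by
    have a : s (T.d1 (T.d2 (T.d3 y 3) 2) 1) = s (T.d1 (T.d2 (T.d3 y 0) 2) 1) :=
      (z _).symm.trans (congrArg s ((T.s2 _ 0 1 (by decide)).trans
        (congrArg (T.d1 · 1) (T.s3 y 0 2 (by decide)))))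
    fin_cases k
    · rfl
    · exact (congrArg s ((congrArg (T.d1 · 1) (T.s3 y 1 2 (by decide)).symm).trans
        (T.s2 _ 1 1 le_rfl).symm)).trans a
    · exact (congrArg (fun e => s (T.d1 e 1)) (T.s3 y 2 2 le_rfl).symm).trans a
    · exact a) f (T.d3 x 1)
  have e := (hs' (T.d3 x 1) 1).1 ⟨(by decide : (1 : Fin 3) ≠ 2), hn, hv⟩
  have e2 : T.d1 (T.d2 (T.d3 x 1) 2) 1 = T.d1 (T.d2 (T.d3 x 1) 1) 1 := T.s2 _ 1 1 le_rfl
  rw [hv, ← e2, ← c, ← z, hf] at e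
  linarith

end Pool.Agent.Work.MP_3d425c_gt.Md
end

-- merged part: Pool.Agent.Work.MP_3d425c_gt.Ta.Zero
section
/-! A taut foliation has no approximately invariant monotone potentials. -/

namespace Pool.Agent.Work.MP_3d425c_gt.Md
open Set Relation Filter Topology

variable {G X0 X1 X2 X3 : Type} [Group G] [MulAction G X0] [MulAction G X1] [MulAction G X2]
  [MulAction G X3] {T : Tri G X0 X1 X2 X3} {φ : X2 → ℝ ≃o ℝ}

/-- A sequence of invariant monotone functions that are more and more constant on leaves. -/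
structure Tri.Apx (T : Tri G X0 X1 X2 X3) (φ : X2 → ℝ ≃o ℝ) (A : ℕ → X3 → ℝ → ℝ)
    (B C : ℕ → X2 → ℝ) : Prop where
  mono : ∀ m x, Monotone (A m x)
  inv : ∀ m (g : G) x, A m (g • x) = A m x
  step : ∀ x k y l t t', T.d3 x k = T.d3 y l → 0 ≤ t → t < t' → t' ≤ 1 →
    ∀ᶠ m in atTop, A m x (T.pos φ x k t) ≤ A m y (T.pos φ y l t')
  b0 : ∀ x v, v < T.pos φ x 0 0 → ∀ᶠ m in atTop, A m x v ≤ B m (T.d3 x 0)
  b1 : ∀ m x k, k ≠ 0 → B m (T.d3 x k) = A m x 0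
  t3 : ∀ x u, T.pos φ x 3 1 < u → ∀ᶠ m in atTop, C m (T.d3 x 3) ≤ A m x u
  t1 : ∀ m x k, k ≠ 3 → C m (T.d3 x k) = A m x 1

variable {A : ℕ → X3 → ℝ → ℝ} {B C : ℕ → X2 → ℝ}

theorem zero_up (x : X3) (k : Fin 4) {t v : ℝ} (ht : t < 1) (h : T.pos φ x k t < v) :
    ∃ r, t < r ∧ r ≤ 1 ∧ T.pos φ x k r ≤ v := by
  refine ⟨min 1 ((T.jm φ x k).symm v), lt_min ht ?_, min_le_left _ _, ?_⟩
  · rwa [OrderIso.lt_symm_apply, jm_apply]
  · rw [← jm_apply, ← OrderIso.le_symm_apply]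
    exact min_le_right _ _

theorem zero_down (x : X3) (k : Fin 4) {t v : ℝ} (ht : 0 < t) (h : v < T.pos φ x k t) :
    ∃ r, r < t ∧ 0 ≤ r ∧ v ≤ T.pos φ x k r := by
  refine ⟨max 0 ((T.jm φ x k).symm v), max_lt ht ?_, le_max_left _ _, ?_⟩
  · rwa [OrderIso.symm_apply_lt, jm_apply]
  · rw [← jm_apply, ← OrderIso.symm_apply_le]
    exact le_max_right _ _

/-- slack passes along a leaf -/
def zeroW (A : ℕ → X3 → ℝ → ℝ) (p q : X3 × ℝ) : Prop :=
  (∀ v, q.2 < v → ∃ u, p.2 < u ∧ ∀ᶠ m in atTop, A m p.1 u ≤ A m q.1 v) ∧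
    ∀ u, u < p.2 → ∃ v, v < q.2 ∧ ∀ᶠ m in atTop, A m p.1 u ≤ A m q.1 v

theorem zeroW.trans {p q r : X3 × ℝ} (h : zeroW A p q) (k : zeroW A q r) : zeroW A p r := by
  refine ⟨fun v hv => ?_, fun u hu => ?_⟩
  · obtain ⟨w, a, b⟩ := k.1 v hv
    obtain ⟨u, c, d⟩ := h.1 w a
    exact ⟨u, c, (d.and b).mono fun m e => e.1.trans e.2⟩
  · obtain ⟨w, a, b⟩ := h.2 u hu
    obtain ⟨v, c, d⟩ := k.2 w a
    exact ⟨v, c, (b.and d).mono fun m e => e.1.trans e.2⟩

theorem Tri.Apx.arc (h : T.Apx φ A B C) {x y : X3} {k l : Fin 4} (e : T.d3 x k = T.d3 y l) {t : ℝ}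
    (ht : t ∈ Ioo (0 : ℝ) 1) : zeroW A (x, T.pos φ x k t) (y, T.pos φ y l t) := by
  refine ⟨fun v hv => ?_, fun u hu => ?_⟩
  · obtain ⟨r, a, b, c⟩ := zero_up y l ht.2 hv
    obtain ⟨w, d, f⟩ := exists_between a
    exact ⟨_, pos_mono x k d, (h.step x k y l w r e (ht.1.trans d).le f b).mono
      fun m i => i.trans (h.mono m y c)⟩
  · obtain ⟨r, a, b, c⟩ := zero_down x k ht.1 hu
    obtain ⟨w, d, f⟩ := exists_between a
    exact ⟨_, pos_mono y l f, (h.step x k y l r w e b d (f.trans ht.2).le).mono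
      fun m i => (h.mono m x c).trans i⟩

theorem Tri.Apx.lf (h : T.Apx φ A B C) {p q : X3 × ℝ} (k : EqvGen (T.Step φ) p q) :
    zeroW A p q ∧ zeroW A q p := by
  induction k with
  | rel p q k =>
    obtain ⟨k, l, t, ht, e, a, b⟩ := k
    rw [show p = (p.1, T.pos φ p.1 k t) from Prod.ext rfl a,
      show q = (q.1, T.pos φ q.1 l t) from Prod.ext rfl b]
    exact ⟨h.arc e ht, h.arc e.symm ht⟩
  | refl p =>
    have : zeroW A p p := ⟨fun v hv => ⟨v, hv, .of_forall fun _ => le_rfl⟩,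
      fun v hv => ⟨v, hv, .of_forall fun _ => le_rfl⟩⟩
    exact ⟨this, this⟩
  | symm p q _ ih => exact ih.symm
  | trans p q r _ _ i j => exact ⟨i.1.trans j.1, j.2.trans i.2⟩

theorem Tri.Apx.rise (h : T.Apx φ A B C) {p q : X3 × ℝ} (k : TransGen (T.Rise φ) p q) :
    ∃ u v, p.2 < u ∧ v < q.2 ∧ ∀ᶠ m in atTop, A m p.1 u ≤ A m q.1 v := by
  have one : ∀ p q, T.Rise φ p q →
      ∃ u v, p.2 < u ∧ v < q.2 ∧ ∀ᶠ m in atTop, A m p.1 u ≤ A m q.1 v := by
    rintro p q ⟨y, t, t', a, b, c⟩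
    obtain ⟨w, d, e⟩ := exists_between a
    obtain ⟨u, u1, u2⟩ := (h.lf b).1.1 w d
    obtain ⟨v, v1, v2⟩ := (h.lf c).1.2 w e
    exact ⟨u, v, u1, v1, (u2.and v2).mono fun m i => i.1.trans i.2⟩
  induction k with
  | single k => exact one _ _ k
  | tail _ k ih =>
    obtain ⟨u, v, a, b, c⟩ := ih
    obtain ⟨u', v', a', b', c'⟩ := one _ _ k
    exact ⟨u, v', a, b', (c.and c').mono fun m i =>
      (i.1.trans (h.mono m _ (b.trans a').le)).trans i.2⟩

theorem Tri.Apx.inner (h : T.Apx φ A B C) (ht : T.Taut φ) (x : X3) {s : ℝ}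
    (hs : s ∈ Ioo (0 : ℝ) 1) : ∃ u v, s < u ∧ v < s ∧ ∀ᶠ m in atTop, A m x u ≤ A m x v := by
  obtain ⟨g, k⟩ := ht x s hs
  obtain ⟨u, v, a, b, c⟩ := h.rise k
  exact ⟨u, v, a, b, c.mono fun m i => by rwa [h.inv] at i⟩

theorem Tri.Apx.bot (h : T.Apx φ A B C) (hf : T.Flat φ) (ht : T.Taut φ)
    (mid : ∀ v, ∃ f, T.d1 (T.d2 f 2) 0 = v) (x : X3) :
    ∃ u, 0 < u ∧ ∀ᶠ m in atTop, A m x u ≤ A m x 0 := by
  have key : ∀ y l u, T.pos φ y l 0 < u → (∀ᶠ m in atTop, A m y u ≤ B m (T.d3 y l)) →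
      ∃ θ, 0 < θ ∧ ∀ x k, T.d3 x k = T.d3 y l →
        ∀ᶠ m in atTop, A m x (T.pos φ x k θ) ≤ B m (T.d3 y l) := fun y l u a b => by
    obtain ⟨r, r1, r2, r3⟩ := zero_up y l one_pos a
    obtain ⟨θ, c, d⟩ := exists_between r1
    exact ⟨θ, c, fun x k e => ((h.step x k y l θ r e c.le d r2).and b).mono
      fun m i => (i.1.trans (h.mono m y r3)).trans i.2⟩
  have z : ∀ y k, k ≠ 0 → T.pos φ y k 0 = 0 := fun y k hk => by
    fin_cases k
    exacts [absurd rfl hk, rfl, rfl, hf.pos3_zero y]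
  have mv : ∀ y k l, k ≠ 0 → l ≠ 0 → (∃ θ, 0 < θ ∧ ∀ x j, T.d3 x j = T.d3 y k →
      ∀ᶠ m in atTop, A m x (T.pos φ x j θ) ≤ B m (T.d3 y k)) → ∃ θ, 0 < θ ∧ ∀ x j,
      T.d3 x j = T.d3 y l → ∀ᶠ m in atTop, A m x (T.pos φ x j θ) ≤ B m (T.d3 y l) :=
    fun y k l hk hl ⟨θ, a, b⟩ => key y l (T.pos φ y k θ)
      (by rw [z y l hl, ← z y k hk]; exact pos_mono y k a)
      ((b y k rfl).mono fun m i => by rwa [h.b1 m y l hl, ← h.b1 m y k hk])
  obtain ⟨θ, a, b⟩ := T.up_link (fun x => mid _) (fun f => ∃ θ, 0 < θ ∧ ∀ x k, T.d3 x k = f →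
    ∀ᶠ m in atTop, A m x (T.pos φ x k θ) ≤ B m f) (fun y => by
      obtain ⟨u, v, a, b, c⟩ := h.inner ht y (s := T.pos φ y 0 0)
        (Tri.Flat.pos0_zero (T := T) (φ := φ) y ▸ hf.mk_mem _)
      exact key y 0 u a ((c.and (h.b0 y v b)).mono fun m i => i.1.trans i.2))
    (fun y => ⟨⟨mv y 1 2 (by decide) (by decide), mv y 2 1 (by decide) (by decide)⟩,
      mv y 2 3 (by decide) (by decide), mv y 3 2 (by decide) (by decide)⟩) x
  exact ⟨θ, a, (b x 1 rfl).mono fun m i => by rwa [h.b1 m x 1 (by decide)] at i⟩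

theorem Tri.Apx.top (h : T.Apx φ A B C) (hf : T.Flat φ) (ht : T.Taut φ)
    (mid : ∀ v, ∃ f, T.d1 (T.d2 f 2) 0 = v) (x : X3) :
    ∃ v, v < 1 ∧ ∀ᶠ m in atTop, A m x 1 ≤ A m x v := by
  have key : ∀ y l v, v < T.pos φ y l 1 → (∀ᶠ m in atTop, C m (T.d3 y l) ≤ A m y v) →
      ∃ θ, θ < 1 ∧ ∀ x k, T.d3 x k = T.d3 y l →
        ∀ᶠ m in atTop, C m (T.d3 y l) ≤ A m x (T.pos φ x k θ) := fun y l v a b => by
    obtain ⟨r, r1, r2, r3⟩ := zero_down y l one_pos a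
    obtain ⟨θ, c, d⟩ := exists_between r1
    exact ⟨θ, d, fun x k e => ((h.step y l x k r θ e.symm r2 c d.le).and b).mono
      fun m i => (i.2.trans (h.mono m y r3)).trans i.1⟩
  have z : ∀ y k, k ≠ 3 → T.pos φ y k 1 = 1 := fun y k hk => by
    fin_cases k
    exacts [hf.pos0_one y, rfl, rfl, absurd rfl hk]
  have mv : ∀ y k l, k ≠ 3 → l ≠ 3 → (∃ θ, θ < 1 ∧ ∀ x j, T.d3 x j = T.d3 y k →
      ∀ᶠ m in atTop, C m (T.d3 y k) ≤ A m x (T.pos φ x j θ)) → ∃ θ, θ < 1 ∧ ∀ x j,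
      T.d3 x j = T.d3 y l → ∀ᶠ m in atTop, C m (T.d3 y l) ≤ A m x (T.pos φ x j θ) :=
    fun y k l hk hl ⟨θ, a, b⟩ => key y l (T.pos φ y k θ)
      (by rw [z y l hl, ← z y k hk]; exact pos_mono y k a)
      ((b y k rfl).mono fun m i => by rwa [h.t1 m y l hl, ← h.t1 m y k hk])
  obtain ⟨θ, a, b⟩ := T.low_link (fun x => mid _) (fun f => ∃ θ, θ < 1 ∧ ∀ x k, T.d3 x k = f →
    ∀ᶠ m in atTop, C m f ≤ A m x (T.pos φ x k θ)) (fun y => by
      obtain ⟨u, v, a, b, c⟩ := h.inner ht y (s := T.pos φ y 3 1) (hf.mk_mem (T.d3 y 1))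
      exact key y 3 v b ((c.and (h.t3 y u a)).mono fun m i => i.2.trans i.1))
    (fun y => ⟨⟨mv y 0 1 (by decide) (by decide), mv y 1 0 (by decide) (by decide)⟩,
      mv y 1 2 (by decide) (by decide), mv y 2 1 (by decide) (by decide)⟩) x
  exact ⟨θ, a, (b x 1 rfl).mono fun m i => by rwa [h.t1 m x 1 (by decide)] at i⟩

theorem Tri.Apx.zero (h : T.Apx φ A B C) (hf : T.Flat φ) (ht : T.Taut φ)
    (mid : ∀ v, ∃ f, T.d1 (T.d2 f 2) 0 = v) : ∀ᶠ m in atTop, ∀ x, A m x 1 ≤ A m x 0 := by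
  have one : ∀ x, ∀ᶠ m in atTop, A m x 1 ≤ A m x 0 := fun x => by
    refine isPreconnected_Icc.induction₂' (fun a b => ∀ᶠ m in atTop, A m x a ≤ A m x b)
      (fun s hs => ?_) (fun a b c _ _ _ i j => (i.and j).mono fun m e => e.1.trans e.2)
      (right_mem_Icc.2 zero_le_one) (left_mem_Icc.2 zero_le_one)
    obtain ⟨u, v, a, b, c⟩ : ∃ u v, s < u ∧ v < s ∧
        ∀ᶠ m in atTop, A m x (min u 1) ≤ A m x (max v 0) := by
      rcases hs.1.eq_or_lt with rfl | h0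
      · obtain ⟨u, a, b⟩ := h.bot hf ht mid x
        exact ⟨u, -1, a, by norm_num, b.mono fun m i =>
          ((h.mono m x (min_le_left _ _)).trans i).trans (h.mono m x (le_max_right _ _))⟩
      rcases hs.2.eq_or_lt with rfl | h1
      · obtain ⟨v, a, b⟩ := h.top hf ht mid x
        exact ⟨2, v, by norm_num, a, b.mono fun m i =>
          ((h.mono m x (min_le_right _ _)).trans i).trans (h.mono m x (le_max_left _ _))⟩
      · obtain ⟨u, v, a, b, c⟩ := h.inner ht x ⟨h0, h1⟩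
        exact ⟨u, v, a, b, c.mono fun m i =>
          ((h.mono m x (min_le_left _ _)).trans i).trans (h.mono m x (le_max_left _ _))⟩
    filter_upwards [self_mem_nhdsWithin, mem_nhdsWithin_of_mem_nhds (Ioo_mem_nhds b a)] with w w1 w2
    exact ⟨c.mono fun m i => ((h.mono m x (le_min a.le hs.2)).trans i).trans
        (h.mono m x (max_le w2.1.le w1.1)),
      c.mono fun m i => ((h.mono m x (le_min w2.2.le w1.2)).trans i).trans
        (h.mono m x (max_le b.le hs.1))⟩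
  have : Finite (Ob G X3) := T.fin
  refine (eventually_all.2 fun o : Ob G X3 => one o.out).mono fun m i x => ?_
  obtain ⟨g, e⟩ := ob_eq_iff.1 (ob_out (ob G x))
  have := i (ob G x)
  rwa [← e, h.inv] at this

end Pool.Agent.Work.MP_3d425c_gt.Md
end

-- merged part: Pool.Agent.Work.MP_3d425c_gt.Ta.Ball
section
/-! Near a taut foliation every foliation has a flow with surplus. -/

namespace Pool.Agent.Work.MP_3d425c_gt.Md
open Set Relation Filter Pool.Agent.Work.MP_3d425c_gt.Gn Pool.Agent.Work.MP_3d425c_gt.Cy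

variable {G X0 X1 X2 X3 : Type} [Group G] [MulAction G X0] [MulAction G X1] [MulAction G X2]
  [MulAction G X3] {T : Tri G X0 X1 X2 X3} {φ : X2 → ℝ ≃o ℝ}

open Classical in
/-- Either a flow with surplus on all samples, or a balanced content. -/
theorem Tri.farkas (T : Tri G X0 X1 X2 X3) {ι J : Type} [Fintype J]
    (a : X3 → ι → Fin 4 → J → Prop) (ha : ∀ (g : G) x, a (g • x) = a x) :
    (∃ Y : X3 → Fin 4 → J → ℤ, (∀ (g : G) x, Y (g • x) = Y x) ∧
      (∀ x k x' k', (x, k) ≠ (x', k') → T.d3 x k = T.d3 x' k' → ∀ j, Y x' k' j = - Y x k j) ∧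
      ∀ x c, 1 ≤ ∑ k, ∑ j, if a x c k j then Y x k j else 0) ∨
    ∃ μ : X3 → Set ι → ℝ, (∀ (g : G) x, μ (g • x) = μ x) ∧ (∀ x, Monotone (μ x)) ∧
      (∀ x Q R, μ x Q = μ x (Q ∩ R) + μ x (Q \ R)) ∧ (∃ x, 0 < μ x univ) ∧
      ∀ x k x' k', T.d3 x k = T.d3 x' k' → ∀ j, μ x {c | a x c k j} = μ x' {c | a x' c k' j} := by
  have := T.fin
  have := Fintype.ofFinite (Ob G X3)
  obtain ⟨σ, hσ⟩ := inf_oth T
  have σσ : ∀ p, σ (σ p) = p := fun p =>
    (((hσ (σ p)).2.2 p (hσ p).2.1).resolve_left (hσ p).1).symm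
  have σg : ∀ (g : G) x k, σ (g • x, k) = (g • (σ (x, k)).1, (σ (x, k)).2) := fun g x k => by
    refine (((hσ (g • x, k)).2.2 _ (by simp only [T.e3, ← (hσ (x, k)).2.1])).resolve_left
      fun e => (hσ (x, k)).1 ?_).symm
    rw [Prod.ext_iff] at e ⊢
    exact ⟨(smul_left_cancel g e.1).symm, e.2.symm⟩
  let τ : Ob G X3 × Fin 4 → Ob G X3 × Fin 4 := fun i =>
    (ob G (σ (i.1.out, i.2)).1, (σ (i.1.out, i.2)).2)
  have hτ : ∀ p : X3 × Fin 4, τ (ob G p.1, p.2) = (ob G (σ p).1, (σ p).2) := fun p => by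
    obtain ⟨g, hg⟩ := inf_out (G := G) p.1
    simp only [τ, hg, σg, ob_smul]
  have ττ : ∀ i, τ (τ i) = i := fun i => by
    obtain ⟨c, k⟩ := i
    obtain ⟨x, rfl⟩ := ob_surj c
    exact (congrArg τ (hτ (x, k))).trans ((hτ _).trans (by rw [σσ]))
  have e1 : ∀ x k x' k', (x, k) ≠ (x', k') → T.d3 x k = T.d3 x' k' →
      τ (ob G x, k) = (ob G x', k') := fun x k x' k' ne e => by
    rw [hτ (x, k), ← ((hσ (x, k)).2.2 (x', k') e.symm).resolve_left ne.symm]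
  have ao : ∀ x, a (ob G x).out = a x := fun x => by
    obtain ⟨g, hg⟩ := inf_out (G := G) x
    rw [hg, ha]
  let κ := {q : Ob G X3 × (Fin 4 → J → Prop) // ∃ c, a q.1.out c = q.2}
  have := Fintype.ofFinite κ
  choose r hr using fun q : κ => q.2
  let e : κ → Ob G X3 × Fin 4 → J → ℤ := fun q i j => if i.1 = q.1.1 ∧ q.1.2 i.2 j then 1 else 0
  rw [or_iff_not_imp_right]
  intro hμ
  obtain ⟨w, hw⟩ := Sk.farkas_int
    (fun (q : κ) (z : (Ob G X3 × Fin 4) × J) => e q z.1 z.2 - e q (τ z.1) z.2)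
    fun n hn b q => by
      by_contra hq
      have sm : ∀ x k j, (∑ q, if ob G x = q.1.1 ∧ a x (r q) k j then n q else 0) =
          ∑ q, n q * (e q (ob G x, k) j : ℝ) := fun x k j => Finset.sum_congr rfl fun q _ => by
        by_cases h : ob G x = q.1.1
        · simp only [e, ← hr q, ← h, ao]
          split_ifs <;> simp
        · simp [e, h]
      refine hμ ⟨fun x Q => ∑ q, if ob G x = q.1.1 ∧ r q ∈ Q then n q else 0,
        fun g x => by simp only [ob_smul], fun x Q R h => Finset.sum_le_sum fun q _ => ?_,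
        fun x Q R => ?_, ⟨q.1.1.out, Finset.sum_pos' (fun q _ => ?_) ⟨q, Finset.mem_univ _, ?_⟩⟩,
        fun x k x' k' h j => ?_⟩
      · split_ifs with h1 h2
        exacts [le_rfl, absurd ⟨h1.1, h h1.2⟩ h2, hn q, le_rfl]
      · rw [← Finset.sum_add_distrib]
        refine Finset.sum_congr rfl fun q _ => ?_
        by_cases h1 : r q ∈ R <;> simp [h1]
      · split_ifs
        exacts [hn q, le_rfl]
      · rw [if_pos ⟨ob_out _, trivial⟩]
        exact lt_of_le_of_ne (hn q) (Ne.symm hq)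
      · by_cases ne : (x, k) = (x', k')
        · obtain ⟨rfl, rfl⟩ := Prod.mk.inj ne
          rfl
        · have := b ((ob G x, k), j)
          push_cast at this
          simp only [mul_sub, Finset.sum_sub_distrib, e1 _ _ _ _ ne h, sub_eq_zero] at this
          exact (sm x k j).trans (this.trans (sm x' k' j).symm)
  refine ⟨fun x k j => w ((ob G x, k), j) - w (τ (ob G x, k), j), fun g x => by simp only [ob_smul],
    fun x k x' k' ne h j => by simp only [← e1 _ _ _ _ ne h, ττ, neg_sub], fun x c => ?_⟩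
  let q : κ := ⟨(ob G x, a x c), c, by rw [ao]⟩
  refine (hw q).trans_eq ?_
  have s : ∑ z : (Ob G X3 × Fin 4) × J, w z * e q (τ z.1) z.2 =
      ∑ z : (Ob G X3 × Fin 4) × J, w (τ z.1, z.2) * e q z.1 z.2 :=
    Finset.sum_equiv ((Function.Involutive.toPerm τ ττ).prodCongr (Equiv.refl _)) (by simp)
      fun z _ => by simp [ττ]
  simp only [mul_sub, Finset.sum_sub_distrib, s]
  rw [← Finset.sum_sub_distrib, Fintype.sum_prod_type, Fintype.sum_prod_type,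
    Finset.sum_eq_single (ob G x)]
  · simp only [← sub_mul]
    simp only [e, q, true_and, mul_ite, mul_one, mul_zero]
  · intro c _ hc
    simp [e, q, hc]
  · simp

/-- The height of the lowest vertex of a face. -/
theorem Tri.height (T : Tri G X0 X1 X2 X3) (h0 : NoHom G) (lo tt : X2 → ℝ)
    (hl : ∀ (g : G) f, lo (g • f) = lo f)
    (e : ∀ x, lo (T.d3 x 3) = lo (T.d3 x 2) ∧ tt (T.d3 x 3) = lo (T.d3 x 1) ∧
      tt (T.d3 x 2) = tt (T.d3 x 1) ∧ lo (T.d3 x 2) + lo (T.d3 x 0) = lo (T.d3 x 1) ∧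
      lo (T.d3 x 2) + tt (T.d3 x 0) = tt (T.d3 x 1)) :
    ∃ S : X2 → ℝ, (∀ (g : G) f, S (g • f) = S f) ∧ ∀ x, S (T.d3 x 2) = S (T.d3 x 1) ∧
      S (T.d3 x 3) = S (T.d3 x 1) ∧ S (T.d3 x 0) = S (T.d3 x 1) + lo (T.d3 x 2) := by
  classical
  let len : X2 × Fin 3 → ℝ := fun p => ![tt p.1 - lo p.1, tt p.1, lo p.1] p.2
  have wd : ∀ p q : X2 × Fin 3, T.d2 p.1 p.2 = T.d2 q.1 q.2 → len p = len q := fun p q h => by
    have h' := T.link p q h
    clear h
    induction h' with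
    | rel p q h =>
      obtain ⟨x, i, j, hij, rfl, rfl⟩ := h
      obtain ⟨a0, a1, a2, a3, a4⟩ := e x
      fin_cases i <;> fin_cases j <;> simp [len] at hij ⊢ <;> linarith
    | refl => rfl
    | symm _ _ _ ih => exact ih.symm
    | trans _ _ _ _ _ i1 i2 => exact i1.trans i2
  let z : X1 → ℝ := fun e => if h : ∃ p : X2 × Fin 3, T.d2 p.1 p.2 = e then len h.choose else 0
  have hz : ∀ f i, z (T.d2 f i) = len (f, i) := fun f i => by
    have h : ∃ p : X2 × Fin 3, T.d2 p.1 p.2 = T.d2 f i := ⟨(f, i), rfl⟩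
    simp only [z, dif_pos h]
    exact wd _ _ h.choose_spec
  obtain ⟨s, hs⟩ := T.h1 z fun f => by simp [hz, len]
  let S : X2 → ℝ := fun f => s (T.d1 (T.d2 f 2) 1)
  have hS : ∀ x, S (T.d3 x 2) = S (T.d3 x 1) ∧ S (T.d3 x 3) = S (T.d3 x 1) ∧
      S (T.d3 x 0) = S (T.d3 x 1) + lo (T.d3 x 2) := fun x => by
    have a1 : T.d2 (T.d3 x 3) 2 = T.d2 (T.d3 x 2) 2 := T.s3 x 2 2 le_rfl
    have a2 : T.d2 (T.d3 x 3) 1 = T.d2 (T.d3 x 1) 2 := T.s3 x 1 2 (by decide)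
    have a3 : T.d2 (T.d3 x 3) 0 = T.d2 (T.d3 x 0) 2 := T.s3 x 0 2 (by decide)
    have a4 : T.d1 (T.d2 (T.d3 x 3) 2) 1 = T.d1 (T.d2 (T.d3 x 3) 1) 1 := T.s2 _ 1 1 le_rfl
    have a5 : T.d1 (T.d2 (T.d3 x 3) 2) 0 = T.d1 (T.d2 (T.d3 x 3) 0) 1 := T.s2 _ 0 1 (by decide)
    have b := hs (T.d2 (T.d3 x 2) 2)
    rw [hz, ← a1, a5, a3, a4, a2] at b
    refine ⟨?_, ?_, ?_⟩
    · simp only [S, ← a1, a4, a2]
    · simp only [S, a4, a2]
    · exact eq_add_of_sub_eq' b.symm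
  obtain ⟨x₀⟩ := T.ne
  have c : ∀ (g : G) f, S (g • f) - S f = S (g • T.d3 x₀ 0) - S (T.d3 x₀ 0) := fun g f =>
    T.const_face (fun f => S (g • f) - S f) (fun x k => by
      have a := hS x
      have b := hS (g • x)
      simp only [T.e3, hl] at b
      fin_cases k <;> simp <;> linarith) _ _
  let χ : G →* Multiplicative ℝ :=
    { toFun := fun g => Multiplicative.ofAdd (S (g • T.d3 x₀ 0) - S (T.d3 x₀ 0))
      map_one' := by simp
      map_mul' := fun g k => by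
        rw [← ofAdd_add, mul_smul]
        have := c g (k • T.d3 x₀ 0)
        exact congrArg _ (by linarith) }
  refine ⟨S, fun g f => sub_eq_zero.1 ((c g f).trans ?_), hS⟩
  simpa [χ] using congrArg Multiplicative.toAdd (DFunLike.congr_fun (h0 χ) g)

theorem ball_lt (x : X3) (k : Fin 4) (s a : ℝ) : s < T.pos φ x k a ↔ T.infLev φ x k s < a := by
  rw [← fw_jm, OrderIso.symm_apply_lt, jm_apply]

theorem ball_near {ψ : X2 → ℝ ≃o ℝ} {ε : ℝ} (h : ∀ f t, |φ f t - ψ f t| ≤ ε) (x : X3) (k : Fin 4)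
    {s a b : ℝ} (hs : s < T.pos φ x k a) (ab : a + 2 * ε ≤ b) : s < T.pos ψ x k b := by
  rw [ball_lt] at hs ⊢
  have h1 := abs_le.1 (h (T.d3 x 1) s)
  have h2 := abs_le.1 (h (T.d3 x 2) s)
  fin_cases k <;> simp [Tri.infLev] at hs ⊢ <;> linarith [h1.1, h1.2, h2.1, h2.2]

/-- the thresholds: the mark and a grid -/
noncomputable def ballTh (φ : X2 → ℝ ≃o ℝ) (m : ℕ) (f : X2) (j : Option (Fin (m + 2))) : ℝ :=
  j.elim (mark φ f) fun i => (i : ℕ) / (m + 1)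

theorem ballTh_mem (h : T.Flat φ) (m : ℕ) (f : X2) (j : Option (Fin (m + 2))) :
    ballTh φ m f j ∈ Icc (0 : ℝ) 1 := by
  cases j with
  | none => exact Ioo_subset_Icc_self (h.mk_mem f)
  | some i =>
    refine ⟨by simp only [ballTh, Option.elim]; positivity, (div_le_one (by positivity)).2 ?_⟩
    exact_mod_cast Nat.lt_succ_iff.1 i.2

theorem ballTh_smul (hf : T.Fol φ) (m : ℕ) (g : G) (f : X2) :
    ballTh φ m (g • f) = ballTh φ m f := funext fun j => by simp only [ballTh, mark, hf.2]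

theorem ball_fw (hf : T.Fol φ) {m : ℕ} {Y : X3 → Fin 4 → Option (Fin (m + 2)) → ℤ}
    (h1 : ∀ (g : G) x, Y (g • x) = Y x)
    (h2 : ∀ x k x' k', (x, k) ≠ (x', k') → T.d3 x k = T.d3 x' k' → ∀ j, Y x' k' j = - Y x k j)
    (h3 : ∀ x, ∀ s ∈ Ico (0 : ℝ) 1, 1 ≤ ∑ k, ∑ j,
      if T.infLev φ x k s ∈ Ico 0 (ballTh φ m (T.d3 x k) j) then Y x k j else 0) :
    ∃ y, T.Fw φ y := by
  classical
  have := T.fin
  have := T.fin2
  have := Fintype.ofFinite (Ob G X3)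
  have := Fintype.ofFinite (Ob G X2)
  refine ⟨fun x k t => ∑ j, if t ∈ Ico 0 (ballTh φ m (T.d3 x k) j) then Y x k j else 0,
    fun g x => funext₂ fun k t => by rw [h1, T.e3, ballTh_smul hf], fun x k x' k' ne e t => ?_,
    fun x s hs => (h3 x s hs).trans_eq (Finset.sum_congr rfl fun k _ => ?_),
    ⟨insert 0 (Finset.univ.image fun z : Ob G X2 × Option (Fin (m + 2)) =>
      ballTh φ m z.1.out z.2), fun x k t t' tt hd => Finset.sum_congr rfl fun j _ => ?_⟩,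
    ⟨∑ z : Ob G X3 × Fin 4, ∑ j, (Y z.1.out z.2 j).natAbs, fun x k t => ?_⟩⟩
  · simp only [h2 _ _ _ _ ne e, ← e, ← Finset.sum_neg_distrib]
    exact Finset.sum_congr rfl fun j _ => by split_ifs <;> simp
  · rw [Tri.fwC]
    split_ifs with h
    · rfl
    · exact Finset.sum_eq_zero fun j _ => if_neg fun a =>
        h ⟨a.1, a.2.trans_le (ballTh_mem hf.1 _ _ _).2⟩
  · have a := hd 0 (by simp)
    obtain ⟨g, hg⟩ := gen_out (G := G) (T.d3 x k)
    have b := hd (ballTh φ m (T.d3 x k) j) (Finset.mem_insert_of_mem (Finset.mem_image.2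
      ⟨(ob G (T.d3 x k), j), Finset.mem_univ _, by simp only [hg, ballTh, mark, hf.2]⟩))
    rw [mem_Icc, not_and_or, not_le, not_le] at a b
    refine if_congr ⟨fun c => ⟨c.1.trans tt, ?_⟩, fun c => ⟨?_, tt.trans_lt c.2⟩⟩ rfl rfl
    · exact b.resolve_left fun d => lt_asymm d c.2
    · exact (a.resolve_right fun d => d.not_ge c.1).le
  · obtain ⟨g, hg⟩ := inf_out (G := G) x
    push_cast
    refine le_trans ?_ (Finset.single_le_sum (f := fun z : Ob G X3 × Fin 4 =>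
      ∑ j, |Y z.1.out z.2 j|) (fun z _ => Finset.sum_nonneg fun j _ => abs_nonneg _)
      (Finset.mem_univ (ob G x, k)))
    simp only [hg, h1]
    refine Finset.sum_le_sum fun j _ => ?_
    split_ifs
    exacts [le_abs_self _, abs_nonneg _]

theorem Tri.ball (h0 : NoHom G) (hf : T.Fol φ) (ht : T.Taut φ)
    (mid : ∀ v, ∃ f, T.d1 (T.d2 f 2) 0 = v) :
    ∃ ρ > 0, ∀ ψ, T.Fol ψ → (∀ f t, |ψ f t - φ f t| ≤ ρ) → ∃ y, T.Fw ψ y := by
  classical
  by_contra hn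
  let ι : ℕ → Type := fun m => {c : (X2 → ℝ ≃o ℝ) × ℝ // T.Fol c.1 ∧
    (∀ f t, |c.1 f t - φ f t| ≤ 1 / ((m : ℝ) + 1)) ∧ c.2 ∈ Ico (0 : ℝ) 1}
  have key := fun m => (T.farkas (fun x (c : ι m) k (j : Option (Fin (m + 2))) =>
    T.infLev c.1.1 x k c.1.2 ∈ Ico 0 (ballTh c.1.1 m (T.d3 x k) j)) fun g x => by
      ext c k j
      simp only [inf_lev_smul c.2.1, T.e3, ballTh, mark, c.2.1.2]).resolve_left
    fun ⟨Y, h1, h2, h3⟩ => hn ⟨1 / ((m : ℝ) + 1), by positivity, fun ψ a b =>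
      ball_fw a h1 h2 fun x s hs => by convert h3 x ⟨(ψ, s), a, b, hs⟩⟩
  choose μ m1 m2 m3 m4 m5 using key
  choose pf pk hp using T.face_surj
  let M : ∀ m, X2 → Option (Fin (m + 2)) → ℝ := fun m f j => μ m (pf f)
    {c | T.infLev c.1.1 (pf f) (pk f) c.1.2 ∈ Ico 0 (ballTh c.1.1 m (T.d3 (pf f) (pk f)) j)}
  let ν : ∀ m, X3 → (ι m → ℝ) → ℝ := fun m x u => μ m x {c | c.1.2 < u c}
  have hM : ∀ m x k j, ν m x (fun c => T.pos c.1.1 x k 0) + M m (T.d3 x k) j =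
      ν m x fun c => T.pos c.1.1 x k (ballTh c.1.1 m (T.d3 x k) j) := fun m x k j => by
    simp only [ν, M]
    rw [m5 m _ _ x k (hp _), m3 m x {c | c.1.2 < T.pos c.1.1 x k (ballTh c.1.1 m (T.d3 x k) j)}
      {c | c.1.2 < T.pos c.1.1 x k 0}]
    congr 2
    · exact (inter_eq_right.2 fun c hc =>
        lt_of_lt_of_le hc ((pos_mono x k).monotone (ballTh_mem c.2.1.1 _ _ _).1)).symm
    · ext c
      simp only [mem_ofPred_eq, Set.mem_sdiff, mem_Ico, ball_lt, not_lt, and_comm]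
  have z : ∀ m x, ν m x (fun _ => 0) = 0 := fun m x => by
    have := m3 m x ∅ ∅
    simp only [ν, show {c : ι m | c.1.2 < 0} = ∅ from
      eq_empty_of_forall_notMem fun c hc => c.2.2.2.1.not_gt hc]
    rw [inter_self, Set.sdiff_self] at this
    linarith
  have l1 : ∀ m (c : ι m) f, ballTh c.1.1 m f (some (Fin.last _)) = 1 := fun m c f => by
    simp only [ballTh, Option.elim, Fin.val_last]
    push_cast
    exact div_self (by positivity)
  have tb : ∀ m x, (ν m x (fun c => mark c.1.1 (T.d3 x 2)) + M m (T.d3 x 0) none =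
      ν m x (fun c => mark c.1.1 (T.d3 x 1)) ∧
      M m (T.d3 x 1) none = ν m x (fun c => mark c.1.1 (T.d3 x 1)) ∧
      M m (T.d3 x 2) none = ν m x (fun c => mark c.1.1 (T.d3 x 2)) ∧
      M m (T.d3 x 3) none = ν m x (fun c => mark c.1.1 (T.d3 x 2))) ∧
      ν m x (fun c => mark c.1.1 (T.d3 x 2)) + M m (T.d3 x 0) (some (Fin.last _)) =
        ν m x (fun _ => 1) ∧
      M m (T.d3 x 1) (some (Fin.last _)) = ν m x (fun _ => 1) ∧
      M m (T.d3 x 2) (some (Fin.last _)) = ν m x (fun _ => 1) ∧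
      M m (T.d3 x 3) (some (Fin.last _)) = ν m x (fun c => mark c.1.1 (T.d3 x 1)) := fun m x => by
    have p0 : ∀ c : ι m, T.pos c.1.1 x 3 0 = 0 := fun c => c.2.1.1.pos3_zero x
    have p1 : ∀ c : ι m, T.pos c.1.1 x 0 1 = 1 := fun c => c.2.1.1.pos0_one x
    have p2 : ∀ c : ι m, T.pos c.1.1 x 0 (ballTh c.1.1 m (T.d3 x 0) none) =
      mark c.1.1 (T.d3 x 1) := fun c => c.2.1.1.pos0_mk x
    have p3 : ∀ c : ι m, T.pos c.1.1 x 3 (ballTh c.1.1 m (T.d3 x 3) none) =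
      mark c.1.1 (T.d3 x 2) := fun c => c.2.1.1.pos3_mk x
    have a0 := hM m x 0 none
    have a1 := hM m x 1 none
    have a2 := hM m x 2 none
    have a3 := hM m x 3 none
    have b0 := hM m x 0 (some (Fin.last _))
    have b1 := hM m x 1 (some (Fin.last _))
    have b2 := hM m x 2 (some (Fin.last _))
    have b3 := hM m x 3 (some (Fin.last _))
    simp only [p0, p1, p2, p3, l1, pos1, pos2, z, zero_add, Tri.Flat.pos0_zero,
      Tri.Flat.pos3_one] at a0 a1 a2 a3 b0 b1 b2 b3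
    exact ⟨⟨a0, a1, a2, a3⟩, b0, b1, b2, b3⟩
  choose S s1 s2 using fun m => T.height h0 (fun f => M m f none)
    (fun f => M m f (some (Fin.last _))) (fun g f => by
      obtain ⟨x, k, rfl⟩ := T.face_surj f
      have a := hM m x k none
      have b := hM m (g • x) k none
      simp only [ν, m1, fun c : ι m => inf_pos_smul c.2.1, T.e3, ballTh, Option.elim, mark,
        fun c : ι m => c.2.1.2] at a b
      linarith) fun x => by
    obtain ⟨⟨a0, a1, a2, a3⟩, b0, b1, b2, b3⟩ := tb m x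
    refine ⟨?_, ?_, ?_, ?_, ?_⟩ <;> linarith
  have hS : ∀ m x k, S m (T.d3 x k) = S m (T.d3 x 1) + ν m x fun c => T.pos c.1.1 x k 0 :=
    fun m x k => by
      fin_cases k
      · exact (s2 m x).2.2.trans (by
          simp only [(tb m x).1.2.2.1, Fin.zero_eta, Tri.Flat.pos0_zero])
      · exact (add_zero _).symm.trans (congrArg _ (z m x).symm)
      · exact (s2 m x).1.trans ((add_zero _).symm.trans (congrArg _ (z m x).symm))
      · refine (s2 m x).2.1.trans ((add_zero _).symm.trans (congrArg _ ((z m x).symm.trans ?_)))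
        exact congrArg _ (funext fun c => (c.2.1.1.pos3_zero x).symm)
  have ev : ∀ d : ℝ, 0 < d → ∀ᶠ m : ℕ in atTop, 5 * (1 / ((m : ℝ) + 1)) ≤ d := fun d hd =>
    (tendsto_one_div_add_atTop_nhds_zero_nat.eventually (eventually_le_nhds
      (show (0 : ℝ) < d / 5 by positivity))).mono fun m h => by linarith
  have up : ∀ (m : ℕ) x k a b, a + 2 * (1 / ((m : ℝ) + 1)) ≤ b →
      ν m x (fun _ => T.pos φ x k a) ≤ ν m x fun c => T.pos c.1.1 x k b := fun m x k a b h =>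
    m2 m x fun c hc => ball_near (fun f t => (abs_sub_comm _ _).trans_le (c.2.2.1 f t)) x k hc h
  have dn : ∀ (m : ℕ) x k a b, a + 2 * (1 / ((m : ℝ) + 1)) ≤ b →
      (ν m x fun c => T.pos c.1.1 x k a) ≤ ν m x fun _ => T.pos φ x k b := fun m x k a b h =>
    m2 m x fun c hc => ball_near c.2.2.1 x k hc h
  have apx : T.Apx φ (fun m x u => S m (T.d3 x 1) + ν m x fun _ => u) S
      fun m f => S m f + M m f (some (Fin.last _)) := by
    refine ⟨fun m x u v h => add_le_add_right (m2 m x fun c hc => lt_of_lt_of_le hc h) _,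
      fun m g x => by simp only [ν, m1, T.e3, s1], fun x k y l t t' e t0 tt t1 => ?_,
      fun x v hv => ?_, fun m x k hk => ?_, fun x u hu => ?_, fun m x k hk => ?_⟩
    · refine (ev _ (sub_pos.2 tt)).mono fun m h => ?_
      have p : (0 : ℝ) < m + 1 := by positivity
      have c1 := Nat.le_ceil ((m + 1) * t)
      have c2 := Nat.ceil_lt_add_one (mul_nonneg p.le t0)
      rw [mul_one_div, div_le_iff₀ p] at h
      have c3 : ⌈(m + 1) * t⌉₊ + 2 < m + 2 := by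
        have : (⌈((m : ℝ) + 1) * t⌉₊ : ℝ) < m := by nlinarith
        exact Nat.add_lt_add_right (by exact_mod_cast this) 2
      have a := hM m x k (some ⟨_, c3⟩)
      have b := hM m y l (some ⟨_, c3⟩)
      have a' := up m x k t (((⌈(m + 1) * t⌉₊ + 2 : ℕ) : ℝ) / (m + 1)) (by
        rw [le_div_iff₀ p, add_mul, mul_assoc, one_div_mul_cancel p.ne']
        push_cast
        linarith)
      have b' := dn m y l (((⌈(m + 1) * t⌉₊ + 2 : ℕ) : ℝ) / (m + 1)) t' (by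
        rw [mul_one_div, ← add_div, div_le_iff₀ p]
        push_cast
        linarith)
      have c := hS m x k
      have := hS m y l
      simp only [ballTh, Option.elim, e] at a b c
      linarith
    · rw [ball_lt, ← neg_pos] at hv
      refine (ev _ hv).mono fun m h => ?_
      have := up m x 0 (T.infLev φ x 0 v) 0 (by
        have : (0 : ℝ) < 1 / (m + 1) := by positivity
        linarith)
      rw [inf_pos_lev] at this
      linarith [hS m x 0]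
    · rw [z, add_zero]
      fin_cases k
      exacts [absurd rfl hk, rfl, (s2 m x).1, (s2 m x).2.1]
    · have hv : 0 < T.infLev φ x 3 u - 1 := by
        rwa [sub_pos, ← fw_jm, OrderIso.lt_symm_apply, jm_apply]
      refine (ev _ hv).mono fun m h => ?_
      have := dn m x 3 1 (T.infLev φ x 3 u) (by
        have : (0 : ℝ) < 1 / (m + 1) := by positivity
        linarith)
      simp only [inf_pos_lev, Tri.Flat.pos3_one] at this
      linarith [(tb m x).2.2.2.2, (s2 m x).2.1]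
    · obtain ⟨⟨a0, a1, a2, a3⟩, b0, b1, b2, b3⟩ := tb m x
      obtain ⟨c2, c3, c0⟩ := s2 m x
      fin_cases k
      · change S m (T.d3 x 0) + M m (T.d3 x 0) _ = _
        linarith
      · exact congrArg _ b1
      · change S m (T.d3 x 2) + M m (T.d3 x 2) _ = _
        linarith
      · exact absurd rfl hk
  obtain ⟨m, hm⟩ := (apx.zero hf.1 ht mid).exists
  obtain ⟨x, hx⟩ := m4 m
  have a := hm x
  have b : μ m x univ ≤ ν m x fun _ => 1 := m2 m x fun c _ => c.2.2.2.2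
  rw [z] at a
  linarith

end Pool.Agent.Work.MP_3d425c_gt.Md
end
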