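import Pool.Agent.Work.MP_3d425c_gt.Ta.Zero

/-! Leaves through vertices, and rising inside one tetrahedron. -/

namespace Pool.Agent.Work.MP_3d425c_gt.Md
open Set Relation

variable {G X0 X1 X2 X3 : Type} [Group G] [MulAction G X0] [MulAction G X1] [MulAction G X2]
  [MulAction G X3] {T : Tri G X0 X1 X2 X3} {φ : X2 → ℝ ≃o ℝ}

/-- A vertex that is lowest in one face and highest in another is the middle of a third. -/
theorem Tri.mid_of (T : Tri G X0 X1 X2 X3) (v : X0) (hu : ∃ f, T.d1 (T.d2 f 1) 1 = v)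
    (hl : ∃ f, T.d1 (T.d2 f 1) 0 = v) : ∃ f, T.d1 (T.d2 f 2) 0 = v := by
  by_contra hn
  have n : ∀ f, T.d1 (T.d2 f 0) 1 ≠ v := fun f e => hn ⟨f, (T.s2 f 0 1 (by decide)).trans e⟩
  obtain ⟨s, hs⟩ := T.link_pot (fun p => T.d1 (T.d2 p.1 p.2) 1 = v)
    (fun x i j h => by simp only [T.s3 x i j h]) fun f => by
      have e : T.d1 (T.d2 f 2) 1 = T.d1 (T.d2 f 1) 1 := T.s2 f 1 1 le_rfl
      simp only [e, n f, or_false, and_false, not_false_eq_true, and_self]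
  obtain ⟨f, hf⟩ := hu
  obtain ⟨f', hf'⟩ := hl
  have c := T.const_face (fun f => s (T.d1 (T.d2 f 0) 0)) (fun y k => by
    fin_cases k
    · rfl
    · exact congrArg (fun e => s (T.d1 e 0)) (T.s3 y 0 0 le_rfl)
    · exact congrArg s ((congrArg (T.d1 · 0) (T.s3 y 0 1 (by decide))).trans (T.s2 _ 0 0 le_rfl))
    · exact (congrArg s ((congrArg (T.d1 · 0) (T.s3 y 0 2 (by decide))).trans
        (T.s2 _ 0 1 (by decide)))).trans ((hs _ 0).2 (n _)).symm) f f'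
  have a := (hs f 1).1 hf
  have e : ∀ f, T.d1 (T.d2 f 1) 0 = T.d1 (T.d2 f 0) 0 := fun f => T.s2 f 0 0 le_rfl
  rw [hf, e, c, ← e, hf'] at a
  linarith

/-- the plaque `p` lies on the leaf through the vertex `v` -/
def Tri.On (T : Tri G X0 X1 X2 X3) (φ : X2 → ℝ ≃o ℝ) (v : X0) (p : X3 × ℝ) : Prop :=
  ∃ y k, T.d1 (T.d2 (T.d3 y k) 2) 0 = v ∧ T.Lf φ (y, T.pos φ y k (mark φ (T.d3 y k))) p

/-- the plaque `p` lies on the leaf through the point `s` of the long edge of `x` -/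
def Tri.At (T : Tri G X0 X1 X2 X3) (φ : X2 → ℝ ≃o ℝ) (x : X3) (s : ℝ) (p : X3 × ℝ) : Prop :=
  (s ∈ Ioo (0 : ℝ) 1 ∧ T.Lf φ (x, s) p) ∨ (s = 0 ∧ T.On φ (T.d1 (T.d2 (T.d3 x 1) 1) 1) p) ∨
    (s = 1 ∧ T.On φ (T.d1 (T.d2 (T.d3 x 1) 1) 0) p)

theorem Tri.On.lf (hf : T.Flat φ) {v : X0} {p : X3 × ℝ} (h : T.On φ v p) {y : X3} {k : Fin 4}
    (e : T.d1 (T.d2 (T.d3 y k) 2) 0 = v) : T.Lf φ (y, T.pos φ y k (mark φ (T.d3 y k))) p :=
  let ⟨_, _, a, b⟩ := h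
  (hf.lf_vertex (e.trans a.symm)).trans b

theorem Tri.At.lf (hf : T.Flat φ) {x : X3} {s : ℝ} {p q : X3 × ℝ} (h : T.At φ x s p)
    (k : T.At φ x s q) : T.Lf φ p q := by
  rcases h with ⟨a, b⟩ | ⟨rfl, _, _, e, b⟩ | ⟨rfl, _, _, e, b⟩ <;>
    rcases k with ⟨c, d⟩ | ⟨c, d⟩ | ⟨c, d⟩
  · exact b.symm.trans d
  · exact absurd c a.1.ne'
  · exact absurd c a.2.ne
  · exact absurd c.1 (lt_irrefl _)
  · exact b.symm.trans (d.lf hf e)
  · exact absurd c zero_ne_one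
  · exact absurd c.2 (lt_irrefl _)
  · exact absurd c one_ne_zero
  · exact b.symm.trans (d.lf hf e)

theorem rise_left {p q r : X3 × ℝ} (h : T.Lf φ p q) (k : TransGen (T.Rise φ) q r) :
    TransGen (T.Rise φ) p r := by
  induction k with
  | single k =>
    obtain ⟨y, t, t', a, b, c⟩ := k
    exact .single ⟨y, t, t', a, h.trans b, c⟩
  | tail _ k ih => exact .tail ih k

theorem rise_right {p q r : X3 × ℝ} (k : TransGen (T.Rise φ) p q) (h : T.Lf φ q r) :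
    TransGen (T.Rise φ) p r := by
  have one : ∀ {p}, T.Rise φ p q → T.Rise φ p r := fun ⟨y, t, t', a, b, c⟩ =>
    ⟨y, t, t', a, b, Tri.Lf.trans c h⟩
  cases k with
  | single k => exact .single (one k)
  | tail j k => exact .tail j (one k)

theorem rise_top (hf : T.Flat φ) (mid : ∀ v, ∃ f, T.d1 (T.d2 f 2) 0 = v) (x : X3) {s : ℝ}
    (hs : s ∈ Ioo (0 : ℝ) 1) {q : X3 × ℝ} (h : T.On φ (T.d1 (T.d2 (T.d3 x 1) 1) 0) q) :
    TransGen (T.Rise φ) (x, s) q := by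
  let P : X2 → Prop := fun f => ∀ x k, T.d3 x k = f → ∀ t ∈ Ioo (0 : ℝ) 1, ∀ q,
    T.On φ (T.d1 (T.d2 f 1) 0) q → TransGen (T.Rise φ) (x, T.pos φ x k t) q
  have z : ∀ y k, k ≠ 3 → T.pos φ y k 1 = 1 ∧
      T.d1 (T.d2 (T.d3 y k) 1) 0 = T.d1 (T.d2 (T.d3 y 1) 1) 0 := fun y k hk => by
    fin_cases k
    exacts [⟨hf.pos0_one y, (T.s2 _ 0 0 le_rfl).trans ((congrArg (T.d1 · 0)
      (T.s3 y 0 0 le_rfl).symm).trans (T.s2 _ 0 0 le_rfl).symm)⟩, ⟨rfl, rfl⟩,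
      ⟨rfl, congrArg (T.d1 · 0) (T.s3 y 1 1 le_rfl)⟩, absurd rfl hk]
  have mv : ∀ y k l, k ≠ 3 → l ≠ 3 → P (T.d3 y k) → P (T.d3 y l) :=
    fun y k l hk hl a x j e t ht q hq => by
      obtain ⟨r, r1, r2, r3⟩ := zero_down (T := T) (φ := φ) y k one_pos
        (v := T.pos φ y l t) (by rw [(z y k hk).1]; exact (hf.pos_mem y l ht).2)
      obtain ⟨θ, c, d⟩ := exists_between r1
      exact .head ⟨y, _, _, r3.trans_lt (pos_mono y k c), Tri.Lf.arc e ht, .refl _⟩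
        (a y k rfl θ ⟨r2.trans_lt c, d⟩ q (by rwa [(z y k hk).2, ← (z y l hl).2]))
  exact T.low_link (fun x => mid _) P (fun y x k e t ht q hq => .single ⟨y, _, _,
      pos_mono y 3 ht.2, Tri.Lf.arc e ht, hq.lf hf (y := y) (k := 1)
        (congrArg (T.d1 · 0) (T.s3 y 1 2 (by decide)).symm)⟩)
    (fun y => ⟨⟨mv y 0 1 (by decide) (by decide), mv y 1 0 (by decide) (by decide)⟩,
      mv y 1 2 (by decide) (by decide), mv y 2 1 (by decide) (by decide)⟩) x x 1 rfl s hs q h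

theorem rise_bot (hf : T.Flat φ) (mid : ∀ v, ∃ f, T.d1 (T.d2 f 2) 0 = v) (x : X3) {s : ℝ}
    (hs : s ∈ Ioo (0 : ℝ) 1) {q : X3 × ℝ} (h : T.On φ (T.d1 (T.d2 (T.d3 x 1) 1) 1) q) :
    TransGen (T.Rise φ) q (x, s) := by
  let P : X2 → Prop := fun f => ∀ x k, T.d3 x k = f → ∀ t ∈ Ioo (0 : ℝ) 1, ∀ q,
    T.On φ (T.d1 (T.d2 f 1) 1) q → TransGen (T.Rise φ) q (x, T.pos φ x k t)
  have z : ∀ y k, k ≠ 0 → T.pos φ y k 0 = 0 ∧
      T.d1 (T.d2 (T.d3 y k) 1) 1 = T.d1 (T.d2 (T.d3 y 1) 1) 1 := fun y k hk => by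
    fin_cases k
    exacts [absurd rfl hk, ⟨rfl, rfl⟩, ⟨rfl, congrArg (T.d1 · 1) (T.s3 y 1 1 le_rfl)⟩,
      ⟨hf.pos3_zero y, (congrArg (T.d1 · 1) (T.s3 y 1 2 (by decide))).trans (T.s2 _ 1 1 le_rfl)⟩]
  have mv : ∀ y k l, k ≠ 0 → l ≠ 0 → P (T.d3 y k) → P (T.d3 y l) :=
    fun y k l hk hl a x j e t ht q hq => by
      obtain ⟨r, r1, r2, r3⟩ := zero_up (T := T) (φ := φ) y k one_pos
        (v := T.pos φ y l t) (by rw [(z y k hk).1]; exact (hf.pos_mem y l ht).1)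
      obtain ⟨θ, c, d⟩ := exists_between r1
      exact .tail (a y k rfl θ ⟨c, d.trans_le r2⟩ q (by rwa [(z y k hk).2, ← (z y l hl).2]))
        ⟨y, _, _, (pos_mono y k d).trans_le r3, .refl _, (Tri.Lf.arc e ht).symm⟩
  exact T.up_link (fun x => mid _) P (fun y x k e t ht q hq => .single ⟨y, _, _,
      pos_mono y 0 ht.1, (Tri.Flat.pos0_zero (T := T) (φ := φ) y).symm ▸
        (hq.lf hf (y := y) (k := 2) ((T.s2 _ 0 1 (by decide)).trans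
          (congrArg (T.d1 · 1) (T.s3 y 0 1 (by decide))))).symm, (Tri.Lf.arc e ht).symm⟩)
    (fun y => ⟨⟨mv y 1 2 (by decide) (by decide), mv y 2 1 (by decide) (by decide)⟩,
      mv y 2 3 (by decide) (by decide), mv y 3 2 (by decide) (by decide)⟩) x x 1 rfl s hs q h

theorem Tri.At.rise (hf : T.Flat φ) (mid : ∀ v, ∃ f, T.d1 (T.d2 f 2) 0 = v) {x : X3} {s t : ℝ}
    {p q : X3 × ℝ} (h : T.At φ x s p) (k : T.At φ x t q) (st : s < t) :
    TransGen (T.Rise φ) p q := by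
  rcases h with ⟨a, b⟩ | ⟨rfl, b⟩ | ⟨rfl, b⟩ <;> rcases k with ⟨c, d⟩ | ⟨rfl, d⟩ | ⟨c, d⟩
  · exact .single ⟨x, s, t, st, b.symm, d⟩
  · exact absurd a.1 st.asymm
  · exact rise_left b.symm (rise_top hf mid x a d)
  · exact rise_right (rise_bot hf mid x c b) d
  · exact absurd st (lt_irrefl _)
  · exact (rise_bot hf mid x (s := 1 / 2) (by norm_num) b).trans
      (rise_top hf mid x (by norm_num) d)
  · exact absurd c.2 st.asymm
  · exact absurd st (by norm_num)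
  · exact absurd c st.ne'

end Pool.Agent.Work.MP_3d425c_gt.Md
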